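import Mathlib

/-!
The arithmetic functions `(-2)^Ω` and `1` on the odd numbers; the quotient of the first one by the
square of the inverse of the second one is absolutely summable to the left of the line `1`.
-/

set_option autoImplicit false

open Finset ArithmeticFunction

namespace Pool.Agent.H701M

/-- `(-2)^Ω(n)` -/
noncomputable def ff (n : ℕ) : ℝ := (-2) ^ (ArithmeticFunction.cardFactors n)

/-- `(-2)^Ω(n)` on the odd numbers -/
noncomputable def fo : ArithmeticFunction ℝ where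
  toFun n := if Odd n then ff n else 0
  map_zero' := by simp

/-- the indicator function of the odd numbers -/
noncomputable def oo : ArithmeticFunction ℝ where
  toFun n := if Odd n then 1 else 0
  map_zero' := by simp

/-- the Moebius function on the odd numbers -/
noncomputable def mo : ArithmeticFunction ℝ where
  toFun n := if Odd n then ((ArithmeticFunction.moebius n : ℤ) : ℝ) else 0
  map_zero' := by simp

theorem fo_apply (n : ℕ) : fo n = if Odd n then ff n else 0 := rfl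
theorem oo_apply (n : ℕ) : oo n = if Odd n then 1 else 0 := rfl
theorem mo_apply (n : ℕ) :
    mo n = if Odd n then ((ArithmeticFunction.moebius n : ℤ) : ℝ) else 0 := rfl

theorem ff_mul {m n : ℕ} (hm : m ≠ 0) (hn : n ≠ 0) : ff (m * n) = ff m * ff n := by
  unfold ff
  rw [cardFactors_mul hm hn, pow_add]

theorem fo_mult : fo.IsMultiplicative := by
  refine ⟨by simp [fo_apply, ff], fun {m n} _ => ?_⟩
  simp only [fo_apply, Nat.odd_mul]
  by_cases h1 : Odd m <;> by_cases h2 : Odd n <;> simp [h1, h2]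
  exact ff_mul h1.pos.ne' h2.pos.ne'

theorem oo_mult : oo.IsMultiplicative := by
  refine ⟨by simp [oo_apply], fun {m n} _ => ?_⟩
  simp only [oo_apply, Nat.odd_mul]
  by_cases h1 : Odd m <;> by_cases h2 : Odd n <;> simp [h1, h2]

/-- `mo` is the Dirichlet inverse of `oo` -/
theorem mo_oo : mo * oo = 1 := by
  ext n
  rw [mul_apply]
  rcases Nat.eq_zero_or_pos n with rfl | hn
  · simp
  by_cases ho : Odd n
  · have h1 : ∑ x ∈ n.divisorsAntidiagonal, mo x.1 * oo x.2 =
        ∑ x ∈ n.divisorsAntidiagonal, ((ArithmeticFunction.moebius x.1 : ℤ) : ℝ) := by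
      refine Finset.sum_congr rfl fun x hx => ?_
      have h2 := (Nat.mem_divisorsAntidiagonal.1 hx).1
      rw [← h2, Nat.odd_mul] at ho
      rw [mo_apply, oo_apply, if_pos ho.1, if_pos ho.2, mul_one]
    rw [h1]
    have h3 := congrArg (fun f : ArithmeticFunction ℤ => f n) moebius_mul_coe_zeta
    simp only [mul_apply] at h3
    have h4 : ∑ x ∈ n.divisorsAntidiagonal, ((ArithmeticFunction.moebius x.1 : ℤ) : ℝ) =
        ((∑ x ∈ n.divisorsAntidiagonal, ArithmeticFunction.moebius x.1 *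
          ((zeta : ArithmeticFunction ℤ) x.2) : ℤ) : ℝ) := by
      push_cast
      refine Finset.sum_congr rfl fun x hx => ?_
      have h2 := Nat.mem_divisorsAntidiagonal.1 hx
      have h5 : x.2 ≠ 0 := by
        rintro h
        rw [h, mul_zero] at h2
        exact h2.2 h2.1.symm
      simp [natCoe_apply, h5]
    rw [h4, h3]
    by_cases h6 : n = 1
    · simp [h6]
    · simp [one_apply_ne h6]
  · have h6 : n ≠ 1 := by
      rintro rfl
      exact ho odd_one
    rw [one_apply_ne h6]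
    refine Finset.sum_eq_zero fun x hx => ?_
    have h2 := (Nat.mem_divisorsAntidiagonal.1 hx).1
    rw [← h2, Nat.odd_mul] at ho
    rw [mo_apply, oo_apply]
    by_cases h7 : Odd x.1
    · by_cases h8 : Odd x.2
      · exact absurd ⟨h7, h8⟩ ho
      · simp [h8]
    · simp [h7]

/-- the quotient -/
noncomputable def hh : ArithmeticFunction ℝ := fo * (oo * oo)

theorem hh_mult : hh.IsMultiplicative := fo_mult.mul (oo_mult.mul oo_mult)

theorem fo_eq : fo = hh * (mo * mo) := by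
  have h1 : hh * (mo * mo) = fo * ((mo * oo) * (mo * oo)) := by
    unfold hh
    ring
  rw [h1, mo_oo]
  simp

theorem ff_prime_pow {p : ℕ} (hp : p.Prime) (k : ℕ) : ff (p ^ k) = (-2) ^ k := by
  unfold ff
  rw [cardFactors_apply_prime_pow hp]

theorem oo2_prime_pow {p : ℕ} (hp : p.Prime) (h2 : Odd p) (k : ℕ) :
    (oo * oo) (p ^ k) = (k : ℝ) + 1 := by
  rw [mul_apply, Nat.sum_divisorsAntidiagonal (fun a b => oo a * oo b),
    Nat.sum_divisors_prime_pow hp]
  have h1 : ∀ i ∈ range (k + 1), oo (p ^ i) * oo (p ^ k / p ^ i) = 1 := by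
    intro i hi
    rw [Nat.pow_div (by simpa [Nat.lt_succ_iff] using hi) hp.pos, oo_apply, oo_apply,
      if_pos h2.pow, if_pos h2.pow, mul_one]
  rw [Finset.sum_congr rfl h1]
  simp

theorem hh_prime_pow {p : ℕ} (hp : p.Prime) (h2 : Odd p) (k : ℕ) :
    hh (p ^ k) = ∑ i ∈ range (k + 1), (-2 : ℝ) ^ i * (((k - i : ℕ) : ℝ) + 1) := by
  unfold hh
  rw [mul_apply, Nat.sum_divisorsAntidiagonal (fun a b => fo a * (oo * oo) b),
    Nat.sum_divisors_prime_pow hp]
  refine Finset.sum_congr rfl fun i hi => ?_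
  rw [Nat.pow_div (by simpa [Nat.lt_succ_iff] using hi) hp.pos, oo2_prime_pow hp h2, fo_apply,
    if_pos h2.pow, ff_prime_pow hp]

theorem sum_two (k : ℕ) : ∑ i ∈ range (k + 1), (2 : ℝ) ^ i * (((k - i : ℕ) : ℝ) + 1) =
    4 * 2 ^ k - k - 3 := by
  induction k with
  | zero => norm_num
  | succ k ih =>
    rw [Finset.sum_range_succ]
    have h1 : ∀ i ∈ range (k + 1), (2 : ℝ) ^ i * (((k + 1 - i : ℕ) : ℝ) + 1) =
        (2 : ℝ) ^ i * (((k - i : ℕ) : ℝ) + 1) + 2 ^ i := by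
      intro i hi
      have : i ≤ k := by simpa [Nat.lt_succ_iff] using hi
      rw [Nat.succ_sub this]
      push_cast
      ring
    rw [Finset.sum_congr rfl h1, Finset.sum_add_distrib, ih]
    have h2 : ∑ i ∈ range (k + 1), (2 : ℝ) ^ i = 2 ^ (k + 1) - 1 := by
      have := geom_sum_eq (by norm_num : (2 : ℝ) ≠ 1) (k + 1)
      rw [this]
      norm_num
    rw [h2]
    push_cast
    simp
    ring

theorem hh_bound {p : ℕ} (hp : p.Prime) (h2 : Odd p) (k : ℕ) : |hh (p ^ k)| ≤ 4 * 2 ^ k := by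
  rw [hh_prime_pow hp h2]
  refine (Finset.abs_sum_le_sum_abs _ _).trans ?_
  have h1 : ∀ i ∈ range (k + 1), |(-2 : ℝ) ^ i * (((k - i : ℕ) : ℝ) + 1)| =
      (2 : ℝ) ^ i * (((k - i : ℕ) : ℝ) + 1) := by
    intro i _
    rw [abs_mul, abs_pow, abs_neg, abs_two, abs_of_nonneg (by positivity : (0 : ℝ) ≤
      ((k - i : ℕ) : ℝ) + 1)]
  rw [Finset.sum_congr rfl h1, sum_two]
  have : (0 : ℝ) ≤ k := Nat.cast_nonneg k
  linarith

theorem hh_prime {p : ℕ} (hp : p.Prime) (h2 : Odd p) : hh p = 0 := by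
  have := hh_prime_pow hp h2 1
  rw [pow_one] at this
  rw [this]
  norm_num [Finset.sum_range_succ]

theorem hh_two_pow {k : ℕ} (hk : 1 ≤ k) : hh (2 ^ k) = 0 := by
  unfold hh
  rw [mul_apply]
  refine Finset.sum_eq_zero fun x hx => ?_
  have h2 := (Nat.mem_divisorsAntidiagonal.1 hx).1
  have h3 : ¬ Odd (x.1 * x.2) := by
    rw [h2, Nat.not_odd_iff_even]
    exact (Nat.even_pow' (by omega)).2 even_two
  rw [Nat.odd_mul] at h3
  by_cases h4 : Odd x.1
  · have h5 : ¬ Odd x.2 := fun h => h3 ⟨h4, h⟩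
    have h6 : (oo * oo) x.2 = 0 := by
      rw [mul_apply]
      refine Finset.sum_eq_zero fun y hy => ?_
      have h7 := (Nat.mem_divisorsAntidiagonal.1 hy).1
      rw [← h7, Nat.odd_mul] at h5
      rw [oo_apply, oo_apply]
      by_cases h8 : Odd y.1
      · have h9 : ¬ Odd y.2 := fun h => h5 ⟨h8, h⟩
        simp [h9]
      · simp [h8]
    rw [h6, mul_zero]
  · rw [fo_apply, if_neg h4, zero_mul]

/-- the weighted function -/
noncomputable def FF (n : ℕ) : ℝ := |hh n| * (n : ℝ) ^ (-(9 / 10 : ℝ))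

theorem FF_nonneg (n : ℕ) : 0 ≤ FF n := by unfold FF; positivity

theorem FF_one : FF 1 = 1 := by
  unfold FF
  rw [hh_mult.1]
  simp

theorem FF_mul {m n : ℕ} (h : Nat.Coprime m n) : FF (m * n) = FF m * FF n := by
  unfold FF
  rw [hh_mult.2 h, abs_mul, Nat.cast_mul, Real.mul_rpow (Nat.cast_nonneg _) (Nat.cast_nonneg _)]
  ring

theorem rp {p : ℕ} (hp : p.Prime) (h2 : Odd p) : 2 * (p : ℝ) ^ (-(9 / 10 : ℝ)) ≤ 4 / 5 := by
  have h3 : (3 : ℝ) ≤ p := by
    have : 3 ≤ p := by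
      rcases h2 with ⟨m, hm⟩
      have := hp.two_le
      omega
    exact_mod_cast this
  have h4 : (p : ℝ) ^ (-(9 / 10 : ℝ)) ≤ (3 : ℝ) ^ (-(9 / 10 : ℝ)) :=
    Real.rpow_le_rpow_of_nonpos (by norm_num) h3 (by norm_num)
  have h5 : (3 : ℝ) ^ (-(9 / 10 : ℝ)) ≤ 2 / 5 := by
    rw [Real.rpow_neg (by norm_num)]
    have h6 : (5 / 2 : ℝ) ≤ (3 : ℝ) ^ (9 / 10 : ℝ) := by
      have h7 : ((5 / 2 : ℝ) ^ (10 : ℕ)) ^ (1 / 10 : ℝ) ≤ ((3 : ℝ) ^ (9 : ℕ)) ^ (1 / 10 : ℝ) :=
        Real.rpow_le_rpow (by positivity) (by norm_num) (by norm_num)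
      rw [← Real.rpow_natCast, ← Real.rpow_natCast, ← Real.rpow_mul (by norm_num),
        ← Real.rpow_mul (by norm_num)] at h7
      norm_num at h7 ⊢
      exact h7
    rw [inv_le_comm₀ (by positivity) (by norm_num)]
    norm_num
    exact h6
  linarith

theorem FF_pp {p : ℕ} (hp : p.Prime) (h2 : Odd p) (k : ℕ) :
    FF (p ^ k) ≤ 4 * (2 * (p : ℝ) ^ (-(9 / 10 : ℝ))) ^ k := by
  unfold FF
  have h1 := hh_bound hp h2 k
  have h3 : ((p ^ k : ℕ) : ℝ) ^ (-(9 / 10 : ℝ)) = ((p : ℝ) ^ (-(9 / 10 : ℝ))) ^ k := by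
    push_cast
    rw [← Real.rpow_natCast, ← Real.rpow_natCast, ← Real.rpow_mul (Nat.cast_nonneg _),
      ← Real.rpow_mul (Nat.cast_nonneg _), mul_comm]
  rw [h3, mul_pow]
  have h4 : (0 : ℝ) ≤ ((p : ℝ) ^ (-(9 / 10 : ℝ))) ^ k := by positivity
  nlinarith

theorem FF_sum {p : ℕ} (hp : p.Prime) : Summable (fun n : ℕ => ‖FF (p ^ n)‖) := by
  rcases hp.eq_two_or_odd' with rfl | h2
  · refine summable_of_ne_finset_zero (s := {0}) fun n hn => ?_
    have : 1 ≤ n := by
      rcases Nat.eq_zero_or_pos n with h | h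
      · simp [h] at hn
      · exact h
    unfold FF
    rw [hh_two_pow this]
    simp
  · refine Summable.of_nonneg_of_le (fun n => norm_nonneg _) (fun n => ?_)
      ((summable_geometric_of_lt_one (r := 2 * (p : ℝ) ^ (-(9 / 10 : ℝ))) (by positivity)
        (by linarith [rp hp h2])).mul_left 4)
    rw [Real.norm_of_nonneg (FF_nonneg _)]
    exact FF_pp hp h2 n

theorem geo_aux {f : ℕ → ℝ} (hs : Summable f) {r : ℝ} (hr0 : 0 ≤ r) (hr1 : r ≤ 4 / 5)
    (h0 : f 0 = 1) (h1 : f 1 = 0) (hb : ∀ n, f n ≤ 4 * r ^ n) :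
    ∑' n : ℕ, f n ≤ 1 + 20 * r ^ 2 := by
  have hs1 : Summable (fun n : ℕ => f (n + 1)) := (summable_nat_add_iff 1).2 hs
  have hs2 : Summable (fun n : ℕ => f (n + 1 + 1)) := (summable_nat_add_iff 1).2 hs1
  have hg : Summable (fun n : ℕ => 4 * r ^ 2 * r ^ n) :=
    (summable_geometric_of_lt_one hr0 (by linarith)).mul_left _
  have e1 : ∑' n : ℕ, f n = f 0 + ∑' n : ℕ, f (n + 1) := hs.tsum_eq_zero_add
  have e2 : ∑' n : ℕ, f (n + 1) = f (0 + 1) + ∑' n : ℕ, f (n + 1 + 1) := hs1.tsum_eq_zero_add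
  have e3 : ∑' n : ℕ, f (n + 1 + 1) ≤ ∑' n : ℕ, 4 * r ^ 2 * r ^ n := by
    refine Summable.tsum_le_tsum (fun n => ?_) hs2 hg
    refine (hb _).trans (le_of_eq ?_)
    ring
  rw [tsum_mul_left, tsum_geometric_of_lt_one hr0 (by linarith)] at e3
  have h4 : (1 - r)⁻¹ ≤ 5 := by
    rw [inv_le_comm₀ (by linarith) (by norm_num)]
    linarith
  have h5 : 4 * r ^ 2 * (1 - r)⁻¹ ≤ 4 * r ^ 2 * 5 :=
    mul_le_mul_of_nonneg_left h4 (by positivity)
  rw [e1, e2, h0, zero_add, h1]
  linarith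

theorem FF_tsum {p : ℕ} (hp : p.Prime) :
    ∑' n : ℕ, FF (p ^ n) ≤ 1 + 80 * (p : ℝ) ^ (-(9 / 5 : ℝ)) := by
  have hs : Summable (fun n : ℕ => FF (p ^ n)) := (FF_sum hp).of_norm
  rcases hp.eq_two_or_odd' with rfl | h2
  · rw [hs.tsum_eq_zero_add, pow_zero, FF_one]
    have : ∑' n : ℕ, FF (2 ^ (n + 1)) = 0 := by
      rw [show (fun n : ℕ => FF (2 ^ (n + 1))) = fun _ => 0 from ?_]
      · simp
      · funext n
        unfold FF
        rw [hh_two_pow (by omega)]
        simp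
    rw [this]
    have : (0 : ℝ) ≤ ((2 : ℕ) : ℝ) ^ (-(9 / 5 : ℝ)) := by positivity
    linarith
  · have h0 : FF (p ^ 1) = 0 := by
      unfold FF
      rw [pow_one, hh_prime hp h2]
      simp
    have h1 := geo_aux hs (r := 2 * (p : ℝ) ^ (-(9 / 10 : ℝ))) (by positivity) (rp hp h2)
      (by rw [pow_zero, FF_one]) h0 (FF_pp hp h2)
    have h3 : (2 * (p : ℝ) ^ (-(9 / 10 : ℝ))) ^ 2 = 4 * (p : ℝ) ^ (-(9 / 5 : ℝ)) := by
      have h4 : ((p : ℝ) ^ (-(9 / 10 : ℝ))) ^ 2 = (p : ℝ) ^ (-(9 / 5 : ℝ)) := by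
        rw [← Real.rpow_mul_natCast (Nat.cast_nonneg _)]
        congr 1
        norm_num
      rw [mul_pow, h4]
      norm_num
    rw [h3] at h1
    linarith

theorem FF_summable : Summable FF := by
  have hz : Summable (fun n : ℕ => (n : ℝ) ^ (-(9 / 5 : ℝ))) :=
    Real.summable_nat_rpow.2 (by norm_num)
  refine summable_of_sum_range_le (c := Real.exp (80 * ∑' n : ℕ, (n : ℝ) ^ (-(9 / 5 : ℝ))))
    FF_nonneg fun N => ?_
  obtain ⟨h1, h2⟩ := EulerProduct.summable_and_hasSum_factoredNumbers_prod_filter_prime_tsum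
    (f := FF) FF_one FF_mul FF_sum (range N)
  have h1' : Summable (fun m : Nat.factoredNumbers (range N) => FF m) := h1.of_norm
  have h3 : ∑ n ∈ range N, FF n ≤ ∑' m : Nat.factoredNumbers (range N), FF m := by
    have h4 : ∑ n ∈ range N, FF n = ∑ n ∈ (range N).filter (· ≠ 0), FF n := by
      rw [Finset.sum_filter_of_ne]
      intro n _ hn h0
      rw [h0] at hn
      exact hn (by unfold FF; simp)
    rw [h4]
    have h5 : ∀ n ∈ (range N).filter (· ≠ 0), n ∈ Nat.factoredNumbers (range N) := by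
      intro n hn
      rw [Finset.mem_filter, Finset.mem_range] at hn
      rw [Nat.mem_factoredNumbers]
      refine ⟨hn.2, fun p hp => ?_⟩
      rw [Finset.mem_range]
      exact (Nat.le_of_mem_primeFactorsList hp).trans_lt hn.1
    have h7 : ∑ n ∈ (range N).filter (· ≠ 0), FF n =
        ∑ m ∈ ((range N).filter (· ≠ 0)).subtype (· ∈ Nat.factoredNumbers (range N)),
          FF (m : ℕ) := by
      rw [Finset.sum_subtype_eq_sum_filter, Finset.filter_true_of_mem h5]
    rw [h7]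
    exact Summable.sum_le_tsum (f := fun m : Nat.factoredNumbers (range N) => FF (m : ℕ)) _
      (fun m _ => FF_nonneg _) h1'
  refine h3.trans ?_
  rw [h2.tsum_eq]
  calc ∏ p ∈ range N with p.Prime, ∑' n : ℕ, FF (p ^ n)
      ≤ ∏ p ∈ range N with p.Prime, Real.exp (80 * (p : ℝ) ^ (-(9 / 5 : ℝ))) := by
        refine Finset.prod_le_prod (fun p _ => tsum_nonneg fun n => FF_nonneg _) fun p hp => ?_
        refine (FF_tsum (Finset.mem_filter.1 hp).2).trans ?_
        rw [add_comm]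
        exact Real.add_one_le_exp _
    _ = Real.exp (∑ p ∈ range N with p.Prime, 80 * (p : ℝ) ^ (-(9 / 5 : ℝ))) :=
        (Real.exp_sum _ _).symm
    _ ≤ _ := by
        rw [Real.exp_le_exp, ← Finset.mul_sum]
        refine mul_le_mul_of_nonneg_left ?_ (by norm_num)
        exact hz.sum_le_tsum _ (fun n _ => by positivity)

end Pool.Agent.H701M
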