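import Pool.Agent.H701M.A1
import Pool.Agent.H705R2.MLogF
import Pool.Agent.H383.OM.Hyp

/-!
The summatory function of `(-2)^Ω` on the odd numbers is `O(N / (log N)^A)`.
-/

set_option autoImplicit false

open Finset ArithmeticFunction

namespace Pool.Agent.H701M.A2

/-- `1 + log x` -/
noncomputable def L (x : ℝ) : ℝ := 1 + Real.log x

theorem L_one_le {x : ℝ} (hx : 1 ≤ x) : 1 ≤ L x := by
  have := Real.log_nonneg hx
  unfold L; linarith

theorem L_pos {x : ℝ} (hx : 1 ≤ x) : 0 < L x := lt_of_lt_of_le one_pos (L_one_le hx)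

theorem L_mono {x y : ℝ} (hx : 1 ≤ x) (h : x ≤ y) : L x ≤ L y := by
  have := Real.log_le_log (by linarith) h
  unfold L; linarith

theorem L_mul {x y : ℝ} (hx : 1 ≤ x) (hy : 1 ≤ y) : L (x * y) ≤ L x * L y := by
  have h1 := Real.log_nonneg hx
  have h2 := Real.log_nonneg hy
  unfold L
  rw [Real.log_mul (by linarith) (by linarith)]
  nlinarith [mul_nonneg h1 h2]

theorem L_two : L 2 ≤ 2 := by
  have := Real.log_two_lt_d9
  unfold L; linarith

/-- The sums of `g` are `O(N / (1 + log N)^A)`. -/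
def Bd (g : ArithmeticFunction ℝ) (A : ℕ) : Prop :=
  ∃ C : ℝ, 0 ≤ C ∧ ∀ N : ℕ, 1 ≤ N → |∑ n ∈ Ioc 0 N, g n| ≤ C * N / L N ^ A

theorem L_div {N d : ℕ} (hd : 1 ≤ d) (hN : d ≤ N) :
    L N ≤ 2 * L d * L ((N / d : ℕ) : ℝ) := by
  have hq : 1 ≤ N / d := (Nat.one_le_div_iff hd).2 hN
  have h1 : N ≤ 2 * d * (N / d) := by
    have h2 : N < d * (N / d) + d := by
      have := Nat.div_add_mod N d
      have := Nat.mod_lt N hd
      omega
    have h3 : d ≤ d * (N / d) := Nat.le_mul_of_pos_right d hq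
    have h4 : 2 * d * (N / d) = d * (N / d) + d * (N / d) := by ring
    omega
  have h1' : (N : ℝ) ≤ 2 * d * ((N / d : ℕ) : ℝ) := by exact_mod_cast h1
  have hN1 : (1 : ℝ) ≤ N := by exact_mod_cast hd.trans hN
  have hd1 : (1 : ℝ) ≤ d := by exact_mod_cast hd
  have hq1 : (1 : ℝ) ≤ ((N / d : ℕ) : ℝ) := by exact_mod_cast hq
  have e1 := L_mono hN1 h1'
  have e2 := L_mul (x := 2 * (d : ℝ)) (y := ((N / d : ℕ) : ℝ)) (by linarith) hq1
  have e3 := L_mul (x := 2) (y := (d : ℝ)) (by norm_num) hd1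
  have e4 : L 2 * L d ≤ 2 * L d := mul_le_mul_of_nonneg_right L_two (L_pos hd1).le
  have e5 := mul_le_mul_of_nonneg_right (e3.trans e4) (L_pos hq1).le
  exact e1.trans (e2.trans e5)

theorem mo_abs (n : ℕ) : |mo n| ≤ 1 := by
  rw [mo_apply]
  split_ifs
  · have := ArithmeticFunction.abs_moebius_le_one (n := n)
    exact_mod_cast this
  · simp

theorem mo_bd (A : ℕ) : Bd mo A := by
  obtain ⟨N₀, hN₀⟩ := Pool.Agent.H705R2.MSW.swMu A 1
  have hev : ∀ᶠ N : ℕ in Filter.atTop, (2 : ℝ) ≤ Real.log N :=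
    (Real.tendsto_log_atTop.comp tendsto_natCast_atTop_atTop).eventually_ge_atTop 2
  obtain ⟨N₂, hN₂⟩ := Filter.eventually_atTop.1 hev
  set N₁ := max (max N₀ N₂) 1 with hN₁
  have hN1one : (1 : ℝ) ≤ (N₁ : ℝ) := by exact_mod_cast le_max_right _ _
  refine ⟨2 ^ (A + 1) + L N₁ ^ A, by have := (L_pos hN1one).le; positivity, fun N hN => ?_⟩
  have hN1 : (1 : ℝ) ≤ (N : ℝ) := by exact_mod_cast hN
  have hLN := L_pos hN1
  have hLN₁ := L_pos hN1one
  rcases le_or_gt N₁ N with h | h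
  · have h1 : ∑ n ∈ Ioc 0 N, mo n = ∑ n ∈ (range (N + 1)).filter (fun n => n % 2 = 1),
        ((ArithmeticFunction.moebius n : ℤ) : ℝ) := by
      rw [sum_filter]
      rw [← Finset.sum_subset (s₁ := Ioc 0 N) (s₂ := range (N + 1))]
      · refine sum_congr rfl fun n _ => ?_
        rw [mo_apply]
        simp only [Nat.odd_iff]
      · intro n hn
        rw [mem_Ioc] at hn
        rw [mem_range]; omega
      · intro n hn hn2
        rw [mem_range] at hn
        rw [mem_Ioc] at hn2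
        have : n = 0 := by omega
        subst this
        simp
    have h2 := hN₀ (N + 1) (by have := le_max_left (max N₀ N₂) 1; have := le_max_left N₀ N₂; omega)
      2 1 (by norm_num) (by
        have := hN₂ (N + 1) (by
          have := le_max_left (max N₀ N₂) 1; have := le_max_right N₀ N₂; omega)
        simpa using this)
    rw [← h1] at h2
    have h3 := hN₂ N (by have := le_max_left (max N₀ N₂) 1; have := le_max_right N₀ N₂; omega)
    have h4 : L N ≤ 2 * Real.log ((N + 1 : ℕ) : ℝ) := by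
      have : Real.log (N : ℝ) ≤ Real.log ((N + 1 : ℕ) : ℝ) :=
        Real.log_le_log (by linarith) (by push_cast; linarith)
      unfold L; linarith
    have h5 : L N ^ A ≤ 2 ^ A * Real.log ((N + 1 : ℕ) : ℝ) ^ A := by
      rw [← mul_pow]
      exact pow_le_pow_left₀ hLN.le h4 A
    have hl : 0 < Real.log ((N + 1 : ℕ) : ℝ) ^ A := by
      have : 0 < Real.log ((N + 1 : ℕ) : ℝ) := by
        have h6 := hLN
        linarith
      positivity
    refine h2.trans ?_
    rw [div_le_div_iff₀ hl (by positivity)]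
    have h6 : (((N + 1 : ℕ) : ℝ)) ≤ 2 * N := by push_cast; linarith
    calc (((N + 1 : ℕ) : ℝ)) * L N ^ A
        ≤ (2 * N) * (2 ^ A * Real.log ((N + 1 : ℕ) : ℝ) ^ A) :=
          mul_le_mul h6 h5 (by positivity) (by positivity)
      _ = 2 ^ (A + 1) * N * Real.log ((N + 1 : ℕ) : ℝ) ^ A := by ring
      _ ≤ _ := by
          refine mul_le_mul_of_nonneg_right ?_ hl.le
          refine mul_le_mul_of_nonneg_right ?_ (by positivity)
          have : 0 ≤ L N₁ ^ A := by positivity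
          linarith
  · have h1 : |∑ n ∈ Ioc 0 N, mo n| ≤ N := by
      refine (abs_sum_le_sum_abs _ _).trans ?_
      refine (sum_le_sum fun n _ => mo_abs n).trans ?_
      simp
    refine h1.trans ?_
    rw [le_div_iff₀ (by positivity)]
    have h2 : L N ^ A ≤ L N₁ ^ A :=
      pow_le_pow_left₀ hLN.le (L_mono hN1 (by exact_mod_cast h.le)) A
    have h3 : (0 : ℝ) ≤ 2 ^ (A + 1) := by positivity
    calc (N : ℝ) * L N ^ A ≤ N * L N₁ ^ A := mul_le_mul_of_nonneg_left h2 (by positivity)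
      _ ≤ (2 ^ (A + 1) + L N₁ ^ A) * N := by nlinarith

theorem hyp_one {C : ℝ} {A N r : ℕ} (hC : 0 ≤ C) (hr : 1 ≤ r) (h1 : r * r ≤ N)
    (h2 : N < (r + 1) * (r + 1))
    (h : ∀ N : ℕ, 1 ≤ N → |∑ n ∈ Ioc 0 N, mo n| ≤ C * N / L N ^ (A + 1)) :
    |∑ a ∈ Ioc 0 r, mo a * ∑ b ∈ Ioc 0 (N / a), mo b| ≤ C * 4 ^ (A + 1) * N / L N ^ A := by
  have hr1 : (1 : ℝ) ≤ r := by exact_mod_cast hr
  have hN : 1 ≤ N := by nlinarith
  have hN1 : (1 : ℝ) ≤ (N : ℝ) := by exact_mod_cast hN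
  have hLN := L_pos hN1
  have hrN : r ≤ N := by nlinarith
  have hlog2 := Real.log_two_lt_d9
  have hLr : L N ≤ 4 * L r := by
    have h3 : (N : ℝ) ≤ (2 * r) * (2 * r) := by
      have h4 : N ≤ (2 * r) * (2 * r) := by nlinarith
      exact_mod_cast h4
    have h5 := Real.log_le_log (by linarith) h3
    rw [Real.log_mul (by positivity) (by positivity), Real.log_mul (by norm_num) (by positivity)]
      at h5
    have h6 := Real.log_nonneg hr1
    unfold L
    linarith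
  refine (abs_sum_le_sum_abs _ _).trans ?_
  have h3 : ∀ a ∈ Ioc 0 r, |mo a * ∑ b ∈ Ioc 0 (N / a), mo b| ≤
      C * 4 ^ (A + 1) * N / L N ^ (A + 1) * ((a : ℝ))⁻¹ := by
    intro a ha
    rw [mem_Ioc] at ha
    have ha0 : (0 : ℝ) < a := by exact_mod_cast ha.1
    have hq : r ≤ N / a := by
      rw [Nat.le_div_iff_mul_le ha.1]
      exact (Nat.mul_le_mul_left r ha.2).trans h1
    have hq1 : 1 ≤ N / a := hr.trans hq
    have hqr : (1 : ℝ) ≤ ((N / a : ℕ) : ℝ) := by exact_mod_cast hq1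
    have h4 := h (N / a) hq1
    have h5 : L N ≤ 4 * L ((N / a : ℕ) : ℝ) := by
      have := L_mono hr1 (show (r : ℝ) ≤ ((N / a : ℕ) : ℝ) by exact_mod_cast hq)
      linarith
    have h6 : L N ^ (A + 1) ≤ 4 ^ (A + 1) * L ((N / a : ℕ) : ℝ) ^ (A + 1) := by
      rw [← mul_pow]
      exact pow_le_pow_left₀ hLN.le h5 _
    have hLq := L_pos hqr
    rw [abs_mul]
    calc |mo a| * |∑ b ∈ Ioc 0 (N / a), mo b|
        ≤ 1 * (C * ((N / a : ℕ) : ℝ) / L ((N / a : ℕ) : ℝ) ^ (A + 1)) :=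
          mul_le_mul (mo_abs a) h4 (abs_nonneg _) zero_le_one
      _ ≤ C * (N / a) * (4 ^ (A + 1) / L N ^ (A + 1)) := by
          rw [one_mul, mul_div_assoc, mul_assoc]
          refine mul_le_mul_of_nonneg_left ?_ hC
          rw [div_eq_mul_inv]
          refine mul_le_mul Nat.cast_div_le ?_ (by positivity) (by positivity)
          rw [inv_eq_one_div, div_le_div_iff₀ (by positivity) (by positivity)]
          linarith
      _ = _ := by field_simp
  refine (sum_le_sum h3).trans ?_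
  rw [← mul_sum]
  have h4 : ∑ a ∈ Ioc 0 r, ((a : ℝ))⁻¹ ≤ L N := by
    have h5 := harmonic_le_one_add_log r
    have h6 : ((harmonic r : ℚ) : ℝ) = ∑ a ∈ Ioc 0 r, ((a : ℝ))⁻¹ := by
      rw [harmonic_eq_sum_Icc]
      push_cast
      rfl
    rw [h6] at h5
    exact h5.trans (L_mono hr1 (by exact_mod_cast hrN))
  calc C * 4 ^ (A + 1) * N / L N ^ (A + 1) * ∑ a ∈ Ioc 0 r, ((a : ℝ))⁻¹
      ≤ C * 4 ^ (A + 1) * N / L N ^ (A + 1) * L N :=
        mul_le_mul_of_nonneg_left h4 (by positivity)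
    _ = _ := by
        rw [pow_succ (L N)]
        field_simp

theorem momo_bd (A : ℕ) : Bd (mo * mo) A := by
  obtain ⟨C, hC, h⟩ := mo_bd (A + 1)
  refine ⟨2 * (C * 4 ^ (A + 1)) + 4 ^ A * (C * C), by positivity, fun N hN => ?_⟩
  have hN1 : (1 : ℝ) ≤ (N : ℝ) := by exact_mod_cast hN
  have hLN := L_pos hN1
  set r := Nat.sqrt N with hr
  have h1 : r * r ≤ N := Nat.sqrt_le N
  have h2 : N < (r + 1) * (r + 1) := Nat.lt_succ_sqrt N
  have hr1 : 1 ≤ r := Nat.sqrt_pos.2 hN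
  rw [Pool.Agent.H383.OM.Hyp.hyperbola mo mo N r r h1 h2]
  have h3 := hyp_one hC hr1 h1 h2 h
  have hrr : (1 : ℝ) ≤ r := by exact_mod_cast hr1
  have h4 : |(∑ a ∈ Ioc 0 r, mo a) * ∑ b ∈ Ioc 0 r, mo b| ≤ 4 ^ A * (C * C) * N / L N ^ A := by
    have h5 := h r hr1
    have h6 : |∑ b ∈ Ioc 0 r, mo b| ≤ C * r / L r ^ (A + 1) := h5
    have h7 : L N ≤ L r * L r * 4 := by
      have h8 : (N : ℝ) ≤ (2 * r) * (2 * r) := by
        have h9 : N ≤ (2 * r) * (2 * r) := by nlinarith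
        exact_mod_cast h9
      have h9 := L_mono hN1 h8
      have h10 := L_mul (x := 2 * (r : ℝ)) (y := 2 * (r : ℝ)) (by linarith) (by linarith)
      have h11 := L_mul (x := 2) (y := (r : ℝ)) (by norm_num) hrr
      have h12 : L 2 * L r ≤ 2 * L r := mul_le_mul_of_nonneg_right L_two (L_pos hrr).le
      have h13 : L (2 * r) * L (2 * r) ≤ (2 * L r) * (2 * L r) :=
        mul_le_mul (h11.trans h12) (h11.trans h12)
          (L_pos (show (1 : ℝ) ≤ 2 * r by linarith)).le (by have := (L_pos hrr).le; positivity)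
      linarith
    have hLr := L_pos hrr
    have h8 : L N ^ A ≤ 4 ^ A * (L r ^ A * L r ^ A) := by
      rw [← mul_pow, ← mul_pow]
      refine pow_le_pow_left₀ hLN.le ?_ A
      linarith
    rw [abs_mul]
    have h9 : |∑ b ∈ Ioc 0 r, mo b| ≤ C * r / L r ^ A := by
      refine h6.trans ?_
      refine div_le_div_of_nonneg_left (by positivity) (by positivity) ?_
      exact pow_le_pow_right₀ (L_one_le hrr) (Nat.le_succ A)
    calc |∑ a ∈ Ioc 0 r, mo a| * |∑ b ∈ Ioc 0 r, mo b|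
        ≤ (C * r / L r ^ A) * (C * r / L r ^ A) :=
          mul_le_mul h9 h9 (abs_nonneg _) (by positivity)
      _ = C * C * (r * r) / (L r ^ A * L r ^ A) := by field_simp
      _ ≤ 4 ^ A * (C * C) * N / L N ^ A := by
          rw [div_le_div_iff₀ (by positivity) (by positivity)]
          have h10 : (r : ℝ) * r ≤ N := by exact_mod_cast h1
          calc C * C * (r * r) * L N ^ A
              ≤ C * C * N * (4 ^ A * (L r ^ A * L r ^ A)) := by
                refine mul_le_mul (mul_le_mul_of_nonneg_left h10 (by positivity)) h8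
                  (by positivity) (by positivity)
            _ = _ := by ring
  have h5 : 4 ^ A * (C * C) * N / L N ^ A +
      (C * 4 ^ (A + 1) * N / L N ^ A + C * 4 ^ (A + 1) * N / L N ^ A) =
      (2 * (C * 4 ^ (A + 1)) + 4 ^ A * (C * C)) * N / L N ^ A := by ring
  rw [← h5]
  have h6 := abs_sub (∑ a ∈ Ioc 0 r, mo a * ∑ b ∈ Ioc 0 (N / a), mo b +
    ∑ b ∈ Ioc 0 r, mo b * ∑ a ∈ Ioc 0 (N / b), mo a)
    ((∑ a ∈ Ioc 0 r, mo a) * ∑ b ∈ Ioc 0 r, mo b)
  have h7 := abs_add_le (∑ a ∈ Ioc 0 r, mo a * ∑ b ∈ Ioc 0 (N / a), mo b)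
    (∑ b ∈ Ioc 0 r, mo b * ∑ a ∈ Ioc 0 (N / b), mo a)
  linarith

theorem L_pow_le (A : ℕ) {d : ℝ} (hd : 1 ≤ d) :
    L d ^ A ≤ (10 * (A + 1)) ^ A * d ^ (1 / 10 : ℝ) := by
  have hA : (0 : ℝ) < 10 * (A + 1) := by positivity
  have hl := Real.log_nonneg hd
  have h1 : L d ≤ 10 * (A + 1) * Real.exp (Real.log d / (10 * (A + 1))) := by
    have h2 := Real.add_one_le_exp (Real.log d / (10 * ((A : ℝ) + 1)))
    have h3 := mul_le_mul_of_nonneg_left h2 hA.le
    have h4 : 10 * ((A : ℝ) + 1) * (Real.log d / (10 * (A + 1)) + 1) =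
        Real.log d + 10 * (A + 1) := by field_simp
    have h5 : (1 : ℝ) ≤ 10 * (A + 1) := by
      have : (0 : ℝ) ≤ A := Nat.cast_nonneg A
      linarith
    unfold L
    linarith
  refine (pow_le_pow_left₀ (L_pos hd).le h1 A).trans ?_
  rw [mul_pow]
  refine mul_le_mul_of_nonneg_left ?_ (by positivity)
  rw [← Real.exp_nat_mul, Real.rpow_def_of_pos (by linarith), Real.exp_le_exp]
  have h2 : (A : ℝ) * (Real.log d / (10 * (A + 1))) = Real.log d * (1 / 10) * (A / (A + 1)) := by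
    field_simp
  rw [h2]
  have h3 : (A : ℝ) / (A + 1) ≤ 1 := by
    rw [div_le_one (by positivity)]
    linarith
  exact mul_le_of_le_one_right (by positivity) h3

theorem fo_bd (A : ℕ) : Bd fo A := by
  obtain ⟨C, hC, h⟩ := momo_bd A
  have hT : 0 ≤ ∑' n, FF n := tsum_nonneg FF_nonneg
  refine ⟨C * 2 ^ A * ((10 * (A + 1)) ^ A * ∑' n, FF n), by positivity, fun N hN => ?_⟩
  have hN1 : (1 : ℝ) ≤ (N : ℝ) := by exact_mod_cast hN
  have hLN := L_pos hN1
  rw [fo_eq, Pool.Agent.H383.OM.Hyp.hyperbola hh (mo * mo) N N 0 (by simp) (by simp)]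
  have e0 : Ioc 0 0 = (∅ : Finset ℕ) := by simp
  rw [e0, sum_empty, sum_empty, mul_zero, sub_zero, add_zero]
  refine (abs_sum_le_sum_abs _ _).trans ?_
  have h3 : ∀ d ∈ Ioc 0 N, |hh d * ∑ b ∈ Ioc 0 (N / d), (mo * mo) b| ≤
      C * 2 ^ A * (10 * (A + 1)) ^ A * N / L N ^ A * FF d := by
    intro d hd
    rw [mem_Ioc] at hd
    have hd0 : (0 : ℝ) < d := by exact_mod_cast hd.1
    have hd1 : (1 : ℝ) ≤ d := by exact_mod_cast hd.1
    have hq1 : 1 ≤ N / d := (Nat.one_le_div_iff hd.1).2 hd.2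
    have hqr : (1 : ℝ) ≤ ((N / d : ℕ) : ℝ) := by exact_mod_cast hq1
    have hLq := L_pos hqr
    have hLd := L_pos hd1
    have h4 := h (N / d) hq1
    have h5 := L_div hd.1 hd.2
    have h6 : L N ^ A ≤ 2 ^ A * L d ^ A * L ((N / d : ℕ) : ℝ) ^ A := by
      rw [← mul_pow, ← mul_pow]
      exact pow_le_pow_left₀ hLN.le h5 _
    have h7 := L_pow_le A hd1
    have h8 : FF d = |hh d| * ((d : ℝ) ^ (1 / 10 : ℝ) / d) := by
      unfold FF
      congr 1
      rw [← Real.rpow_sub_one hd0.ne']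
      norm_num
    rw [abs_mul, h8]
    calc |hh d| * |∑ b ∈ Ioc 0 (N / d), (mo * mo) b|
        ≤ |hh d| * (C * ((N / d : ℕ) : ℝ) / L ((N / d : ℕ) : ℝ) ^ A) :=
          mul_le_mul_of_nonneg_left h4 (abs_nonneg _)
      _ ≤ |hh d| * (C * ((N : ℝ) / d) * (2 ^ A * L d ^ A / L N ^ A)) := by
          refine mul_le_mul_of_nonneg_left ?_ (abs_nonneg _)
          rw [div_eq_mul_inv]
          refine mul_le_mul (mul_le_mul_of_nonneg_left Nat.cast_div_le hC) ?_
            (by positivity) (by positivity)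
          rw [inv_eq_one_div, div_le_div_iff₀ (by positivity) (by positivity)]
          linarith
      _ ≤ |hh d| * (C * ((N : ℝ) / d) * (2 ^ A * ((10 * (A + 1)) ^ A *
            (d : ℝ) ^ (1 / 10 : ℝ)) / L N ^ A)) := by
          refine mul_le_mul_of_nonneg_left ?_ (abs_nonneg _)
          refine mul_le_mul_of_nonneg_left ?_ (by positivity)
          refine div_le_div_of_nonneg_right ?_ (by positivity)
          exact mul_le_mul_of_nonneg_left h7 (by positivity)
      _ = _ := by ring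
  refine (sum_le_sum h3).trans ?_
  rw [← mul_sum]
  have h4 : ∑ d ∈ Ioc 0 N, FF d ≤ ∑' n, FF n :=
    FF_summable.sum_le_tsum _ fun n _ => FF_nonneg n
  calc C * 2 ^ A * (10 * (A + 1)) ^ A * N / L N ^ A * ∑ d ∈ Ioc 0 N, FF d
      ≤ C * 2 ^ A * (10 * (A + 1)) ^ A * N / L N ^ A * ∑' n, FF n :=
        mul_le_mul_of_nonneg_left h4 (by positivity)
    _ = _ := by ring

end Pool.Agent.H701M.A2
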