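import Pool.Agent.H701M.A2

/-!
The structure of the sums of `(-2)^Ω(n)`: they are `x` times a function of `x` that changes its
sign when `x` is doubled, up to a small error.
-/

set_option autoImplicit false

open Finset ArithmeticFunction Filter

namespace Pool.Agent.H701M.A3

open Pool.Agent.H701M Pool.Agent.H701M.A2

/-- the sum of (-2)^Ω(n) over `n ≤ x` -/
noncomputable def S (x : ℝ) : ℝ :=
  ∑ n ∈ Finset.Icc 1 ⌊x⌋₊, (-2 : ℝ) ^ (ArithmeticFunction.cardFactors n)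

/-- the sum of (-2)^Ω(n) over the odd `n ≤ x` -/
noncomputable def M (x : ℝ) : ℝ :=
  ∑ n ∈ (Finset.Icc 1 ⌊x⌋₊).filter (fun n => Odd n),
    (-2 : ℝ) ^ (ArithmeticFunction.cardFactors n)

/-- the terms of the series -/
noncomputable def cc (t : ℝ) (j : ℕ) : ℝ := (-1) ^ j * (M (2 ^ j * t) / (2 ^ j * t))

/-- the limit function -/
noncomputable def H (t : ℝ) : ℝ := ∑' j : ℕ, cc t j

theorem M_eq (x : ℝ) : M x = ∑ n ∈ Ioc 0 ⌊x⌋₊, fo n := by
  unfold M
  rw [sum_filter]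
  refine sum_congr ?_ fun n _ => ?_
  · ext n
    rw [mem_Icc, mem_Ioc]
    omega
  · rw [fo_apply]
    rfl

theorem ff_two (m : ℕ) (hm : m ≠ 0) : ff (2 * m) = -2 * ff m := by
  rw [ff_mul two_ne_zero hm]
  congr 1
  have := ff_prime_pow Nat.prime_two 1
  simpa using this

theorem S_rec (x : ℝ) : S x + 2 * S (x / 2) = M x := by
  have e : ⌊x / 2⌋₊ = ⌊x⌋₊ / 2 := Nat.floor_div_ofNat x 2
  unfold S M
  rw [e]
  set N := ⌊x⌋₊ with hN
  have h1 := sum_filter_add_sum_filter_not (Icc 1 N) (fun n => Odd n)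
    (fun n => (-2 : ℝ) ^ (ArithmeticFunction.cardFactors n))
  have h2 : ∑ n ∈ (Icc 1 N).filter (fun n => ¬ Odd n),
      (-2 : ℝ) ^ (ArithmeticFunction.cardFactors n) =
      ∑ m ∈ Icc 1 (N / 2), (-2) * (-2 : ℝ) ^ (ArithmeticFunction.cardFactors m) := by
    refine sum_nbij' (fun n => n / 2) (fun m => 2 * m) ?_ ?_ ?_ ?_ ?_
    · intro n hn
      rw [mem_filter, mem_Icc, Nat.not_odd_iff_even] at hn
      obtain ⟨k, hk⟩ := hn.2
      rw [mem_Icc]
      omega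
    · intro m hm
      rw [mem_Icc] at hm
      rw [mem_filter, mem_Icc, Nat.not_odd_iff_even]
      refine ⟨by omega, even_two_mul m⟩
    · intro n hn
      rw [mem_filter, mem_Icc, Nat.not_odd_iff_even] at hn
      obtain ⟨k, hk⟩ := hn.2
      show 2 * (n / 2) = n
      omega
    · intro m hm
      show 2 * m / 2 = m
      omega
    · intro n hn
      rw [mem_filter, mem_Icc, Nat.not_odd_iff_even] at hn
      obtain ⟨k, hk⟩ := hn.2
      have hk2 : n = 2 * k := by omega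
      have hk0 : k ≠ 0 := by omega
      have := ff_two k hk0
      subst hk2
      have h3 : 2 * k / 2 = k := by omega
      rw [h3]
      exact this
  rw [h2, ← mul_sum] at h1
  linarith

theorem S_small {x : ℝ} (h : x < 1) : S x = 0 := by
  unfold S
  have : ⌊x⌋₊ = 0 := Nat.floor_eq_zero.2 h
  rw [this]
  simp

theorem M_bd (A : ℕ) : ∃ C : ℝ, 0 ≤ C ∧ ∀ x : ℝ, 1 ≤ x → |M x / x| ≤ C / L x ^ A := by
  obtain ⟨C, hC, h⟩ := fo_bd A
  refine ⟨C * 2 ^ A, by positivity, fun x hx => ?_⟩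
  have hx0 : 0 < x := by linarith
  have hf : 1 ≤ ⌊x⌋₊ := Nat.floor_pos.2 hx
  have hf1 : (1 : ℝ) ≤ (⌊x⌋₊ : ℝ) := by exact_mod_cast hf
  have hle := Nat.floor_le hx0.le
  have hlt := Nat.lt_floor_add_one x
  have hL := L_pos hx
  have hLf := L_pos hf1
  have h1 := h ⌊x⌋₊ hf
  rw [← M_eq] at h1
  have h2 : L x ≤ 2 * L (⌊x⌋₊ : ℝ) := by
    have h3 := L_mono hx (show x ≤ 2 * (⌊x⌋₊ : ℝ) by linarith)
    have h4 := L_mul (x := 2) (y := (⌊x⌋₊ : ℝ)) (by norm_num) hf1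
    have h5 := mul_le_mul_of_nonneg_right L_two hLf.le
    linarith
  have h3 : L x ^ A ≤ 2 ^ A * L (⌊x⌋₊ : ℝ) ^ A := by
    rw [← mul_pow]
    exact pow_le_pow_left₀ hL.le h2 A
  rw [abs_div, abs_of_pos hx0, div_le_iff₀ hx0]
  calc |M x| ≤ C * (⌊x⌋₊ : ℝ) / L (⌊x⌋₊ : ℝ) ^ A := h1
    _ ≤ C * x * (2 ^ A / L x ^ A) := by
        rw [div_eq_mul_inv]
        refine mul_le_mul (mul_le_mul_of_nonneg_left hle hC) ?_ (by positivity) (by positivity)
        rw [inv_eq_one_div, div_le_div_iff₀ (by positivity) (by positivity)]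
        linarith
    _ = _ := by ring

theorem L_two_pow (j : ℕ) {t : ℝ} (ht : 1 ≤ t) : ((j : ℝ) + 1) / 2 ≤ L (2 ^ j * t) := by
  have h1 := Real.log_two_gt_d9
  have h2 := Real.log_nonneg ht
  unfold L
  rw [Real.log_mul (by positivity) (by linarith), Real.log_pow]
  have h3 : (0 : ℝ) ≤ j := Nat.cast_nonneg j
  nlinarith

theorem cc_bd (A : ℕ) : ∃ C : ℝ, 0 ≤ C ∧ ∀ t : ℝ, 1 ≤ t → ∀ j : ℕ,
    |cc t j| ≤ C / ((j : ℝ) + 1) ^ A := by
  obtain ⟨C, hC, h⟩ := M_bd A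
  refine ⟨C * 2 ^ A, by positivity, fun t ht j => ?_⟩
  have h1 : (1 : ℝ) ≤ 2 ^ j * t := by
    have : (1 : ℝ) ≤ 2 ^ j := one_le_pow₀ (by norm_num)
    nlinarith
  have h2 := h _ h1
  unfold cc
  rw [abs_mul, abs_pow, abs_neg, abs_one, one_pow, one_mul]
  refine h2.trans ?_
  have h3 : (((j : ℝ) + 1) / 2) ^ A ≤ L (2 ^ j * t) ^ A :=
    pow_le_pow_left₀ (by positivity) (L_two_pow j ht) A
  calc C / L (2 ^ j * t) ^ A ≤ C / (((j : ℝ) + 1) / 2) ^ A :=
        div_le_div_of_nonneg_left hC (by positivity) h3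
    _ = _ := by
        rw [div_pow]
        field_simp

theorem sum_sq : Summable (fun j : ℕ => 1 / ((j : ℝ) + 1) ^ 2) := by
  have h := (summable_nat_add_iff 1).2 (Real.summable_one_div_nat_pow.2 (by norm_num : 1 < 2))
  refine h.congr fun j => ?_
  push_cast
  rfl

theorem cc_summable {t : ℝ} (ht : 1 ≤ t) : Summable (fun j => |cc t j|) := by
  obtain ⟨C, hC, h⟩ := cc_bd 2
  refine Summable.of_nonneg_of_le (fun j => abs_nonneg _) (fun j => h t ht j) ?_
  refine (sum_sq.mul_left C).congr fun j => ?_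
  ring

theorem S_formula {t : ℝ} (ht : 1 ≤ t) (ht2 : t < 2) (k : ℕ) :
    S (2 ^ k * t) / (2 ^ k * t) = (-1) ^ k * ∑ j ∈ range (k + 1), cc t j := by
  have ht0 : 0 < t := by linarith
  induction k with
  | zero =>
    have h1 := S_rec t
    rw [S_small (show t / 2 < 1 by linarith)] at h1
    simp only [pow_zero, one_mul, zero_add, range_one, sum_singleton, cc]
    rw [← h1]
    simp
  | succ k ih =>
    have h1 := S_rec (2 ^ (k + 1) * t)
    have h2 : 2 ^ (k + 1) * t / 2 = 2 ^ k * t := by rw [pow_succ]; ring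
    rw [h2] at h1
    rw [sum_range_succ, mul_add]
    have h3 : (-1 : ℝ) ^ (k + 1) * cc t (k + 1) = M (2 ^ (k + 1) * t) / (2 ^ (k + 1) * t) := by
      unfold cc
      rw [← mul_assoc, ← mul_pow]
      norm_num
    have h4 : (-1 : ℝ) ^ (k + 1) * ∑ j ∈ range (k + 1), cc t j =
        -(S (2 ^ k * t) / (2 ^ k * t)) := by
      rw [ih, pow_succ]
      ring
    rw [h3, h4, ← h1]
    have hp : (0 : ℝ) < 2 ^ k := by positivity
    rw [pow_succ]
    field_simp
    ring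

theorem tail_gen (f : ℕ → ℝ) (hf : Summable (fun j => |f j|)) (m : ℕ) (D : ℝ)
    (h : ∀ j : ℕ, |f (j + m)| ≤ D * (1 / ((j : ℝ) + 1) ^ 2)) :
    |∑ j ∈ range m, f j - ∑' j, f j| ≤ D * ∑' j : ℕ, 1 / ((j : ℝ) + 1) ^ 2 := by
  have hs2 : Summable f := hf.of_abs
  have h1 := hs2.sum_add_tsum_nat_add m
  rw [← h1, sub_add_cancel_left, abs_neg]
  have hs3 : Summable (fun j : ℕ => ‖f (j + m)‖) := by
    have h5 := (summable_nat_add_iff (f := fun j => |f j|) m).2 hf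
    exact h5
  have h2 := norm_tsum_le_tsum_norm hs3
  rw [Real.norm_eq_abs] at h2
  refine h2.trans ?_
  rw [← tsum_mul_left]
  exact Summable.tsum_le_tsum h hs3 (sum_sq.mul_left D)

theorem tail_term {C : ℝ} (hC : 0 ≤ C) (A k j : ℕ) :
    C / (((j + (k + 1) : ℕ) : ℝ) + 1) ^ (A + 2) ≤
      C / ((k : ℝ) + 1) ^ A * (1 / ((j : ℝ) + 1) ^ 2) := by
  rw [div_mul_div_comm, mul_one]
  refine div_le_div_of_nonneg_left hC (by positivity) ?_
  push_cast
  rw [pow_add]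
  have hj : (0 : ℝ) ≤ j := Nat.cast_nonneg j
  have hk : (0 : ℝ) ≤ k := Nat.cast_nonneg k
  refine mul_le_mul ?_ ?_ (by positivity) (by positivity)
  · exact pow_le_pow_left₀ (by positivity) (by linarith) A
  · exact pow_le_pow_left₀ (by positivity) (by linarith) 2

theorem main_est (A : ℕ) : ∃ C : ℝ, 0 ≤ C ∧ ∀ k : ℕ, ∀ t : ℝ, 1 ≤ t → t < 2 →
    |S (2 ^ k * t) / (2 ^ k * t) - (-1) ^ k * H t| ≤ C / ((k : ℝ) + 1) ^ A := by
  obtain ⟨C, hC, h⟩ := cc_bd (A + 2)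
  obtain ⟨T, hTT⟩ : ∃ T : ℝ, T = ∑' j : ℕ, 1 / ((j : ℝ) + 1) ^ 2 := ⟨_, rfl⟩
  have hT : 0 ≤ T := by
    rw [hTT]
    exact tsum_nonneg fun j => by positivity
  refine ⟨C * T, mul_nonneg hC hT, fun k t ht ht2 => ?_⟩
  have h1 := tail_gen (cc t) (cc_summable ht) (k + 1) (C / ((k : ℝ) + 1) ^ A) fun j =>
    (h t ht (j + (k + 1))).trans (tail_term hC A k j)
  rw [← hTT] at h1
  rw [S_formula ht ht2 k, ← mul_sub, abs_mul, abs_pow, abs_neg, abs_one, one_pow, one_mul]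
  unfold H
  refine h1.trans (le_of_eq ?_)
  ring

theorem H_bdd : ∃ C : ℝ, ∀ t : ℝ, 1 ≤ t → t < 2 → |H t| ≤ C := by
  obtain ⟨C, hC, h⟩ := cc_bd 2
  refine ⟨C * ∑' j : ℕ, 1 / ((j : ℝ) + 1) ^ 2, fun t ht _ => ?_⟩
  have hs := cc_summable ht
  have h2 : |∑' j : ℕ, cc t j| ≤ ∑' j : ℕ, |cc t j| := by
    have := norm_tsum_le_tsum_norm (f := fun j : ℕ => cc t j) hs
    simpa [Real.norm_eq_abs] using this
  refine h2.trans ?_
  rw [← tsum_mul_left]
  refine Summable.tsum_le_tsum (fun j => ?_) hs (sum_sq.mul_left C)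
  have := h t ht j
  rw [mul_one_div]
  exact this

/-- the supremum of the limit function -/
noncomputable def BB : ℝ := sSup ((fun t => |H t|) '' Set.Ico 1 2)

theorem BB_bdd : BddAbove ((fun t => |H t|) '' Set.Ico (1 : ℝ) 2) := by
  obtain ⟨C, hC⟩ := H_bdd
  refine ⟨C, ?_⟩
  rintro _ ⟨t, ht, rfl⟩
  exact hC t ht.1 ht.2

theorem ev_upper {b : ℝ} (hb : BB < b) : ∀ᶠ x : ℝ in atTop, |S x / x| ≤ b := by
  obtain ⟨C, hC, h⟩ := main_est 1
  have hlim : Tendsto (fun k : ℕ => C / ((k : ℝ) + 1)) atTop (nhds 0) :=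
    tendsto_const_nhds.div_atTop (tendsto_natCast_atTop_atTop.atTop_add tendsto_const_nhds)
  obtain ⟨K, hK⟩ := eventually_atTop.1 (hlim.eventually (gt_mem_nhds (sub_pos.2 hb)))
  refine eventually_atTop.2 ⟨2 ^ K, fun x hx => ?_⟩
  have hx1 : 1 ≤ x := (one_le_pow₀ (by norm_num)).trans hx
  obtain ⟨k, hk1, hk2⟩ := exists_nat_pow_near hx1 (by norm_num : (1 : ℝ) < 2)
  have hkK : K ≤ k := by
    have h1 : (2 : ℝ) ^ K < 2 ^ (k + 1) := hx.trans_lt hk2
    have := (pow_lt_pow_iff_right₀ (by norm_num : (1 : ℝ) < 2)).1 h1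
    omega
  have hp : (0 : ℝ) < 2 ^ k := by positivity
  set t := x / 2 ^ k with ht
  have hxt : 2 ^ k * t = x := by rw [ht]; field_simp
  have ht1 : 1 ≤ t := by rw [ht, le_div_iff₀ hp]; linarith
  have ht2 : t < 2 := by rw [ht, div_lt_iff₀ hp]; rw [pow_succ] at hk2; linarith
  have h1 := h k t ht1 ht2
  rw [hxt, pow_one] at h1
  have h2 := hK k hkK
  have h3 : |H t| ≤ BB := le_csSup BB_bdd ⟨t, ⟨ht1, ht2⟩, rfl⟩
  have h4 : |(-1) ^ k * H t| = |H t| := by
    rw [abs_mul, abs_pow, abs_neg, abs_one, one_pow, one_mul]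
  have h5 : |S x / x| ≤ |S x / x - (-1) ^ k * H t| + |(-1) ^ k * H t| := by
    have := abs_add_le (S x / x - (-1) ^ k * H t) ((-1) ^ k * H t)
    simpa using this
  rw [h4] at h5
  linarith

theorem fr_lower {b : ℝ} (hb : b < BB) (σ : ℝ) (hσ : σ = 1 ∨ σ = -1) :
    ∃ᶠ x : ℝ in atTop, b ≤ σ * (S x / x) := by
  obtain ⟨_, ⟨t, ⟨ht1, ht2⟩, rfl⟩, hbt⟩ := exists_lt_of_lt_csSup
    (⟨_, ⟨1, ⟨le_rfl, by norm_num⟩, rfl⟩⟩ : ((fun t => |H t|) '' Set.Ico (1 : ℝ) 2).Nonempty) hb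
  simp only at hbt
  obtain ⟨C, hC, h⟩ := main_est 1
  have hlim : Tendsto (fun k : ℕ => C / ((k : ℝ) + 1)) atTop (nhds 0) :=
    tendsto_const_nhds.div_atTop (tendsto_natCast_atTop_atTop.atTop_add tendsto_const_nhds)
  obtain ⟨K, hK⟩ := eventually_atTop.1 (hlim.eventually (gt_mem_nhds (sub_pos.2 hbt)))
  -- the parity
  obtain ⟨e, he⟩ : ∃ e : ℕ, σ * ((-1) ^ e * H t) = |H t| := by
    rcases hσ with rfl | rfl
    · rcases abs_cases (H t) with ⟨h1, _⟩ | ⟨h1, _⟩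
      · exact ⟨0, by rw [h1]; ring⟩
      · exact ⟨1, by rw [h1]; ring⟩
    · rcases abs_cases (H t) with ⟨h1, _⟩ | ⟨h1, _⟩
      · exact ⟨1, by rw [h1]; ring⟩
      · exact ⟨0, by rw [h1]; ring⟩
  refine frequently_atTop.2 fun a => ?_
  obtain ⟨n, hn⟩ := exists_nat_gt a
  set k := 2 * (n + K) + e with hk
  have hkK : K ≤ k := by omega
  have hkn : n ≤ k := by omega
  refine ⟨2 ^ k * t, ?_, ?_⟩
  · have h1 : (k : ℝ) < 2 ^ k := by exact_mod_cast Nat.lt_two_pow_self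
    have h2 : (n : ℝ) ≤ k := by exact_mod_cast hkn
    have h3 : (2 : ℝ) ^ k ≤ 2 ^ k * t := le_mul_of_one_le_right (by positivity) ht1
    linarith
  · have h1 := h k t ht1 ht2
    rw [pow_one] at h1
    have h2 := hK k hkK
    have h3 : (-1 : ℝ) ^ k = (-1) ^ e := by
      rw [hk, pow_add, pow_mul]
      norm_num
    rw [h3] at h1
    have h4 : |σ * (S (2 ^ k * t) / (2 ^ k * t)) - σ * ((-1) ^ e * H t)| ≤ C / ((k : ℝ) + 1) := by
      rw [← mul_sub, abs_mul]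
      have : |σ| = 1 := by rcases hσ with rfl | rfl <;> norm_num
      rw [this, one_mul]
      exact h1
    rw [he] at h4
    have h5 := (abs_le.1 h4).1
    linarith

theorem limsup_eq {u : ℝ → ℝ} {B : ℝ} (h1 : ∀ b, B < b → ∀ᶠ x : ℝ in atTop, u x ≤ b)
    (h2 : ∀ b, b < B → ∃ᶠ x : ℝ in atTop, b ≤ u x) :
    limsup (fun x : ℝ => ((u x : ℝ) : EReal)) atTop = (B : EReal) := by
  refine le_antisymm ?_ ?_
  · by_contra hc
    rw [not_le] at hc
    obtain ⟨b, hb1, hb2⟩ := EReal.lt_iff_exists_real_btwn.1 hc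
    have h3 : B < b := by exact_mod_cast hb1
    have h4 : limsup (fun x : ℝ => ((u x : ℝ) : EReal)) atTop ≤ (b : EReal) :=
      limsup_le_of_le (h := (h1 b h3).mono fun x hx => by exact_mod_cast hx)
    exact absurd hb2 (not_lt.2 h4)
  · by_contra hc
    rw [not_le] at hc
    obtain ⟨b, hb1, hb2⟩ := EReal.lt_iff_exists_real_btwn.1 hc
    have h3 : b < B := by exact_mod_cast hb2
    have h4 : (b : EReal) ≤ limsup (fun x : ℝ => ((u x : ℝ) : EReal)) atTop :=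
      le_limsup_of_frequently_le ((h2 b h3).mono fun x hx => by exact_mod_cast hx)
    exact absurd hb1 (not_lt.2 h4)

theorem liminf_eq {u : ℝ → ℝ} {B : ℝ} (h1 : ∀ b, b < B → ∀ᶠ x : ℝ in atTop, b ≤ u x)
    (h2 : ∀ b, B < b → ∃ᶠ x : ℝ in atTop, u x ≤ b) :
    liminf (fun x : ℝ => ((u x : ℝ) : EReal)) atTop = (B : EReal) := by
  refine le_antisymm ?_ ?_
  · by_contra hc
    rw [not_le] at hc
    obtain ⟨b, hb1, hb2⟩ := EReal.lt_iff_exists_real_btwn.1 hc
    have h3 : B < b := by exact_mod_cast hb1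
    have h4 : liminf (fun x : ℝ => ((u x : ℝ) : EReal)) atTop ≤ (b : EReal) :=
      liminf_le_of_frequently_le ((h2 b h3).mono fun x hx => by exact_mod_cast hx)
    exact absurd hb2 (not_lt.2 h4)
  · by_contra hc
    rw [not_le] at hc
    obtain ⟨b, hb1, hb2⟩ := EReal.lt_iff_exists_real_btwn.1 hc
    have h3 : b < B := by exact_mod_cast hb2
    have h4 : (b : EReal) ≤ liminf (fun x : ℝ => ((u x : ℝ) : EReal)) atTop :=
      le_liminf_of_le (h := (h1 b h3).mono fun x hx => by exact_mod_cast hx)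
    exact absurd hb1 (not_lt.2 h4)

theorem sup_abs : limsup (fun x : ℝ => ((|S x| / x : ℝ) : EReal)) atTop = (BB : EReal) := by
  refine limsup_eq (u := fun x => |S x| / x) (fun b hb => ?_) fun b hb => ?_
  · filter_upwards [ev_upper hb, eventually_gt_atTop 0] with x hx hx0
    rw [abs_div, abs_of_pos hx0] at hx
    exact hx
  · refine ((fr_lower hb 1 (Or.inl rfl)).and_eventually (eventually_gt_atTop 0)).mono ?_
    rintro x ⟨h1, h2⟩
    rw [one_mul] at h1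
    exact h1.trans (div_le_div_of_nonneg_right (le_abs_self _) h2.le)

theorem sup_S : limsup (fun x : ℝ => ((S x / x : ℝ) : EReal)) atTop = (BB : EReal) := by
  refine limsup_eq (u := fun x => S x / x) (fun b hb => ?_) fun b hb => ?_
  · exact (ev_upper hb).mono fun x hx => (le_abs_self _).trans hx
  · exact (fr_lower hb 1 (Or.inl rfl)).mono fun x hx => by rwa [one_mul] at hx

theorem inf_S : liminf (fun x : ℝ => ((S x / x : ℝ) : EReal)) atTop = ((-BB : ℝ) : EReal) := by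
  refine liminf_eq (u := fun x => S x / x) (fun b hb => ?_) fun b hb => ?_
  · exact (ev_upper (show BB < -b by linarith)).mono fun x hx => by
      have := (abs_le.1 hx).1
      linarith
  · exact (fr_lower (show -b < BB by linarith) (-1) (Or.inr rfl)).mono fun x hx => by linarith

end Pool.Agent.H701M.A3
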