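import Mathlib

/-!
The Dirichlet series of `(-2)^Ω(n)` and its Euler product.
-/

set_option autoImplicit false

open Finset ArithmeticFunction Filter Topology

namespace Pool.Agent.H701M

/-- `(-2)^Ω(n)` -/
noncomputable def w (n : ℕ) : ℝ := (-2) ^ (ArithmeticFunction.cardFactors n)

/-- The summatory function of `(-2)^Ω(n)` -/
noncomputable def S (x : ℝ) : ℝ := ∑ n ∈ Ioc 0 ⌊x⌋₊, w n

theorem w_one : w 1 = 1 := by simp [w]

theorem w_mul {m n : ℕ} (hm : m ≠ 0) (hn : n ≠ 0) : w (m * n) = w m * w n := by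
  unfold w
  rw [cardFactors_mul hm hn, pow_add]

theorem w_prime {p : ℕ} (hp : p.Prime) : w p = -2 := by
  unfold w
  rw [cardFactors_apply_prime hp, pow_one]

/-- the norms of the terms -/
noncomputable def gs (σ : ℝ) (hσ : 1 < σ) : ℕ →*₀ ℝ where
  toFun n := 2 ^ (cardFactors n) * (n : ℝ) ^ (-σ)
  map_zero' := by
    simp [Real.zero_rpow (by linarith : -σ ≠ 0)]
  map_one' := by simp
  map_mul' m n := by
    rcases eq_or_ne m 0 with rfl | hm
    · simp [Real.zero_rpow (by linarith : -σ ≠ 0)]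
    rcases eq_or_ne n 0 with rfl | hn
    · simp [Real.zero_rpow (by linarith : -σ ≠ 0)]
    rw [cardFactors_mul hm hn, pow_add, Nat.cast_mul, Real.mul_rpow (Nat.cast_nonneg _)
      (Nat.cast_nonneg _)]
    ring

theorem gs_apply (σ : ℝ) (hσ : 1 < σ) (n : ℕ) :
    gs σ hσ n = 2 ^ (cardFactors n) * (n : ℝ) ^ (-σ) := rfl

theorem gs_nonneg (σ : ℝ) (hσ : 1 < σ) (n : ℕ) : 0 ≤ gs σ hσ n := by
  rw [gs_apply]; positivity

theorem two_rpow_lt {σ : ℝ} (hσ : 1 < σ) : 2 * (2 : ℝ) ^ (-σ) < 1 := by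
  have h1 : (2 : ℝ) ^ (-σ) < (2 : ℝ) ^ (-1 : ℝ) :=
    Real.rpow_lt_rpow_of_exponent_lt (by norm_num) (by linarith)
  rw [Real.rpow_neg_one] at h1
  linarith

theorem gs_prime {σ : ℝ} (hσ : 1 < σ) {p : ℕ} (hp : p.Prime) :
    gs σ hσ p = 2 * (p : ℝ) ^ (-σ) := by
  rw [gs_apply, cardFactors_apply_prime hp, pow_one]

theorem gs_prime_le {σ : ℝ} (hσ : 1 < σ) {p : ℕ} (hp : p.Prime) :
    gs σ hσ p ≤ 2 * (2 : ℝ) ^ (-σ) := by
  rw [gs_prime hσ hp]
  have : (2 : ℝ) ≤ p := by exact_mod_cast hp.two_le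
  have := Real.rpow_le_rpow_of_nonpos (by norm_num) this (by linarith : -σ ≤ 0)
  linarith

theorem gs_summable (σ : ℝ) (hσ : 1 < σ) : Summable (gs σ hσ) := by
  set y := 2 * (2 : ℝ) ^ (-σ) with hy
  have hy1 : y < 1 := two_rpow_lt hσ
  have hy0 : 0 < 1 - y := by linarith
  have hz : Summable (fun n : ℕ => (n : ℝ) ^ (-σ)) :=
    Real.summable_nat_rpow.2 (by linarith)
  refine summable_of_sum_range_le (c := Real.exp (2 / (1 - y) * ∑' n : ℕ, (n : ℝ) ^ (-σ)))
    (gs_nonneg σ hσ) fun N => ?_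
  have h12 := EulerProduct.summable_and_hasSum_factoredNumbers_prod_filter_prime_geometric
    (f := (gs σ hσ).toMonoidHom) (fun {p} hp => by
      change ‖gs σ hσ p‖ < 1
      rw [Real.norm_of_nonneg (gs_nonneg σ hσ p)]
      exact (gs_prime_le hσ hp).trans_lt hy1) (range N)
  have h1 : Summable (fun m : Nat.factoredNumbers (range N) => ‖gs σ hσ m‖) := h12.1
  have h2 : HasSum (fun m : Nat.factoredNumbers (range N) => gs σ hσ m)
    (∏ p ∈ range N with p.Prime, (1 - gs σ hσ p)⁻¹) := h12.2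
  have h1' : Summable (fun m : Nat.factoredNumbers (range N) => gs σ hσ m) := h1.of_norm
  have h3 : ∑ n ∈ range N, gs σ hσ n ≤ ∑' m : Nat.factoredNumbers (range N), gs σ hσ m := by
    have h4 : ∑ n ∈ range N, gs σ hσ n = ∑ n ∈ (range N).filter (· ≠ 0), gs σ hσ n := by
      rw [Finset.sum_filter_of_ne]
      intro n _ hn h0
      rw [h0] at hn
      exact hn (map_zero _)
    rw [h4]
    have h5 : ∀ n ∈ (range N).filter (· ≠ 0), n ∈ Nat.factoredNumbers (range N) := by
      intro n hn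
      rw [Finset.mem_filter, Finset.mem_range] at hn
      rw [Nat.mem_factoredNumbers]
      refine ⟨hn.2, fun p hp => ?_⟩
      rw [Finset.mem_range]
      exact (Nat.le_of_mem_primeFactorsList hp).trans_lt hn.1
    have h7 : ∑ n ∈ (range N).filter (· ≠ 0), gs σ hσ n =
        ∑ m ∈ ((range N).filter (· ≠ 0)).subtype (· ∈ Nat.factoredNumbers (range N)),
          gs σ hσ (m : ℕ) := by
      rw [Finset.sum_subtype_eq_sum_filter, Finset.filter_true_of_mem h5]
    rw [h7]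
    exact Summable.sum_le_tsum (f := fun m : Nat.factoredNumbers (range N) => gs σ hσ (m : ℕ)) _
      (fun m _ => gs_nonneg σ hσ _) h1'
  refine h3.trans ?_
  rw [h2.tsum_eq]
  calc ∏ p ∈ range N with p.Prime, (1 - gs σ hσ p)⁻¹
      ≤ ∏ p ∈ range N with p.Prime, Real.exp (2 / (1 - y) * (p : ℝ) ^ (-σ)) := by
        refine Finset.prod_le_prod (fun p hp => ?_) fun p hp => ?_
        · have := gs_prime_le hσ (Finset.mem_filter.1 hp).2
          have : 0 < 1 - gs σ hσ p := by linarith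
          positivity
        · have hp' := (Finset.mem_filter.1 hp).2
          have h8 := gs_prime_le hσ hp'
          have h9 : 0 < 1 - gs σ hσ p := by linarith
          have h10 := gs_nonneg σ hσ p
          have h11 : (1 - gs σ hσ p)⁻¹ = gs σ hσ p / (1 - gs σ hσ p) + 1 := by
            field_simp
            ring
          rw [h11]
          refine (Real.add_one_le_exp _).trans ?_
          rw [Real.exp_le_exp]
          rw [show 2 / (1 - y) * (p : ℝ) ^ (-σ) = gs σ hσ p / (1 - y) by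
            rw [gs_prime hσ hp']; ring]
          exact div_le_div_of_nonneg_left h10 hy0 (by linarith)
    _ = Real.exp (∑ p ∈ range N with p.Prime, 2 / (1 - y) * (p : ℝ) ^ (-σ)) :=
        (Real.exp_sum _ _).symm
    _ ≤ _ := by
        rw [Real.exp_le_exp, ← Finset.mul_sum]
        refine mul_le_mul_of_nonneg_left ?_ (by positivity)
        exact hz.sum_le_tsum _ (fun n _ => by positivity)

theorem ne_zero_of_re {s : ℂ} (hs : 1 < s.re) : s ≠ 0 := by
  rintro rfl
  simp at hs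
  linarith

/-- the terms of the Dirichlet series -/
noncomputable def fs (s : ℂ) (hs : 1 < s.re) : ℕ →*₀ ℂ where
  toFun n := (w n : ℂ) * (n : ℂ) ^ (-s)
  map_zero' := by
    simp [Complex.zero_cpow (neg_ne_zero.2 (ne_zero_of_re hs))]
  map_one' := by simp [w_one]
  map_mul' m n := by
    have h0 := Complex.zero_cpow (neg_ne_zero.2 (ne_zero_of_re hs))
    rcases eq_or_ne m 0 with rfl | hm
    · simp [h0]
    rcases eq_or_ne n 0 with rfl | hn
    · simp [h0]
    rw [w_mul hm hn, Nat.cast_mul, Complex.natCast_mul_natCast_cpow]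
    push_cast
    ring

theorem fs_apply (s : ℂ) (hs : 1 < s.re) (n : ℕ) : fs s hs n = (w n : ℂ) * (n : ℂ) ^ (-s) := rfl

theorem norm_fs (s : ℂ) (hs : 1 < s.re) (n : ℕ) : ‖fs s hs n‖ = gs s.re hs n := by
  rcases Nat.eq_zero_or_pos n with rfl | hn
  · simp
  rw [fs_apply, gs_apply, norm_mul, Complex.norm_natCast_cpow_of_pos hn, Complex.norm_real, w,
    norm_pow]
  simp

theorem fs_summable (s : ℂ) (hs : 1 < s.re) : Summable (fun n => ‖fs s hs n‖) := by
  simp only [norm_fs]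
  exact gs_summable _ _

/-- The Dirichlet series -/
noncomputable def F (s : ℂ) : ℂ := LSeries (fun n => (w n : ℂ)) s

theorem term_eq (s : ℂ) (hs : 1 < s.re) :
    LSeries.term (fun n => (w n : ℂ)) s = fun n => fs s hs n := by
  funext n
  rcases Nat.eq_zero_or_pos n with rfl | hn
  · simp
  rw [LSeries.term_of_ne_zero hn.ne', fs_apply, Complex.cpow_neg]
  rfl

theorem summable_F (s : ℂ) (hs : 1 < s.re) : LSeriesSummable (fun n => (w n : ℂ)) s := by
  unfold LSeriesSummable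
  rw [term_eq s hs]
  exact (fs_summable s hs).of_norm

theorem F_eq (s : ℂ) (hs : 1 < s.re) : F s = ∑' n, fs s hs n := by
  unfold F LSeries
  rw [term_eq s hs]

/-- the local factor of the product with the square of the zeta function -/
noncomputable def D (x : ℂ) : ℂ := (1 + 2 * x) * (1 - x) ^ 2

theorem hasProd_F (s : ℂ) (hs : 1 < s.re) :
    HasProd (fun p : Nat.Primes => (D ((p : ℂ) ^ (-s)))⁻¹) (F s * riemannZeta s ^ 2) := by
  have h1 := EulerProduct.eulerProduct_completely_multiplicative_hasProd (f := fs s hs)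
    (fs_summable s hs)
  have h2 := riemannZeta_eulerProduct_hasProd hs
  have h3 := (h1.mul (h2.mul h2))
  rw [← F_eq, ← pow_two] at h3
  refine h3.congr_fun fun p => ?_
  change (D (((p : ℕ) : ℂ) ^ (-s)))⁻¹ = (1 - fs s hs (p : ℕ))⁻¹ *
    ((1 - ((p : ℕ) : ℂ) ^ (-s))⁻¹ * (1 - ((p : ℕ) : ℂ) ^ (-s))⁻¹)
  rw [fs_apply, w_prime p.2, D, mul_inv, pow_two, mul_inv]
  congr 3
  push_cast
  ring

theorem D_bound {x : ℂ} {r : ℝ} (hx : ‖x‖ ≤ r) (hr : r ≤ 1 / 64) :
    ‖(D x)⁻¹ - 1‖ ≤ 31 / 10 * r ^ 2 := by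
  have hr0 : 0 ≤ r := (norm_nonneg x).trans hx
  have e1 : D x = 1 - (3 * x ^ 2 - 2 * x ^ 3) := by unfold D; ring
  have h1 : ‖3 * x ^ 2 - 2 * x ^ 3‖ ≤ 3 * r ^ 2 + 2 * r ^ 3 := by
    refine (norm_sub_le _ _).trans ?_
    rw [norm_mul, norm_mul, norm_pow, norm_pow]
    have h2 : ‖x‖ ^ 2 ≤ r ^ 2 := pow_le_pow_left₀ (norm_nonneg _) hx 2
    have h3 : ‖x‖ ^ 3 ≤ r ^ 3 := pow_le_pow_left₀ (norm_nonneg _) hx 3
    have h4 : ‖(3 : ℂ)‖ = 3 := by simp
    have h5 : ‖(2 : ℂ)‖ = 2 := by simp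
    rw [h4, h5]
    linarith
  have hr2 : r ^ 3 ≤ 1 / 64 * r ^ 2 := by
    have : r ^ 3 = r * r ^ 2 := by ring
    rw [this]
    exact mul_le_mul_of_nonneg_right hr (by positivity)
  have h6 : ‖3 * x ^ 2 - 2 * x ^ 3‖ ≤ 97 / 32 * r ^ 2 := by linarith
  have hr3 : r ^ 2 ≤ 1 / 4096 := by nlinarith
  have h7 : 99 / 100 ≤ ‖D x‖ := by
    rw [e1]
    have := norm_sub_norm_le (1 : ℂ) (3 * x ^ 2 - 2 * x ^ 3)
    rw [norm_one] at this
    linarith
  have h7' : 1 - 97 / 32 * r ^ 2 ≤ ‖D x‖ := by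
    rw [e1]
    have := norm_sub_norm_le (1 : ℂ) (3 * x ^ 2 - 2 * x ^ 3)
    rw [norm_one] at this
    linarith
  have h8 : D x ≠ 0 := by
    intro h
    rw [h, norm_zero] at h7
    linarith
  have h9 : (D x)⁻¹ - 1 = (3 * x ^ 2 - 2 * x ^ 3) / D x := by
    have : 3 * x ^ 2 - 2 * x ^ 3 = 1 - D x := by rw [e1]; ring
    rw [this]
    field_simp
  rw [h9, norm_div, div_le_iff₀ (by linarith)]
  nlinarith

theorem sum_odd (K : ℕ) (hK : 1 ≤ K) (m : ℕ) :
    ∑ k ∈ (Ico (2 * K) (2 * K + 2 * m)).filter (fun k => k % 2 = 1), 1 / (k : ℝ) ^ 2 ≤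
      1 / 2 * (1 / (2 * (K : ℝ)) - 1 / (2 * (K : ℝ) + 2 * m)) := by
  induction m with
  | zero => simp
  | succ m ih =>
    rw [Finset.sum_filter] at ih ⊢
    rw [show 2 * K + 2 * (m + 1) = 2 * K + 2 * m + 1 + 1 by ring, Finset.sum_Ico_succ_top (by omega),
      Finset.sum_Ico_succ_top (by omega), if_neg (by omega), if_pos (by omega)]
    have hK' : (1 : ℝ) ≤ K := by exact_mod_cast hK
    have hm : (0 : ℝ) ≤ m := Nat.cast_nonneg m
    set y : ℝ := 2 * (K : ℝ) + 2 * m + 1 with hy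
    have hy1 : 3 ≤ y := by linarith
    have h1 : 1 / y ^ 2 ≤ 1 / 2 * (1 / (y - 1) - 1 / (y + 1)) := by
      rw [div_sub_div _ _ (by linarith) (by linarith), ← mul_div_assoc, div_le_div_iff₀
        (by positivity) (by nlinarith)]
      nlinarith
    have e1 : ((2 * K + 2 * m + 1 : ℕ) : ℝ) = y := by push_cast; ring
    have e2 : 2 * (K : ℝ) + 2 * ((m + 1 : ℕ) : ℝ) = y + 1 := by push_cast; ring
    have e3 : 2 * (K : ℝ) + 2 * (m : ℝ) = y - 1 := by rw [hy]; ring
    rw [e1, e2]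
    rw [e3] at ih
    linarith

theorem sum_primes (K : ℕ) (hK : 2 ≤ K) (N : ℕ) :
    ∑ k ∈ (Ico (2 * K) N).filter Nat.Prime, 1 / (k : ℝ) ^ 2 ≤ 1 / (4 * (K : ℝ)) := by
  have h1 : (Ico (2 * K) N).filter Nat.Prime ⊆
      (Ico (2 * K) (2 * K + 2 * N)).filter (fun k => k % 2 = 1) := by
    intro k hk
    rw [Finset.mem_filter, Finset.mem_Ico] at hk ⊢
    refine ⟨⟨hk.1.1, by omega⟩, ?_⟩
    rcases hk.2.eq_two_or_odd with h2 | h2
    · omega
    · exact h2
  refine (Finset.sum_le_sum_of_subset_of_nonneg h1 fun _ _ _ => by positivity).trans ?_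
  refine (sum_odd K (by omega) N).trans ?_
  have hK' : (2 : ℝ) ≤ K := by exact_mod_cast hK
  have : 0 ≤ 1 / (2 * (K : ℝ) + 2 * N) := by positivity
  have h2 : 1 / (4 * (K : ℝ)) = 1 / 2 * (1 / (2 * K)) := by
    field_simp
    norm_num
  rw [h2]
  linarith

theorem tail (s : ℂ) (hs : 1 < s.re) (K : ℕ) (hK : 32 ≤ K) :
    ‖(∏ p ∈ (range (2 * K)).filter Nat.Prime, D ((p : ℂ) ^ (-s))) * (F s * riemannZeta s ^ 2) - 1‖ ≤
      Real.exp (31 / (40 * K)) - 1 := by
  classical
  have h1 := hasProd_F s hs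
  set g : ℕ → ℂ := fun n => if n.Prime then (D ((n : ℂ) ^ (-s)))⁻¹ else 1 with hg
  have h2 : HasProd g (F s * riemannZeta s ^ 2) := by
    have h3 : HasProd (g ∘ (Subtype.val : Nat.Primes → ℕ)) (F s * riemannZeta s ^ 2) := by
      refine h1.congr_fun fun p => ?_
      simp only [hg, Function.comp]
      rw [if_pos p.2]
    rw [Function.Injective.hasProd_iff Subtype.val_injective] at h3
    · exact h3
    · intro n hn
      simp only [hg]
      rw [if_neg]
      intro h4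
      exact hn ⟨⟨n, h4⟩, rfl⟩
  have h4 := h2.tendsto_prod_nat
  have hne : ∀ p : ℕ, p.Prime → D ((p : ℂ) ^ (-s)) ≠ 0 := by
    intro p hp h
    unfold D at h
    have h5 : ‖(p : ℂ) ^ (-s)‖ < 1 / 2 := by
      rw [Complex.norm_natCast_cpow_of_pos hp.pos]
      have h6 := gs_prime_le hs hp
      rw [gs_prime hs hp] at h6
      have := two_rpow_lt hs
      simp only [Complex.neg_re]
      linarith
    rcases mul_eq_zero.1 h with h6 | h6
    · have h7 : (p : ℂ) ^ (-s) = -(1 / 2) := by linear_combination (1 / 2) * h6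
      rw [h7] at h5
      norm_num at h5
    · have h7 : (p : ℂ) ^ (-s) = 1 := by
        have := pow_eq_zero_iff (two_ne_zero) |>.1 h6
        linear_combination -this
      rw [h7] at h5
      norm_num at h5
  have h5 : ∀ N, 2 * K ≤ N → ‖(∏ p ∈ (range (2 * K)).filter Nat.Prime, D ((p : ℂ) ^ (-s))) *
      (∏ n ∈ range N, g n) - 1‖ ≤ Real.exp (31 / (40 * K)) - 1 := by
    intro N hN
    have e1 : ∏ n ∈ range N, g n = ∏ n ∈ (range N).filter Nat.Prime, (D ((n : ℂ) ^ (-s)))⁻¹ := by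
      rw [Finset.prod_filter]
    have e2 : (range N).filter Nat.Prime = (range (2 * K)).filter Nat.Prime ∪
        (Ico (2 * K) N).filter Nat.Prime := by
      ext n
      simp only [Finset.mem_union, Finset.mem_filter, Finset.mem_range, Finset.mem_Ico]
      constructor
      · rintro ⟨h6, h7⟩
        rcases Nat.lt_or_ge n (2 * K) with h8 | h8
        · exact Or.inl ⟨h8, h7⟩
        · exact Or.inr ⟨⟨h8, h6⟩, h7⟩
      · rintro (⟨h6, h7⟩ | ⟨⟨h6, h8⟩, h7⟩)
        · exact ⟨by omega, h7⟩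
        · exact ⟨h8, h7⟩
    have e3 : Disjoint ((range (2 * K)).filter Nat.Prime) ((Ico (2 * K) N).filter Nat.Prime) := by
      rw [Finset.disjoint_left]
      intro n h6 h7
      rw [Finset.mem_filter, Finset.mem_range] at h6
      rw [Finset.mem_filter, Finset.mem_Ico] at h7
      omega
    rw [e1, e2, Finset.prod_union e3, ← mul_assoc, Finset.prod_inv_distrib, mul_inv_cancel₀
      (Finset.prod_ne_zero_iff.2 fun p hp => hne p (Finset.mem_filter.1 hp).2), one_mul]
    have e4 : ∏ n ∈ (Ico (2 * K) N).filter Nat.Prime, (D ((n : ℂ) ^ (-s)))⁻¹ =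
        ∏ n ∈ (Ico (2 * K) N).filter Nat.Prime, (1 + ((D ((n : ℂ) ^ (-s)))⁻¹ - 1)) := by
      refine Finset.prod_congr rfl fun n _ => ?_
      ring
    rw [e4]
    refine (Finset.norm_prod_one_add_sub_one_le _ _).trans ?_
    rw [sub_le_sub_iff_right, Real.exp_le_exp]
    have hK' : (32 : ℝ) ≤ K := by exact_mod_cast hK
    calc ∑ n ∈ (Ico (2 * K) N).filter Nat.Prime, ‖(D ((n : ℂ) ^ (-s)))⁻¹ - 1‖
        ≤ ∑ n ∈ (Ico (2 * K) N).filter Nat.Prime, 31 / 10 * (1 / (n : ℝ) ^ 2) := by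
          refine Finset.sum_le_sum fun n hn => ?_
          rw [Finset.mem_filter, Finset.mem_Ico] at hn
          have hn0 : (64 : ℝ) ≤ n := by
            have : 64 ≤ n := by omega
            exact_mod_cast this
          have h6 : ‖(n : ℂ) ^ (-s)‖ ≤ 1 / (n : ℝ) := by
            rw [Complex.norm_natCast_cpow_of_pos (by omega), one_div, ← Real.rpow_neg_one]
            refine Real.rpow_le_rpow_of_exponent_le (by linarith) ?_
            simp only [Complex.neg_re]
            linarith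
          have h7 := D_bound h6 (by
            rw [one_div, one_div]
            exact inv_anti₀ (by norm_num) hn0)
          rwa [one_div_pow] at h7
      _ = 31 / 10 * ∑ n ∈ (Ico (2 * K) N).filter Nat.Prime, 1 / (n : ℝ) ^ 2 := by
          rw [Finset.mul_sum]
      _ ≤ 31 / 10 * (1 / (4 * K)) := by
          refine mul_le_mul_of_nonneg_left (sum_primes K (by omega) N) (by norm_num)
      _ = 31 / (40 * K) := by
          field_simp
          norm_num
  have h6 : Tendsto (fun N => ‖(∏ p ∈ (range (2 * K)).filter Nat.Prime, D ((p : ℂ) ^ (-s))) *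
      (∏ n ∈ range N, g n) - 1‖) atTop (𝓝 ‖(∏ p ∈ (range (2 * K)).filter Nat.Prime,
        D ((p : ℂ) ^ (-s))) * (F s * riemannZeta s ^ 2) - 1‖) :=
    ((h4.const_mul _).sub_const _).norm
  exact le_of_tendsto h6 (eventually_atTop.2 ⟨2 * K, h5⟩)

end Pool.Agent.H701M
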