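import Mathlib

/-!
The Euler-Maclaurin formula for the zeta function on the line `1`.
-/

set_option autoImplicit false

open Finset Filter Topology

namespace Pool.Agent.H701M

/-- the approximation -/
noncomputable def EM (N : ℕ) (s : ℂ) : ℂ :=
  ∑ n ∈ Ico 1 N, (n : ℂ) ^ (-s) + (N : ℂ) ^ (1 - s) / (s - 1) + (N : ℂ) ^ (-s) / 2 +
    s * (N : ℂ) ^ (-s - 1) / 12

theorem hasDeriv_cpow {x : ℝ} (hx : 0 < x) {c : ℂ} (hc : c ≠ 0) :
    HasDerivAt (fun y : ℝ => (y : ℂ) ^ c) (c * (x : ℂ) ^ (c - 1)) x := by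
  exact hasDerivAt_ofReal_cpow_const hx.ne' hc

theorem b3_bound {h : ℝ} (h0 : 0 ≤ h) (h1 : h ≤ 1) :
    |h ^ 3 - 3 / 2 * h ^ 2 + h / 2| ≤ 1 / 20 := by
  have key : ∀ u : ℝ, 0 ≤ u → u ≤ 1 / 2 → u * (1 / 4 - u ^ 2) ≤ 1 / 20 := by
    intro u hu _
    nlinarith [mul_nonneg (sq_nonneg (u - 29 / 100)) (by linarith : 0 ≤ u + 58 / 100)]
  have e : h ^ 3 - 3 / 2 * h ^ 2 + h / 2 = -((h - 1 / 2) * (1 / 4 - (h - 1 / 2) ^ 2)) := by ring
  rw [e, abs_neg]
  have e2 : 0 ≤ 1 / 4 - (h - 1 / 2) ^ 2 := by nlinarith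
  rw [abs_mul, abs_of_nonneg e2]
  have h3 := key |h - 1 / 2| (abs_nonneg _) (by rw [abs_le]; constructor <;> linarith)
  rw [sq_abs] at h3
  exact h3

theorem EM_step (s : ℂ) (hs : 1 ≤ s.re) (hs1 : s ≠ 1) (n : ℕ) (hn : 1 ≤ n) :
    ‖EM (n + 1) s - EM n s‖ ≤ ‖s * (s + 1) * (s + 2)‖ / 120 * (1 / (n : ℝ) ^ 4) := by
  have hn' : (1 : ℝ) ≤ n := by exact_mod_cast hn
  have hs0 : s ≠ 0 := by
    rintro rfl
    simp at hs
    linarith
  have hsa : s + 1 ≠ 0 := by
    intro h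
    have := congrArg Complex.re h
    simp at this
    linarith
  have hsb : s + 2 ≠ 0 := by
    intro h
    have := congrArg Complex.re h
    simp at this
    linarith
  have hsc : 1 - s ≠ 0 := sub_ne_zero.2 hs1.symm
  set Ψ : ℝ → ℂ := fun x => (((x - n) ^ 3 - 3 / 2 * (x - n) ^ 2 + (x - n) / 2) / 6 : ℝ) *
      (s * (s + 1) * (x : ℂ) ^ (-s - 2)) +
    (((x - n) ^ 2 - (x - n) + 1 / 6) / 2 : ℝ) * (s * (x : ℂ) ^ (-s - 1)) +
    ((x - n) - 1 / 2 : ℝ) * (x : ℂ) ^ (-s) - (x : ℂ) ^ (1 - s) / (1 - s) with hΨ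
  set Ψ' : ℝ → ℂ := fun x => (((x - n) ^ 3 - 3 / 2 * (x - n) ^ 2 + (x - n) / 2) / 6 : ℝ) *
      (-(s * (s + 1) * (s + 2)) * (x : ℂ) ^ (-s - 3)) with hΨ'
  have hd : ∀ x : ℝ, 0 < x → HasDerivAt Ψ (Ψ' x) x := by
    intro x hx
    have d0 : HasDerivAt (fun y : ℝ => y - n) 1 x := (hasDerivAt_id x).sub_const _
    have d3 : HasDerivAt (fun y : ℝ => (((y - n) ^ 3 - 3 / 2 * (y - n) ^ 2 + (y - n) / 2) / 6 : ℝ))
        (((x - n) ^ 2 - (x - n) + 1 / 6) / 2) x := by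
      have := ((((d0.pow 3).sub ((d0.pow 2).const_mul (3 / 2))).add (d0.div_const 2)).div_const 6)
      refine this.congr_deriv ?_
      norm_num
      ring
    have d2 : HasDerivAt (fun y : ℝ => (((y - n) ^ 2 - (y - n) + 1 / 6) / 2 : ℝ))
        ((x - n) - 1 / 2) x := by
      have := ((((d0.pow 2).sub d0).add_const (1 / 6)).div_const 2)
      refine this.congr_deriv ?_
      norm_num
      ring
    have d1 : HasDerivAt (fun y : ℝ => ((y - n) - 1 / 2 : ℝ)) 1 x := d0.sub_const _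
    have c2 : HasDerivAt (fun y : ℝ => (y : ℂ) ^ (-s - 2)) ((-s - 2) * (x : ℂ) ^ (-s - 3)) x := by
      have := hasDeriv_cpow hx (c := -s - 2) (by intro h; exact hsb (by linear_combination -h))
      rwa [show -s - 2 - 1 = -s - 3 by ring] at this
    have c1 : HasDerivAt (fun y : ℝ => (y : ℂ) ^ (-s - 1)) ((-s - 1) * (x : ℂ) ^ (-s - 2)) x := by
      have := hasDeriv_cpow hx (c := -s - 1) (by intro h; exact hsa (by linear_combination -h))
      rwa [show -s - 1 - 1 = -s - 2 by ring] at this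
    have c0 : HasDerivAt (fun y : ℝ => (y : ℂ) ^ (-s)) ((-s) * (x : ℂ) ^ (-s - 1)) x :=
      hasDeriv_cpow hx (c := -s) (neg_ne_zero.2 hs0)
    have cm : HasDerivAt (fun y : ℝ => (y : ℂ) ^ (1 - s)) ((1 - s) * (x : ℂ) ^ (-s)) x := by
      have := hasDeriv_cpow hx (c := 1 - s) hsc
      rwa [show 1 - s - 1 = -s by ring] at this
    have := (((d3.ofReal_comp.mul (c2.const_mul (s * (s + 1)))).add
      (d2.ofReal_comp.mul (c1.const_mul s))).add (d1.ofReal_comp.mul c0)).sub (cm.div_const (1 - s))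
    refine this.congr_deriv ?_
    simp only [hΨ']
    rw [mul_div_assoc, mul_comm (1 - s), div_mul_cancel₀ _ hsc]
    push_cast
    ring
  have hb : ∀ x ∈ Set.Ico (n : ℝ) (n + 1), ‖Ψ' x‖ ≤
      ‖s * (s + 1) * (s + 2)‖ / 120 * (1 / (n : ℝ) ^ 4) := by
    intro x hx
    have hx0 : 0 < x := by linarith [hx.1]
    have hx1 : (1 : ℝ) ≤ x := by linarith [hx.1]
    simp only [hΨ']
    rw [norm_mul, norm_mul, norm_neg, Complex.norm_real, Real.norm_eq_abs,
      Complex.norm_cpow_eq_rpow_re_of_pos hx0]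
    have h1 := b3_bound (h := x - n) (by linarith [hx.1]) (by linarith [hx.2])
    have h2 : |((x - n) ^ 3 - 3 / 2 * (x - n) ^ 2 + (x - n) / 2) / 6| ≤ 1 / 120 := by
      rw [abs_div, abs_of_pos (by norm_num : (0 : ℝ) < 6)]
      linarith
    have h3 : x ^ ((-s - 3).re) ≤ 1 / (n : ℝ) ^ 4 := by
      have h4 : x ^ ((-s - 3).re) ≤ x ^ (-4 : ℝ) := by
        refine Real.rpow_le_rpow_of_exponent_le hx1 ?_
        simp
        linarith
      refine h4.trans ?_
      rw [Real.rpow_neg hx0.le, one_div]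
      have h5 : x ^ (4 : ℝ) = x ^ 4 := by
        rw [← Real.rpow_natCast]
        norm_num
      rw [h5]
      exact inv_anti₀ (by positivity) (pow_le_pow_left₀ (by positivity) hx.1 4)
    calc |((x - n) ^ 3 - 3 / 2 * (x - n) ^ 2 + (x - n) / 2) / 6| *
          (‖s * (s + 1) * (s + 2)‖ * x ^ ((-s - 3).re))
        ≤ 1 / 120 * (‖s * (s + 1) * (s + 2)‖ * (1 / (n : ℝ) ^ 4)) := by
          gcongr
      _ = _ := by ring
  have h1 := norm_image_sub_le_of_norm_deriv_le_segment' (f := Ψ) (f' := Ψ') (a := (n : ℝ))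
    (b := n + 1) (fun x hx => (hd x (by linarith [hx.1])).hasDerivWithinAt) hb (n + 1)
    ⟨by linarith, le_rfl⟩
  have h2 : Ψ (n + 1) - Ψ n = EM (n + 1) s - EM n s := by
    unfold EM
    rw [Finset.sum_Ico_succ_top hn]
    simp only [hΨ]
    push_cast
    have e1 : ((n : ℂ) + 1 - n) = 1 := by ring
    have e2 : ((n : ℂ) - n) = 0 := by ring
    rw [e1, e2]
    have e3 : ∀ y : ℂ, y / (s - 1) = -(y / (1 - s)) := by
      intro y
      rw [← neg_sub 1 s, div_neg]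
    rw [e3, e3]
    ring
  rw [h2] at h1
  simpa using h1

theorem EM_diff (s : ℂ) (hs : 1 ≤ s.re) (hs1 : s ≠ 1) (N : ℕ) (hN : 2 ≤ N) (j : ℕ) :
    ‖EM (N + j) s - EM N s‖ ≤ ‖s * (s + 1) * (s + 2)‖ / 360 *
      (1 / ((N : ℝ) - 1) ^ 3 - 1 / ((N : ℝ) + j - 1) ^ 3) := by
  induction j with
  | zero => simp
  | succ j ih =>
    have h1 := EM_step s hs hs1 (N + j) (by omega)
    have h2 : EM (N + (j + 1)) s - EM N s =
        (EM (N + j + 1) s - EM (N + j) s) + (EM (N + j) s - EM N s) := by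
      rw [← add_assoc]; ring
    rw [h2]
    refine (norm_add_le _ _).trans ?_
    have hN' : (2 : ℝ) ≤ N := by exact_mod_cast hN
    have hj : (0 : ℝ) ≤ j := Nat.cast_nonneg j
    set y : ℝ := (N : ℝ) + j - 1 with hy
    have hy1 : 1 ≤ y := by linarith
    have e1 : ((N + j : ℕ) : ℝ) = y + 1 := by push_cast; ring
    have e2 : (N : ℝ) + ((j + 1 : ℕ) : ℝ) - 1 = y + 1 := by push_cast; ring
    rw [e1] at h1
    rw [e2]
    have h3 : 1 / (y + 1) ^ 4 ≤ 1 / 3 * (1 / y ^ 3 - 1 / (y + 1) ^ 3) := by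
      rw [div_sub_div _ _ (by positivity) (by positivity), ← mul_div_assoc, div_le_div_iff₀
        (by positivity) (by positivity)]
      nlinarith [pow_pos (by linarith : 0 < y) 2, pow_pos (by linarith : 0 < y) 3,
        pow_pos (by linarith : 0 < y) 4, pow_pos (by linarith : 0 < y) 5,
        pow_pos (by linarith : 0 < y) 6]
    have h4 := mul_le_mul_of_nonneg_left h3
      (by positivity : 0 ≤ ‖s * (s + 1) * (s + 2)‖ / 120)
    have h5 : ‖s * (s + 1) * (s + 2)‖ / 120 * (1 / 3 * (1 / y ^ 3 - 1 / (y + 1) ^ 3)) =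
        ‖s * (s + 1) * (s + 2)‖ / 360 * (1 / y ^ 3) -
          ‖s * (s + 1) * (s + 2)‖ / 360 * (1 / (y + 1) ^ 3) := by ring
    rw [mul_sub] at ih ⊢
    linarith

theorem EM_tendsto (s : ℂ) (hs : 1 < s.re) :
    Tendsto (fun N => EM N s) atTop (𝓝 (riemannZeta s)) := by
  have hs1 : s - 1 ≠ 0 := by
    intro h
    have := congrArg Complex.re h
    simp at this
    linarith
  have hp : ∀ c : ℂ, c.re < 0 → Tendsto (fun N : ℕ => (N : ℂ) ^ c) atTop (𝓝 0) := by
    intro c hc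
    rw [tendsto_zero_iff_norm_tendsto_zero]
    have h1 : Tendsto (fun N : ℕ => (N : ℝ) ^ (-(-c.re))) atTop (𝓝 0) :=
      (tendsto_rpow_neg_atTop (by linarith : 0 < -c.re)).comp tendsto_natCast_atTop_atTop
    rw [neg_neg] at h1
    refine h1.congr' ?_
    filter_upwards [eventually_gt_atTop 0] with N hN
    rw [Complex.norm_natCast_cpow_of_pos hN]
  have h1 : Tendsto (fun N : ℕ => ∑ n ∈ Ico 1 N, (n : ℂ) ^ (-s)) atTop (𝓝 (riemannZeta s)) := by
    rw [zeta_eq_tsum_one_div_nat_cpow hs]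
    have h2 := (Complex.summable_one_div_nat_cpow.2 hs).hasSum.tendsto_sum_nat
    refine h2.congr' ?_
    filter_upwards [eventually_gt_atTop 0] with N hN
    rw [Finset.range_eq_Ico, Finset.sum_eq_sum_Ico_succ_bot hN]
    have h0 : (1 : ℂ) / ((0 : ℕ) : ℂ) ^ s = 0 := by
      rw [Nat.cast_zero, Complex.zero_cpow (by
        intro h
        rw [h] at hs
        simp at hs
        linarith), div_zero]
    rw [h0, zero_add, zero_add]
    refine Finset.sum_congr rfl fun n _ => ?_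
    rw [Complex.cpow_neg, one_div]
  have h2 := hp (1 - s) (by simp; linarith)
  have h3 := hp (-s) (by simp; linarith)
  have h4 := hp (-s - 1) (by simp; linarith)
  have h5 := ((h1.add (h2.div_const (s - 1))).add (h3.div_const 2)).add
    ((h4.const_mul s).div_const 12)
  simpa [EM] using h5

theorem EM_zeta (s : ℂ) (hs : 1 < s.re) (N : ℕ) (hN : 2 ≤ N) :
    ‖riemannZeta s - EM N s‖ ≤ ‖s * (s + 1) * (s + 2)‖ / 360 * (1 / ((N : ℝ) - 1) ^ 3) := by
  have hs1 : s ≠ 1 := by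
    rintro rfl
    simp at hs
  have h1 : Tendsto (fun j => ‖EM (N + j) s - EM N s‖) atTop (𝓝 ‖riemannZeta s - EM N s‖) :=
    (((EM_tendsto s hs).comp (tendsto_add_atTop_nat N |>.congr fun j => by
      rw [add_comm])).sub_const _).norm
  refine le_of_tendsto h1 (Eventually.of_forall fun j => ?_)
  refine (EM_diff s hs.le hs1 N hN j).trans ?_
  refine mul_le_mul_of_nonneg_left ?_ (by positivity)
  have hN' : (2 : ℝ) ≤ N := by exact_mod_cast hN
  have hj : (0 : ℝ) ≤ j := Nat.cast_nonneg j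
  have : 0 ≤ 1 / ((N : ℝ) + j - 1) ^ 3 := by
    have : 0 < (N : ℝ) + j - 1 := by linarith
    positivity
  linarith

theorem EM_line (t : ℝ) (ht : t ≠ 0) (N : ℕ) (hN : 2 ≤ N) :
    ‖riemannZeta (1 + t * Complex.I) - EM N (1 + t * Complex.I)‖ ≤
      ‖(1 + t * Complex.I) * (1 + t * Complex.I + 1) * (1 + t * Complex.I + 2)‖ / 360 *
        (1 / ((N : ℝ) - 1) ^ 3) := by
  set s₀ : ℂ := 1 + t * Complex.I with hs₀
  have hne : s₀ ≠ 1 := by
    intro h
    rw [hs₀] at h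
    have := congrArg Complex.im h
    simp at this
    exact ht this
  have hc : Tendsto (fun ε : ℝ => s₀ + (ε : ℂ)) (𝓝[>] 0) (𝓝 s₀) := by
    have : Continuous (fun ε : ℝ => s₀ + (ε : ℂ)) := by fun_prop
    have h1 := this.tendsto 0
    simp only [Complex.ofReal_zero, add_zero] at h1
    exact h1.mono_left nhdsWithin_le_nhds
  have hz : ContinuousAt riemannZeta s₀ := (differentiableAt_riemannZeta hne).continuousAt
  have hcp : ∀ (n : ℕ) (g : ℂ → ℂ), n ≠ 0 → ContinuousAt g s₀ →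
      ContinuousAt (fun s => (n : ℂ) ^ (g s)) s₀ := by
    intro n g hn hg
    exact ContinuousAt.const_cpow hg (Or.inl (Nat.cast_ne_zero.2 hn))
  have hE : ContinuousAt (fun s => EM N s) s₀ := by
    unfold EM
    refine ((ContinuousAt.add ?_ ?_).add ?_).add ?_
    · refine tendsto_finsetSum _ fun n hn => ?_
      exact hcp n (fun s => -s) (by rw [Finset.mem_Ico] at hn; omega) (by fun_prop)
    · refine ContinuousAt.div (hcp N (fun s => 1 - s) (by omega) (by fun_prop)) (by fun_prop)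
        (sub_ne_zero.2 hne)
    · exact (hcp N (fun s => -s) (by omega) (by fun_prop)).div_const 2
    · exact (continuousAt_id.mul (hcp N (fun s => -s - 1) (by omega) (by fun_prop))).div_const 12
  have h1 : Tendsto (fun ε : ℝ => ‖riemannZeta (s₀ + ε) - EM N (s₀ + ε)‖) (𝓝[>] 0)
      (𝓝 ‖riemannZeta s₀ - EM N s₀‖) :=
    ((hz.tendsto.comp hc).sub (hE.tendsto.comp hc)).norm
  have h2 : Tendsto (fun ε : ℝ => ‖(s₀ + ε) * (s₀ + ε + 1) * (s₀ + ε + 2)‖ / 360 *
        (1 / ((N : ℝ) - 1) ^ 3)) (𝓝[>] 0) (𝓝 (‖s₀ * (s₀ + 1) * (s₀ + 2)‖ / 360 *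
        (1 / ((N : ℝ) - 1) ^ 3))) := by
    have : ContinuousAt (fun s : ℂ => ‖s * (s + 1) * (s + 2)‖ / 360 *
        (1 / ((N : ℝ) - 1) ^ 3)) s₀ := by fun_prop
    exact this.tendsto.comp hc
  refine le_of_tendsto_of_tendsto h1 h2 ?_
  filter_upwards [self_mem_nhdsWithin] with ε hε
  refine EM_zeta _ ?_ N hN
  rw [hs₀]
  simp
  exact hε

end Pool.Agent.H701M
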