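import Pool.Agent.H701M.B1

/-!
The mean value inequality.
-/

set_option autoImplicit false

open Finset Filter Topology MeasureTheory ComplexConjugate

namespace Pool.Agent.H701M

/-- the characters -/
noncomputable def e (κ t : ℝ) : ℂ := (t : ℂ) ^ ((κ : ℂ) * Complex.I)

theorem e_norm {t : ℝ} (ht : 0 < t) (κ : ℝ) : ‖e κ t‖ = 1 := by
  unfold e
  rw [Complex.norm_cpow_eq_rpow_re_of_pos ht]
  simp

theorem e_add {t : ℝ} (ht : 0 < t) (κ κ' : ℝ) : e (κ + κ') t = e κ t * e κ' t := by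
  unfold e
  rw [← Complex.cpow_add _ _ (by exact_mod_cast ht.ne')]
  congr 1
  push_cast
  ring

theorem e_zero (t : ℝ) : e 0 t = 1 := by
  unfold e
  simp

theorem e_conj {t : ℝ} (ht : 0 < t) (κ : ℝ) : conj (e κ t) = e (-κ) t := by
  have h1 : e (-κ) t * e κ t = 1 := by
    rw [← e_add ht, neg_add_cancel, e_zero]
  have h2 : conj (e κ t) * e κ t = 1 := by
    rw [mul_comm, Complex.mul_conj, Complex.normSq_eq_norm_sq, e_norm ht]
    simp
  have h3 : e κ t ≠ 0 := by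
    intro h
    have := e_norm ht κ
    rw [h, norm_zero] at this
    exact zero_ne_one this
  exact mul_right_cancel₀ h3 (h2.trans h1.symm)

theorem e_measurable (κ : ℝ) : Measurable (e κ) := by
  unfold e
  fun_prop

/-- a trigonometric polynomial -/
noncomputable def tp (M : ℕ) (A : ℕ → ℂ) (κ : ℕ → ℝ) (t : ℝ) : ℂ := ∑ j ∈ range M, A j * e (κ j) t

theorem tp_measurable (M : ℕ) (A : ℕ → ℂ) (κ : ℕ → ℝ) : Measurable (tp M A κ) := by
  unfold tp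
  exact Finset.measurable_sum _ fun j _ => (e_measurable _).const_mul _

theorem tp_norm (M : ℕ) (A : ℕ → ℂ) (κ : ℕ → ℝ) {t : ℝ} (ht : 0 < t) :
    ‖tp M A κ t‖ ≤ ∑ j ∈ range M, ‖A j‖ := by
  unfold tp
  refine (norm_sum_le _ _).trans (le_of_eq ?_)
  refine Finset.sum_congr rfl fun j _ => ?_
  rw [norm_mul, e_norm ht, mul_one]

theorem tp_sq (M : ℕ) (A : ℕ → ℂ) (κ : ℕ → ℝ) {t : ℝ} (ht : 0 < t) :
    ((‖tp M A κ t‖ ^ 2 : ℝ) : ℂ) =
      ∑ j ∈ range M, ∑ k ∈ range M, A j * conj (A k) * e (κ j - κ k) t := by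
  rw [← Complex.normSq_eq_norm_sq, ← Complex.mul_conj]
  unfold tp
  rw [map_sum, Finset.sum_mul_sum]
  refine Finset.sum_congr rfl fun j _ => Finset.sum_congr rfl fun k _ => ?_
  rw [map_mul, e_conj ht, sub_eq_add_neg, e_add ht]
  ring

theorem cpow_e {t : ℝ} (ht : 0 < t) (σ κ : ℝ) :
    (t : ℂ) ^ (-(σ : ℂ) + κ * Complex.I) = ((t ^ (-σ) : ℝ) : ℂ) * e κ t := by
  unfold e
  rw [Complex.cpow_add _ _ (by exact_mod_cast ht.ne'), Complex.ofReal_cpow ht.le]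
  simp

theorem int_e {σ : ℝ} (hσ : 1 < σ) (κ : ℝ) :
    IntegrableOn (fun t : ℝ => ((t ^ (-σ) : ℝ) : ℂ) * e κ t) (Set.Ioi 1) ∧
    ∫ t in Set.Ioi (1 : ℝ), ((t ^ (-σ) : ℝ) : ℂ) * e κ t = 1 / ((σ : ℂ) - 1 - κ * Complex.I) := by
  have hre : (-(σ : ℂ) + κ * Complex.I).re < -1 := by simp; exact hσ
  have h1 := integrableOn_Ioi_cpow_of_lt hre (c := 1) one_pos
  have h2 := integral_Ioi_cpow_of_lt hre (c := 1) one_pos
  have h3 : Set.EqOn (fun t : ℝ => (t : ℂ) ^ (-(σ : ℂ) + κ * Complex.I))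
      (fun t : ℝ => ((t ^ (-σ) : ℝ) : ℂ) * e κ t) (Set.Ioi 1) := by
    intro t ht
    exact cpow_e (zero_lt_one.trans ht) σ κ
  refine ⟨h1.congr_fun h3 measurableSet_Ioi, ?_⟩
  rw [← setIntegral_congr_fun measurableSet_Ioi h3, h2]
  simp only [Complex.ofReal_one, Complex.one_cpow]
  rw [neg_div, ← div_neg]
  congr 1
  ring

theorem tp_int (M : ℕ) (A : ℕ → ℂ) (κ : ℕ → ℝ) {σ : ℝ} (hσ : 1 < σ) :
    IntegrableOn (fun t : ℝ => t ^ (-σ) * ‖tp M A κ t‖ ^ 2) (Set.Ioi 1) ∧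
    ((∫ t in Set.Ioi (1 : ℝ), t ^ (-σ) * ‖tp M A κ t‖ ^ 2 : ℝ) : ℂ) =
      ∑ j ∈ range M, ∑ k ∈ range M, A j * conj (A k) *
        (1 / ((σ : ℂ) - 1 - ((κ j - κ k : ℝ) : ℂ) * Complex.I)) := by
  have h1 : Set.EqOn (fun t : ℝ => ((t ^ (-σ) * ‖tp M A κ t‖ ^ 2 : ℝ) : ℂ))
      (fun t : ℝ => ∑ j ∈ range M, ∑ k ∈ range M, A j * conj (A k) *
        (((t ^ (-σ) : ℝ) : ℂ) * e (κ j - κ k) t)) (Set.Ioi 1) := by
    intro t ht
    have ht0 : 0 < t := zero_lt_one.trans ht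
    simp only
    rw [Complex.ofReal_mul, tp_sq M A κ ht0, Finset.mul_sum]
    refine Finset.sum_congr rfl fun j _ => ?_
    rw [Finset.mul_sum]
    refine Finset.sum_congr rfl fun k _ => ?_
    ring
  have h2 : ∀ j k, IntegrableOn (fun t : ℝ => A j * conj (A k) *
      (((t ^ (-σ) : ℝ) : ℂ) * e (κ j - κ k) t)) (Set.Ioi 1) := fun j k =>
    (int_e hσ _).1.const_mul _
  have h3 : IntegrableOn (fun t : ℝ => ∑ j ∈ range M, ∑ k ∈ range M, A j * conj (A k) *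
        (((t ^ (-σ) : ℝ) : ℂ) * e (κ j - κ k) t)) (Set.Ioi 1) :=
    integrable_finsetSum _ fun j _ => integrable_finsetSum _ fun k _ => h2 j k
  have h4 : IntegrableOn (fun t : ℝ => ((t ^ (-σ) * ‖tp M A κ t‖ ^ 2 : ℝ) : ℂ)) (Set.Ioi 1) :=
    h3.congr_fun h1.symm measurableSet_Ioi
  refine ⟨?_, ?_⟩
  · refine h4.re.congr (Eventually.of_forall fun t => ?_)
    exact Complex.ofReal_re _
  · rw [← integral_complex_ofReal, setIntegral_congr_fun measurableSet_Ioi h1,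
      integral_finsetSum _ fun j _ => integrable_finsetSum _ fun k _ => h2 j k]
    refine Finset.sum_congr rfl fun j _ => ?_
    rw [integral_finsetSum _ fun k _ => h2 j k]
    refine Finset.sum_congr rfl fun k _ => ?_
    rw [integral_const_mul, (int_e hσ _).2]

theorem lim_frac (κ : ℝ) : Tendsto (fun σ : ℝ => ((σ : ℂ) - 1) *
    (1 / ((σ : ℂ) - 1 - (κ : ℂ) * Complex.I))) (𝓝[>] 1) (𝓝 (if κ = 0 then 1 else 0)) := by
  by_cases h : κ = 0
  · rw [if_pos h, h]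
    refine tendsto_const_nhds.congr' ?_
    filter_upwards [self_mem_nhdsWithin] with σ hσ
    have h1 : (σ : ℂ) - 1 ≠ 0 := by
      have h2 : σ - 1 ≠ 0 := sub_ne_zero.2 (ne_of_gt hσ)
      exact_mod_cast h2
    simp only [Complex.ofReal_zero, zero_mul, sub_zero]
    field_simp
  · rw [if_neg h]
    have hne : (1 : ℂ) - 1 - (κ : ℂ) * Complex.I ≠ 0 := by
      simp [h]
    have hc : ContinuousAt (fun z : ℂ => (z - 1) * (1 / (z - 1 - (κ : ℂ) * Complex.I))) 1 := by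
      refine ContinuousAt.mul (by fun_prop) (ContinuousAt.div (by fun_prop) (by fun_prop) hne)
    have h1 := hc.tendsto
    simp only [sub_self, zero_mul] at h1
    have h2 : Tendsto (fun σ : ℝ => (σ : ℂ)) (𝓝[>] 1) (𝓝 1) := by
      have := (Complex.continuous_ofReal.tendsto (1 : ℝ))
      simp only [Complex.ofReal_one] at this
      exact this.mono_left nhdsWithin_le_nhds
    exact h1.comp h2

theorem tp_mean (M : ℕ) (A : ℕ → ℂ) (κ : ℕ → ℝ) (hκ : Function.Injective κ) :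
    Tendsto (fun σ : ℝ => (σ - 1) * ∫ t in Set.Ioi (1 : ℝ), t ^ (-σ) * ‖tp M A κ t‖ ^ 2)
      (𝓝[>] 1) (𝓝 (∑ j ∈ range M, ‖A j‖ ^ 2)) := by
  have h1 : Tendsto (fun σ : ℝ => ∑ j ∈ range M, ∑ k ∈ range M, A j * conj (A k) *
      (((σ : ℂ) - 1) * (1 / ((σ : ℂ) - 1 - ((κ j - κ k : ℝ) : ℂ) * Complex.I)))) (𝓝[>] 1)
      (𝓝 (∑ j ∈ range M, ∑ k ∈ range M, A j * conj (A k) * (if κ j - κ k = 0 then 1 else 0))) :=
    tendsto_finsetSum _ fun j _ => tendsto_finsetSum _ fun k _ => (lim_frac _).const_mul _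
  have h2 : ∑ j ∈ range M, ∑ k ∈ range M, A j * conj (A k) * (if κ j - κ k = 0 then 1 else 0) =
      ((∑ j ∈ range M, ‖A j‖ ^ 2 : ℝ) : ℂ) := by
    rw [Complex.ofReal_sum]
    refine Finset.sum_congr rfl fun j hj => ?_
    rw [Finset.sum_eq_single j]
    · rw [sub_self, if_pos rfl, mul_one, Complex.mul_conj, Complex.normSq_eq_norm_sq]
    · intro k _ hk
      rw [if_neg, mul_zero]
      intro h
      exact hk (hκ (sub_eq_zero.1 h).symm)
    · intro h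
      exact absurd hj h
  rw [h2] at h1
  have h3 := (Complex.continuous_re.tendsto _).comp h1
  simp only [Complex.ofReal_re] at h3
  refine h3.congr' ?_
  filter_upwards [self_mem_nhdsWithin] with σ hσ
  have h4 := (tp_int M A κ (Set.mem_Ioi.1 hσ)).2
  have h5 : (((σ - 1) * ∫ t in Set.Ioi (1 : ℝ), t ^ (-σ) * ‖tp M A κ t‖ ^ 2 : ℝ) : ℂ) =
      ∑ j ∈ range M, ∑ k ∈ range M, A j * conj (A k) *
      (((σ : ℂ) - 1) * (1 / ((σ : ℂ) - 1 - ((κ j - κ k : ℝ) : ℂ) * Complex.I))) := by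
    rw [Complex.ofReal_mul, h4, Finset.mul_sum]
    refine Finset.sum_congr rfl fun j _ => ?_
    rw [Finset.mul_sum]
    refine Finset.sum_congr rfl fun k _ => ?_
    push_cast
    ring
  simp only [Function.comp]
  rw [← h5, Complex.ofReal_re]

/-! ### The inequality -/

theorem S_measurable : Measurable S := by
  have : S = (fun n : ℕ => ∑ k ∈ Ioc 0 n, w k) ∘ (fun x : ℝ => ⌊x⌋₊) := rfl
  rw [this]
  exact (measurable_from_nat).comp Nat.measurable_floor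

/-- the integral -/
noncomputable def I0 (σ κ : ℝ) : ℂ :=
  ∫ t in Set.Ioi (1 : ℝ), (S t : ℂ) * (((t ^ (-σ) / t : ℝ) : ℂ) * e (-κ) t)

theorem S_term_measurable (σ κ : ℝ) : Measurable (fun t : ℝ =>
    (S t : ℂ) * (((t ^ (-σ) / t : ℝ) : ℂ) * e (-κ) t)) := by
  have h1 : Measurable (fun t : ℝ => (S t : ℂ)) := Complex.measurable_ofReal.comp S_measurable
  have h2 : Measurable (fun t : ℝ => ((t ^ (-σ) / t : ℝ) : ℂ)) := by
    refine Complex.measurable_ofReal.comp ?_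
    fun_prop
  exact h1.mul (h2.mul (e_measurable _))

theorem S_term_integrable {C : ℝ} (hC : ∀ t : ℝ, 1 ≤ t → |S t| ≤ C * t) {σ : ℝ} (hσ : 1 < σ)
    (κ : ℝ) : IntegrableOn (fun t : ℝ => (S t : ℂ) * (((t ^ (-σ) / t : ℝ) : ℂ) * e (-κ) t))
      (Set.Ioi 1) := by
  have h1 : IntegrableOn (fun t : ℝ => C * t ^ (-σ)) (Set.Ioi 1) :=
    (integrableOn_Ioi_rpow_of_lt (by linarith) one_pos).const_mul C
  refine Integrable.mono' h1 (S_term_measurable σ κ).aestronglyMeasurable ?_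
  refine (ae_restrict_iff' measurableSet_Ioi).2 (Eventually.of_forall fun t ht => ?_)
  have ht1 : (1 : ℝ) < t := ht
  have ht0 : 0 < t := by linarith
  rw [norm_mul, norm_mul, e_norm ht0, mul_one, Complex.norm_real, Complex.norm_real,
    Real.norm_eq_abs, Real.norm_eq_abs, abs_of_nonneg (by positivity : 0 ≤ t ^ (-σ) / t)]
  calc |S t| * (t ^ (-σ) / t) ≤ (C * t) * (t ^ (-σ) / t) := by
        refine mul_le_mul_of_nonneg_right (hC t ht1.le) (by positivity)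
    _ = C * t ^ (-σ) := by field_simp

theorem ineq {a C X : ℝ} (ha : 0 ≤ a) (hC0 : 0 ≤ C) (hC : ∀ t : ℝ, 1 ≤ t → |S t| ≤ C * t)
    (hX1 : 1 ≤ X) (hX : ∀ t : ℝ, X ≤ t → |S t| ≤ a * t) (M : ℕ) (A B : ℕ → ℂ) (κ κ' : ℕ → ℝ)
    {σ : ℝ} (hσ : 1 < σ) :
    ‖∑ j ∈ range M, ∑ k ∈ range M, A j * conj (B k) * I0 σ (κ' k - κ j)‖ ≤
      a / 2 * ((∫ t in Set.Ioi (1 : ℝ), t ^ (-σ) * ‖tp M A κ t‖ ^ 2) +
        ∫ t in Set.Ioi (1 : ℝ), t ^ (-σ) * ‖tp M B κ' t‖ ^ 2) +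
      C * X ^ 2 * ((∑ j ∈ range M, ‖A j‖) ^ 2 + (∑ j ∈ range M, ‖B j‖) ^ 2) / 2 := by
  set Q : ℝ := (∑ j ∈ range M, ‖A j‖) ^ 2 + (∑ j ∈ range M, ‖B j‖) ^ 2 with hQ
  have e1 : ∑ j ∈ range M, ∑ k ∈ range M, A j * conj (B k) * I0 σ (κ' k - κ j) =
      ∫ t in Set.Ioi (1 : ℝ), ∑ j ∈ range M, ∑ k ∈ range M, A j * conj (B k) *
        ((S t : ℂ) * (((t ^ (-σ) / t : ℝ) : ℂ) * e (-(κ' k - κ j)) t)) := by
    rw [integral_finsetSum _ fun j _ => integrable_finsetSum _ fun k _ =>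
      (S_term_integrable hC hσ _).const_mul _]
    refine Finset.sum_congr rfl fun j _ => ?_
    rw [integral_finsetSum _ fun k _ => (S_term_integrable hC hσ _).const_mul _]
    refine Finset.sum_congr rfl fun k _ => ?_
    rw [integral_const_mul]
    rfl
  have i1 := (tp_int M A κ hσ).1
  have i2 := (tp_int M B κ' hσ).1
  have i3 : IntegrableOn (fun t : ℝ => t ^ (-2 : ℝ)) (Set.Ioi 1) :=
    integrableOn_Ioi_rpow_of_lt (by norm_num) one_pos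
  have i5 : IntegrableOn (fun t : ℝ => t ^ (-σ) * ‖tp M A κ t‖ ^ 2 +
      t ^ (-σ) * ‖tp M B κ' t‖ ^ 2) (Set.Ioi 1) := i1.add i2
  have i4 : IntegrableOn (fun t : ℝ => a / 2 * (t ^ (-σ) * ‖tp M A κ t‖ ^ 2 +
      t ^ (-σ) * ‖tp M B κ' t‖ ^ 2) + C * X ^ 2 * Q / 2 * t ^ (-2 : ℝ)) (Set.Ioi 1) :=
    (i5.const_mul _).add (i3.const_mul _)
  have h1 : ∫ t in Set.Ioi (1 : ℝ), (a / 2 * (t ^ (-σ) * ‖tp M A κ t‖ ^ 2 +
      t ^ (-σ) * ‖tp M B κ' t‖ ^ 2) + C * X ^ 2 * Q / 2 * t ^ (-2 : ℝ)) =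
      a / 2 * ((∫ t in Set.Ioi (1 : ℝ), t ^ (-σ) * ‖tp M A κ t‖ ^ 2) +
        ∫ t in Set.Ioi (1 : ℝ), t ^ (-σ) * ‖tp M B κ' t‖ ^ 2) + C * X ^ 2 * Q / 2 := by
    rw [integral_add (i5.const_mul _) (i3.const_mul _), integral_const_mul,
      integral_const_mul]
    have h2 : ∫ t in Set.Ioi (1 : ℝ), t ^ (-2 : ℝ) = 1 := by
      rw [integral_Ioi_rpow_of_lt (by norm_num) one_pos]
      norm_num
    rw [h2, mul_one]
    congr 2
    exact integral_add i1 i2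
  rw [e1, ← h1]
  refine norm_integral_le_of_norm_le i4 ?_
  refine (ae_restrict_iff' measurableSet_Ioi).2 (Eventually.of_forall fun t ht => ?_)
  have ht1 : (1 : ℝ) < t := ht
  have ht0 : 0 < t := by linarith
  have e2 : ∑ j ∈ range M, ∑ k ∈ range M, A j * conj (B k) *
        ((S t : ℂ) * (((t ^ (-σ) / t : ℝ) : ℂ) * e (-(κ' k - κ j)) t)) =
      (S t : ℂ) * ((t ^ (-σ) / t : ℝ) : ℂ) * (tp M A κ t * conj (tp M B κ' t)) := by
    unfold tp
    rw [map_sum, Finset.sum_mul_sum, Finset.mul_sum]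
    refine Finset.sum_congr rfl fun j _ => ?_
    rw [Finset.mul_sum]
    refine Finset.sum_congr rfl fun k _ => ?_
    rw [map_mul, e_conj ht0, show -(κ' k - κ j) = κ j + -κ' k by ring, e_add ht0]
    ring
  rw [e2, norm_mul, norm_mul, norm_mul, Complex.norm_real, Complex.norm_real, Complex.norm_conj,
    Real.norm_eq_abs, Real.norm_eq_abs, abs_of_nonneg (by positivity : 0 ≤ t ^ (-σ) / t)]
  set x := ‖tp M A κ t‖ with hx
  set y := ‖tp M B κ' t‖ with hy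
  have hx0 : 0 ≤ x := norm_nonneg _
  have hy0 : 0 ≤ y := norm_nonneg _
  have hxy : x * y ≤ (x ^ 2 + y ^ 2) / 2 := by nlinarith [sq_nonneg (x - y)]
  have hxyQ : x ^ 2 + y ^ 2 ≤ Q := by
    rw [hQ]
    exact add_le_add (pow_le_pow_left₀ hx0 (tp_norm M A κ ht0) 2)
      (pow_le_pow_left₀ hy0 (tp_norm M B κ' ht0) 2)
  have ht2 : 0 < t ^ (-2 : ℝ) := Real.rpow_pos_of_pos ht0 _
  have htσ : 0 < t ^ (-σ) := Real.rpow_pos_of_pos ht0 _
  have hmain : |S t| * (t ^ (-σ) / t) ≤ a * t ^ (-σ) + C * X ^ 2 * t ^ (-2 : ℝ) := by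
    rcases le_total X t with h | h
    · have h3 : |S t| * (t ^ (-σ) / t) ≤ (a * t) * (t ^ (-σ) / t) :=
        mul_le_mul_of_nonneg_right (hX t h) (by positivity)
      have h4 : (a * t) * (t ^ (-σ) / t) = a * t ^ (-σ) := by field_simp
      have : 0 ≤ C * X ^ 2 * t ^ (-2 : ℝ) := by positivity
      linarith
    · have h3 : |S t| * (t ^ (-σ) / t) ≤ (C * t) * (t ^ (-σ) / t) :=
        mul_le_mul_of_nonneg_right (hC t ht1.le) (by positivity)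
      have h4 : (C * t) * (t ^ (-σ) / t) = C * t ^ (-σ) := by field_simp
      have h5 : t ^ (-σ) ≤ 1 := Real.rpow_le_one_of_one_le_of_nonpos ht1.le (by linarith)
      have h6 : 1 ≤ X ^ 2 * t ^ (-2 : ℝ) := by
        rw [Real.rpow_neg ht0.le]
        have h7 : t ^ (2 : ℝ) = t ^ 2 := by
          rw [← Real.rpow_natCast]
          norm_num
        rw [h7, ← div_eq_mul_inv, le_div_iff₀ (by positivity), one_mul]
        exact pow_le_pow_left₀ ht0.le h 2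
      have h8 : C * t ^ (-σ) ≤ C * (X ^ 2 * t ^ (-2 : ℝ)) :=
        mul_le_mul_of_nonneg_left (h5.trans h6) hC0
      have : 0 ≤ a * t ^ (-σ) := by positivity
      linarith
  calc |S t| * (t ^ (-σ) / t) * (x * y)
      ≤ (a * t ^ (-σ) + C * X ^ 2 * t ^ (-2 : ℝ)) * ((x ^ 2 + y ^ 2) / 2) := by
        refine mul_le_mul hmain hxy (by positivity) (by positivity)
    _ = a / 2 * (t ^ (-σ) * x ^ 2 + t ^ (-σ) * y ^ 2) +
        C * X ^ 2 * t ^ (-2 : ℝ) / 2 * (x ^ 2 + y ^ 2) := by ring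
    _ ≤ a / 2 * (t ^ (-σ) * x ^ 2 + t ^ (-σ) * y ^ 2) +
        C * X ^ 2 * t ^ (-2 : ℝ) / 2 * Q := by
        have : C * X ^ 2 * t ^ (-2 : ℝ) / 2 * (x ^ 2 + y ^ 2) ≤
          C * X ^ 2 * t ^ (-2 : ℝ) / 2 * Q := mul_le_mul_of_nonneg_left hxyQ (by positivity)
        linarith
    _ = _ := by ring

/-- The inequality in the limit -/
theorem limit_ineq {a C X : ℝ} (ha : 0 ≤ a) (hC0 : 0 ≤ C) (hC : ∀ t : ℝ, 1 ≤ t → |S t| ≤ C * t)
    (hX1 : 1 ≤ X) (hX : ∀ t : ℝ, X ≤ t → |S t| ≤ a * t) (M : ℕ) (A B : ℕ → ℂ) (κ κ' : ℕ → ℝ)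
    (hκ : Function.Injective κ) (hκ' : Function.Injective κ') (c : ℕ → ℕ → ℂ) (δ : ℕ → ℕ → ℝ)
    (hc : ∀ j < M, ∀ k < M, ∀ ε : ℝ, 0 < ε → ∀ᶠ σ : ℝ in 𝓝[>] 1,
      ‖((σ : ℂ) - 1) * I0 σ (κ' k - κ j) - c j k‖ ≤ δ j k + ε) :
    ‖∑ j ∈ range M, ∑ k ∈ range M, A j * conj (B k) * c j k‖ ≤
      a / 2 * (∑ j ∈ range M, ‖A j‖ ^ 2 + ∑ j ∈ range M, ‖B j‖ ^ 2) +
      ∑ j ∈ range M, ∑ k ∈ range M, ‖A j‖ * ‖B k‖ * δ j k := by
  set Q : ℝ := (∑ j ∈ range M, ‖A j‖) ^ 2 + (∑ j ∈ range M, ‖B j‖) ^ 2 with hQ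
  set R : ℝ := ∑ j ∈ range M, ∑ k ∈ range M, ‖A j‖ * ‖B k‖ with hR
  have hR0 : 0 ≤ R := Finset.sum_nonneg fun j _ => Finset.sum_nonneg fun k _ => by positivity
  refine le_of_forall_pos_le_add fun ε hε => ?_
  set ε' : ℝ := ε / (R + 1) with hε'
  have hε'0 : 0 < ε' := by positivity
  have hev : ∀ᶠ σ : ℝ in 𝓝[>] 1, ∀ j ∈ range M, ∀ k ∈ range M,
      ‖((σ : ℂ) - 1) * I0 σ (κ' k - κ j) - c j k‖ ≤ δ j k + ε' := by
    rw [Filter.eventually_all_finset]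
    intro j hj
    rw [Filter.eventually_all_finset]
    intro k hk
    exact hc j (Finset.mem_range.1 hj) k (Finset.mem_range.1 hk) ε' hε'0
  have h1 : Tendsto (fun σ : ℝ => a / 2 * ((σ - 1) * (∫ t in Set.Ioi (1 : ℝ),
        t ^ (-σ) * ‖tp M A κ t‖ ^ 2) + (σ - 1) * ∫ t in Set.Ioi (1 : ℝ),
        t ^ (-σ) * ‖tp M B κ' t‖ ^ 2) + (σ - 1) * (C * X ^ 2 * Q / 2)) (𝓝[>] 1)
      (𝓝 (a / 2 * (∑ j ∈ range M, ‖A j‖ ^ 2 + ∑ j ∈ range M, ‖B j‖ ^ 2) +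
        (1 - 1) * (C * X ^ 2 * Q / 2))) := by
    refine (((tp_mean M A κ hκ).add (tp_mean M B κ' hκ')).const_mul _).add ?_
    refine Tendsto.mul_const _ ?_
    have : Continuous fun σ : ℝ => σ - 1 := by fun_prop
    exact (this.tendsto 1).mono_left nhdsWithin_le_nhds
  have h2 : ∀ᶠ σ : ℝ in 𝓝[>] 1, ‖∑ j ∈ range M, ∑ k ∈ range M, A j * conj (B k) * c j k‖ ≤
      (a / 2 * ((σ - 1) * (∫ t in Set.Ioi (1 : ℝ),
        t ^ (-σ) * ‖tp M A κ t‖ ^ 2) + (σ - 1) * ∫ t in Set.Ioi (1 : ℝ),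
        t ^ (-σ) * ‖tp M B κ' t‖ ^ 2) + (σ - 1) * (C * X ^ 2 * Q / 2)) +
      (∑ j ∈ range M, ∑ k ∈ range M, ‖A j‖ * ‖B k‖ * δ j k + ε) := by
    filter_upwards [hev, self_mem_nhdsWithin] with σ hσ1 hσ2
    have hσ : 1 < σ := hσ2
    have h3 := ineq ha hC0 hC hX1 hX M A B κ κ' hσ
    have h4 : ∑ j ∈ range M, ∑ k ∈ range M, A j * conj (B k) * c j k =
        ((σ : ℂ) - 1) * ∑ j ∈ range M, ∑ k ∈ range M, A j * conj (B k) * I0 σ (κ' k - κ j) -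
        ∑ j ∈ range M, ∑ k ∈ range M, A j * conj (B k) *
          (((σ : ℂ) - 1) * I0 σ (κ' k - κ j) - c j k) := by
      rw [Finset.mul_sum, ← Finset.sum_sub_distrib]
      refine Finset.sum_congr rfl fun j _ => ?_
      rw [Finset.mul_sum, ← Finset.sum_sub_distrib]
      refine Finset.sum_congr rfl fun k _ => ?_
      ring
    have h5 : ‖∑ j ∈ range M, ∑ k ∈ range M, A j * conj (B k) *
          (((σ : ℂ) - 1) * I0 σ (κ' k - κ j) - c j k)‖ ≤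
        ∑ j ∈ range M, ∑ k ∈ range M, ‖A j‖ * ‖B k‖ * δ j k + ε := by
      have h6 : ‖∑ j ∈ range M, ∑ k ∈ range M, A j * conj (B k) *
          (((σ : ℂ) - 1) * I0 σ (κ' k - κ j) - c j k)‖ ≤
          ∑ j ∈ range M, ∑ k ∈ range M, ‖A j‖ * ‖B k‖ * (δ j k + ε') := by
        refine (norm_sum_le _ _).trans (Finset.sum_le_sum fun j hj => ?_)
        refine (norm_sum_le _ _).trans (Finset.sum_le_sum fun k hk => ?_)
        rw [norm_mul, norm_mul, Complex.norm_conj]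
        exact mul_le_mul_of_nonneg_left (hσ1 j hj k hk) (by positivity)
      have h7 : ∑ j ∈ range M, ∑ k ∈ range M, ‖A j‖ * ‖B k‖ * (δ j k + ε') =
          ∑ j ∈ range M, ∑ k ∈ range M, ‖A j‖ * ‖B k‖ * δ j k + R * ε' := by
        rw [hR, Finset.sum_mul, ← Finset.sum_add_distrib]
        refine Finset.sum_congr rfl fun j _ => ?_
        rw [Finset.sum_mul, ← Finset.sum_add_distrib]
        refine Finset.sum_congr rfl fun k _ => ?_
        ring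
      have h8 : R * ε' ≤ ε := by
        rw [hε', ← mul_div_assoc, div_le_iff₀ (by positivity)]
        nlinarith
      linarith
    rw [h4]
    refine (norm_sub_le _ _).trans ?_
    have h9 : ‖((σ : ℂ) - 1)‖ = σ - 1 := by
      have : ((σ : ℂ) - 1) = ((σ - 1 : ℝ) : ℂ) := by push_cast; ring
      rw [this, Complex.norm_real, Real.norm_of_nonneg (by linarith)]
    rw [norm_mul, h9]
    have h10 := mul_le_mul_of_nonneg_left h3 (by linarith : 0 ≤ σ - 1)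
    nlinarith [h10, h5]
  have h3 := h1.add_const (∑ j ∈ range M, ∑ k ∈ range M, ‖A j‖ * ‖B k‖ * δ j k + ε)
  have h4 := ge_of_tendsto h3 h2
  linarith

end Pool.Agent.H701M
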