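import Pool.Agent.H701M.B2
import Pool.Agent.H701M.B3

/-!
The limits at the poles.
-/

set_option autoImplicit false

open Finset Filter Topology MeasureTheory ComplexConjugate

namespace Pool.Agent.H701M

theorem cast_S (t : ℝ) : ∑ k ∈ Icc 1 ⌊t⌋₊, ((w k : ℝ) : ℂ) = (S t : ℂ) := by
  unfold S
  rw [Complex.ofReal_sum]
  rfl

theorem bigO {C : ℝ} (hC : ∀ t : ℝ, 1 ≤ t → |S t| ≤ C * t) :
    (fun n : ℕ => ∑ k ∈ Icc 1 n, ((w k : ℝ) : ℂ)) =O[atTop] fun n => (n : ℝ) ^ (1 : ℝ) := by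
  refine Asymptotics.IsBigO.of_bound C ?_
  filter_upwards [eventually_ge_atTop 1] with n hn
  have h1 := hC n (by exact_mod_cast hn)
  have h2 := cast_S (n : ℝ)
  rw [Nat.floor_natCast] at h2
  rw [h2, Real.rpow_one, Complex.norm_real, Real.norm_eq_abs, Real.norm_of_nonneg (by positivity)]
  exact h1

theorem I0_eq {C : ℝ} (hC : ∀ t : ℝ, 1 ≤ t → |S t| ≤ C * t) {σ : ℝ} (hσ : 1 < σ) (κ : ℝ) :
    F (σ + κ * Complex.I) = (σ + κ * Complex.I) * I0 σ κ := by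
  have hre : (1 : ℝ) < ((σ : ℂ) + κ * Complex.I).re := by simp; exact hσ
  have h1 := LSeries_eq_mul_integral (fun n => ((w n : ℝ) : ℂ)) zero_le_one hre
    (summable_F _ hre) (bigO hC)
  unfold F
  rw [h1]
  congr 1
  unfold I0
  refine setIntegral_congr_fun measurableSet_Ioi fun t ht => ?_
  have ht0 : (0 : ℝ) < t := zero_lt_one.trans ht
  have ht' : (t : ℂ) ≠ 0 := by exact_mod_cast ht0.ne'
  change (∑ k ∈ Icc 1 ⌊t⌋₊, ((w k : ℝ) : ℂ)) * (t : ℂ) ^ (-((σ : ℂ) + κ * Complex.I + 1)) =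
    (S t : ℂ) * (((t ^ (-σ) / t : ℝ) : ℂ) * e (-κ) t)
  rw [cast_S]
  congr 1
  rw [show -((σ : ℂ) + κ * Complex.I + 1) = (-(σ : ℂ) + ((-κ : ℝ) : ℂ) * Complex.I) - 1 by
    push_cast; ring, Complex.cpow_sub _ _ ht', Complex.cpow_one, cpow_e ht0]
  push_cast
  ring

theorem I0_conj (σ κ : ℝ) : I0 σ (-κ) = conj (I0 σ κ) := by
  unfold I0
  rw [← integral_conj]
  refine setIntegral_congr_fun measurableSet_Ioi fun t ht => ?_
  have ht0 : (0 : ℝ) < t := zero_lt_one.trans ht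
  change (S t : ℂ) * (((t ^ (-σ) / t : ℝ) : ℂ) * e (- -κ) t) =
    conj ((S t : ℂ) * (((t ^ (-σ) / t : ℝ) : ℂ) * e (-κ) t))
  rw [map_mul, map_mul, Complex.conj_ofReal, Complex.conj_ofReal, e_conj ht0]

theorem lim_log : Tendsto (fun σ : ℝ => (σ - 1) / (1 - 2 * (2 : ℝ) ^ (-σ))) (𝓝[>] 1)
    (𝓝 (Real.log 2)⁻¹) := by
  have h1 : HasDerivAt (fun σ : ℝ => 1 - 2 * (2 : ℝ) ^ (-σ)) (Real.log 2) 1 := by
    have h2 : HasDerivAt (fun σ : ℝ => (2 : ℝ) ^ (-σ)) (Real.log 2 * (-1) * (2 : ℝ) ^ (-(1 : ℝ))) 1 := by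
      exact (hasDerivAt_neg (1 : ℝ)).const_rpow (by norm_num)
    have h3 := (h2.const_mul 2).const_sub 1
    refine h3.congr_deriv ?_
    rw [Real.rpow_neg_one]
    ring
  rw [hasDerivAt_iff_tendsto_slope] at h1
  have h2 := (h1.mono_left (nhdsWithin_mono (1 : ℝ) (fun x hx => (ne_of_gt hx : x ≠ 1) :
    Set.Ioi (1 : ℝ) ⊆ {1}ᶜ))).inv₀ (Real.log_pos (by norm_num)).ne'
  refine h2.congr' ?_
  filter_upwards [self_mem_nhdsWithin] with σ _
  rw [slope_def_field, inv_div]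
  congr 1
  rw [Real.rpow_neg_one]
  ring

/-- the odd primes below `2 K` -/
def oddPrimes (K : ℕ) : Finset ℕ := ((range (2 * K)).filter Nat.Prime).erase 2

/-- the period of the imaginary parts of the poles is `2 τ` -/
noncomputable def τ : ℝ := Real.pi / Real.log 2

theorem two_cpow (σ : ℝ) (m : ℕ) :
    ((2 : ℕ) : ℂ) ^ (-((σ : ℂ) + (((2 * m + 1) * τ : ℝ) : ℂ) * Complex.I)) =
      -(((2 : ℝ) ^ (-σ) : ℝ) : ℂ) := by
  have h2 : ((2 : ℕ) : ℂ) ≠ 0 := by norm_num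
  rw [neg_add, Complex.cpow_add _ _ h2, Complex.ofReal_cpow (by norm_num)]
  have h1 : ((2 : ℕ) : ℂ) ^ (-((((2 * m + 1) * τ : ℝ) : ℂ) * Complex.I)) = -1 := by
    rw [Complex.cpow_def_of_ne_zero h2]
    have hl : Complex.log ((2 : ℕ) : ℂ) = ((Real.log 2 : ℝ) : ℂ) := by
      rw [← Complex.natCast_log]
      norm_num
    have hlog : Real.log 2 ≠ 0 := (Real.log_pos (by norm_num)).ne'
    rw [hl]
    have h3 : ((Real.log 2 : ℝ) : ℂ) * -((((2 * m + 1) * τ : ℝ) : ℂ) * Complex.I) =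
        -(Real.pi * Complex.I) + ((-m : ℤ) : ℂ) * (2 * Real.pi * Complex.I) := by
      have h4 : Real.log 2 * ((2 * m + 1) * τ) = (2 * m + 1) * Real.pi := by
        unfold τ
        field_simp
      have h5 : ((Real.log 2 : ℝ) : ℂ) * (((2 * m + 1) * τ : ℝ) : ℂ) =
          (2 * m + 1) * (Real.pi : ℂ) := by
        rw [← Complex.ofReal_mul, h4]
        push_cast
        ring
      have h6 : ((Real.log 2 : ℝ) : ℂ) * -((((2 * m + 1) * τ : ℝ) : ℂ) * Complex.I) =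
          -(((Real.log 2 : ℝ) : ℂ) * (((2 * m + 1) * τ : ℝ) : ℂ)) * Complex.I := by ring
      rw [h6, h5]
      push_cast
      ring
    rw [h3, Complex.exp_add, Complex.exp_int_mul_two_pi_mul_I, mul_one, Complex.exp_neg,
      Complex.exp_pi_mul_I]
    norm_num
  rw [h1]
  push_cast
  ring

/-- the number whose inverse is the Fourier coefficient, up to the tail of the Euler product -/
noncomputable def Lam (K m : ℕ) : ℂ :=
  (Real.log 2 : ℂ) * ((1 : ℂ) + (((2 * m + 1) * τ : ℝ) : ℂ) * Complex.I) * (9 / 4) *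
    riemannZeta (1 + (((2 * m + 1) * τ : ℝ) : ℂ) * Complex.I) ^ 2 *
    ∏ p ∈ oddPrimes K, D ((p : ℂ) ^ (-(1 + (((2 * m + 1) * τ : ℝ) : ℂ) * Complex.I)))

theorem D_ne {p : ℕ} (hp : p.Prime) (h2 : p ≠ 2) {s : ℂ} (hs : 1 ≤ s.re) :
    D ((p : ℂ) ^ (-s)) ≠ 0 := by
  intro h
  unfold D at h
  have h3 : (3 : ℝ) ≤ p := by
    have := hp.two_le
    have : 3 ≤ p := by omega
    exact_mod_cast this
  have h5 : ‖(p : ℂ) ^ (-s)‖ < 1 / 2 := by
    rw [Complex.norm_natCast_cpow_of_pos hp.pos]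
    have h6 : (p : ℝ) ^ ((-s).re) ≤ (p : ℝ) ^ (-1 : ℝ) := by
      refine Real.rpow_le_rpow_of_exponent_le (by linarith) ?_
      simp only [Complex.neg_re]
      linarith
    rw [Real.rpow_neg_one] at h6
    have h7 : (p : ℝ)⁻¹ ≤ 3⁻¹ := inv_anti₀ (by norm_num) h3
    linarith [show (3 : ℝ)⁻¹ < 1 / 2 by norm_num]
  rcases mul_eq_zero.1 h with h6 | h6
  · have h7 : (p : ℂ) ^ (-s) = -(1 / 2) := by linear_combination (1 / 2) * h6
    rw [h7] at h5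
    norm_num at h5
  · have h7 : (p : ℂ) ^ (-s) = 1 := by
      have := pow_eq_zero_iff (two_ne_zero) |>.1 h6
      linear_combination -this
    rw [h7] at h5
    norm_num at h5

theorem τ_pos : 0 < τ := div_pos Real.pi_pos (Real.log_pos (by norm_num))

theorem Lam_ne (K m : ℕ) : Lam K m ≠ 0 := by
  unfold Lam
  have hτ : 0 < (2 * (m : ℝ) + 1) * τ := mul_pos (by positivity) τ_pos
  have hs : (1 : ℂ) + (((2 * m + 1) * τ : ℝ) : ℂ) * Complex.I ≠ 0 := by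
    intro h
    have := congrArg Complex.re h
    simp at this
  have hlog : (Real.log 2 : ℂ) ≠ 0 := by
    exact_mod_cast (Real.log_pos (by norm_num : (1 : ℝ) < 2)).ne'
  have hz : riemannZeta (1 + (((2 * m + 1) * τ : ℝ) : ℂ) * Complex.I) ≠ 0 := by
    apply riemannZeta_ne_zero_of_one_le_re
    simp
  refine mul_ne_zero (mul_ne_zero (mul_ne_zero (mul_ne_zero hlog hs) (by norm_num))
    (pow_ne_zero 2 hz)) ?_
  refine Finset.prod_ne_zero_iff.2 fun p hp => ?_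
  unfold oddPrimes at hp
  rw [Finset.mem_erase, Finset.mem_filter] at hp
  exact D_ne hp.2.2 hp.1 (by simp)

theorem key {C : ℝ} (hC : ∀ t : ℝ, 1 ≤ t → |S t| ≤ C * t) (K : ℕ) (hK : 32 ≤ K) (m : ℕ)
    (ε : ℝ) (hε : 0 < ε) : ∀ᶠ σ : ℝ in 𝓝[>] 1,
      ‖((σ : ℂ) - 1) * I0 σ ((2 * m + 1) * τ) - (Lam K m)⁻¹‖ ≤
        (Real.exp (31 / (40 * K)) - 1) * ‖(Lam K m)⁻¹‖ + ε := by
  set κ : ℝ := (2 * m + 1) * τ with hκ
  set θ : ℝ := Real.exp (31 / (40 * K)) - 1 with hθ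
  have hθ0 : 0 ≤ θ := by
    have : 0 ≤ 31 / (40 * (K : ℝ)) := by positivity
    have := Real.add_one_le_exp (31 / (40 * (K : ℝ)))
    linarith
  set s₀ : ℂ := 1 + (κ : ℂ) * Complex.I with hs₀
  have hκ0 : 0 < κ := mul_pos (by positivity) τ_pos
  have hs1 : s₀ ≠ 1 := by
    intro h
    rw [hs₀] at h
    have := congrArg Complex.im h
    simp at this
    exact hκ0.ne' this
  -- the main function
  set G : ℝ → ℂ := fun σ => (((σ - 1) / (1 - 2 * (2 : ℝ) ^ (-σ)) : ℝ) : ℂ) *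
    (((σ : ℂ) + κ * Complex.I) * (1 + (((2 : ℝ) ^ (-σ) : ℝ) : ℂ)) ^ 2 *
      riemannZeta ((σ : ℂ) + κ * Complex.I) ^ 2 *
      ∏ p ∈ oddPrimes K, D ((p : ℂ) ^ (-((σ : ℂ) + κ * Complex.I))))⁻¹ with hG
  have hc : Tendsto (fun σ : ℝ => (σ : ℂ) + κ * Complex.I) (𝓝[>] 1) (𝓝 s₀) := by
    have h1 : Continuous (fun σ : ℝ => (σ : ℂ) + κ * Complex.I) := by fun_prop
    have h2 := h1.tendsto 1
    simp only [Complex.ofReal_one] at h2
    exact h2.mono_left nhdsWithin_le_nhds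
  have hlim : Tendsto G (𝓝[>] 1) (𝓝 (Lam K m)⁻¹) := by
    have l1 : Tendsto (fun σ : ℝ => (((σ - 1) / (1 - 2 * (2 : ℝ) ^ (-σ)) : ℝ) : ℂ)) (𝓝[>] 1)
        (𝓝 (((Real.log 2)⁻¹ : ℝ) : ℂ)) :=
      (Complex.continuous_ofReal.tendsto _).comp lim_log
    have l2 : Tendsto (fun σ : ℝ => (1 + (((2 : ℝ) ^ (-σ) : ℝ) : ℂ)) ^ 2) (𝓝[>] 1)
        (𝓝 (9 / 4)) := by
      have h1 : ContinuousAt (fun σ : ℝ => (1 + (((2 : ℝ) ^ (-σ) : ℝ) : ℂ)) ^ 2) 1 := by
        have h3 : ContinuousAt (fun σ : ℝ => (2 : ℝ) ^ (-σ)) 1 :=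
          continuousAt_const.rpow continuousAt_neg (Or.inl (by norm_num))
        exact (continuousAt_const.add (Complex.continuous_ofReal.continuousAt.comp h3)).pow 2
      have h2 := h1.tendsto
      have h3 : (1 + (((2 : ℝ) ^ (-(1 : ℝ)) : ℝ) : ℂ)) ^ 2 = 9 / 4 := by
        rw [Real.rpow_neg_one]
        norm_num
      rw [h3] at h2
      exact h2.mono_left nhdsWithin_le_nhds
    have l3 : Tendsto (fun σ : ℝ => riemannZeta ((σ : ℂ) + κ * Complex.I) ^ 2) (𝓝[>] 1)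
        (𝓝 (riemannZeta s₀ ^ 2)) := by
      have hz : ContinuousAt riemannZeta s₀ := (differentiableAt_riemannZeta hs1).continuousAt
      exact (hz.tendsto.comp hc).pow 2
    have l4 : Tendsto (fun σ : ℝ => ∏ p ∈ oddPrimes K, D ((p : ℂ) ^ (-((σ : ℂ) + κ * Complex.I))))
        (𝓝[>] 1) (𝓝 (∏ p ∈ oddPrimes K, D ((p : ℂ) ^ (-s₀)))) := by
      refine tendsto_finsetProd _ fun p hp => ?_
      unfold oddPrimes at hp
      rw [Finset.mem_erase, Finset.mem_filter] at hp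
      have h1 : ContinuousAt (fun s : ℂ => D ((p : ℂ) ^ (-s))) s₀ := by
        have h2 : ContinuousAt (fun s : ℂ => (p : ℂ) ^ (-s)) s₀ :=
          ContinuousAt.const_cpow continuousAt_neg (Or.inl (Nat.cast_ne_zero.2 hp.2.2.pos.ne'))
        unfold D
        fun_prop
      exact h1.tendsto.comp hc
    have l5 := l1.mul ((((hc.mul l2).mul l3).mul l4).inv₀ (by
      have := Lam_ne K m
      intro h
      apply this
      unfold Lam
      rw [← hκ, ← hs₀]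
      have h6 : (Real.log 2 : ℂ) * s₀ * (9 / 4) * riemannZeta s₀ ^ 2 *
          ∏ p ∈ oddPrimes K, D ((p : ℂ) ^ (-s₀)) = (Real.log 2 : ℂ) * (s₀ * (9 / 4) *
            riemannZeta s₀ ^ 2 * ∏ p ∈ oddPrimes K, D ((p : ℂ) ^ (-s₀))) := by ring
      rw [h6, h, mul_zero]))
    have e1 : (((Real.log 2)⁻¹ : ℝ) : ℂ) * (s₀ * (9 / 4) * riemannZeta s₀ ^ 2 *
        ∏ p ∈ oddPrimes K, D ((p : ℂ) ^ (-s₀)))⁻¹ = (Lam K m)⁻¹ := by
      unfold Lam
      rw [← hκ, ← hs₀, Complex.ofReal_inv, ← mul_inv]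
      congr 1
      ring
    rw [e1] at l5
    exact l5
  have hG1 : Tendsto (fun σ => ‖G σ - (Lam K m)⁻¹‖ + θ * ‖G σ‖) (𝓝[>] 1)
      (𝓝 (0 + θ * ‖(Lam K m)⁻¹‖)) := by
    refine Tendsto.add ?_ (hlim.norm.const_mul θ)
    rw [← tendsto_iff_norm_sub_tendsto_zero]
    exact hlim
  have hev := hG1.eventually (gt_mem_nhds (show 0 + θ * ‖(Lam K m)⁻¹‖ < θ * ‖(Lam K m)⁻¹‖ + ε by
    linarith))
  filter_upwards [hev, self_mem_nhdsWithin] with σ h1 h2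
  have hσ : 1 < σ := h2
  have hre : (1 : ℝ) < ((σ : ℂ) + κ * Complex.I).re := by simp; exact hσ
  set s : ℂ := (σ : ℂ) + κ * Complex.I with hs
  have hs0 : s ≠ 0 := ne_zero_of_re hre
  have hz : riemannZeta s ≠ 0 := riemannZeta_ne_zero_of_one_le_re hre.le
  have ht := tail s hre K hK
  have hmem : 2 ∈ (range (2 * K)).filter Nat.Prime := by
    rw [Finset.mem_filter, Finset.mem_range]
    exact ⟨by omega, Nat.prime_two⟩
  have hP : ∏ p ∈ (range (2 * K)).filter Nat.Prime, D ((p : ℂ) ^ (-s)) =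
      D (((2 : ℕ) : ℂ) ^ (-s)) * ∏ p ∈ oddPrimes K, D ((p : ℂ) ^ (-s)) :=
    (Finset.mul_prod_erase _ (fun p : ℕ => D ((p : ℂ) ^ (-s))) hmem).symm
  have h2s : ((2 : ℕ) : ℂ) ^ (-s) = -(((2 : ℝ) ^ (-σ) : ℝ) : ℂ) := by
    rw [hs, hκ]
    exact two_cpow σ m
  rw [hP, h2s] at ht
  set u : ℝ := (2 : ℝ) ^ (-σ) with hu
  set Q : ℂ := ∏ p ∈ oddPrimes K, D ((p : ℂ) ^ (-s)) with hQ
  have hQ0 : Q ≠ 0 := by
    refine Finset.prod_ne_zero_iff.2 fun p hp => ?_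
    unfold oddPrimes at hp
    rw [Finset.mem_erase, Finset.mem_filter] at hp
    exact D_ne hp.2.2 hp.1 hre.le
  have hu1 : 2 * u < 1 := two_rpow_lt hσ
  have hu0 : 0 < u := Real.rpow_pos_of_pos (by norm_num) _
  have hu2 : (1 : ℂ) - 2 * (u : ℂ) ≠ 0 := by
    have : (1 - 2 * u : ℝ) ≠ 0 := by linarith
    have h4 : ((1 - 2 * u : ℝ) : ℂ) ≠ 0 := by exact_mod_cast this
    push_cast at h4
    exact h4
  have hu3 : (1 : ℂ) + (u : ℂ) ≠ 0 := by
    have : (1 + u : ℝ) ≠ 0 := by linarith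
    have h4 : ((1 + u : ℝ) : ℂ) ≠ 0 := by exact_mod_cast this
    push_cast at h4
    exact h4
  -- the identity
  have hid : ((σ : ℂ) - 1) * I0 σ κ = G σ * (D (-(u : ℂ)) * Q * (F s * riemannZeta s ^ 2)) := by
    have h3 := I0_eq hC hσ κ
    rw [← hs] at h3
    have h4 : I0 σ κ = F s / s := by
      rw [h3]
      field_simp
    rw [h4]
    simp only [hG]
    rw [← hs, ← hu, ← hQ]
    unfold D
    push_cast
    field_simp
    ring
  have e2 : ((σ : ℂ) - 1) * I0 σ κ - (Lam K m)⁻¹ = (G σ - (Lam K m)⁻¹) +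
      G σ * (D (-(u : ℂ)) * Q * (F s * riemannZeta s ^ 2) - 1) := by
    rw [hid]
    ring
  rw [e2]
  refine (norm_add_le _ _).trans ?_
  rw [norm_mul]
  have h5 : ‖G σ‖ * ‖D (-(u : ℂ)) * Q * (F s * riemannZeta s ^ 2) - 1‖ ≤ θ * ‖G σ‖ := by
    rw [mul_comm θ]
    exact mul_le_mul_of_nonneg_left ht (norm_nonneg _)
  linarith

end Pool.Agent.H701M
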