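import Mathlib

/-!
Ball arithmetic.
-/

set_option autoImplicit false

open Finset

namespace Pool.Agent.H701M

/-- a ball: centre and radius, in units of `10 ^ (-12)` -/
structure Bl where
  x : ℤ
  y : ℤ
  r : ℤ

/-- the scale -/
def DD : ℤ := 1000000000000

/-- the centre -/
noncomputable def Bl.c (b : Bl) : ℂ := (b.x : ℂ) + (b.y : ℂ) * Complex.I

/-- membership -/
def In (z : ℂ) (b : Bl) : Prop := ‖(DD : ℂ) * z - b.c‖ ≤ (b.r : ℝ)

/-- an upper bound for the norm of the centre -/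
def nb (a : Bl) : ℤ :=
  if a.x.natAbs ≤ a.y.natAbs then a.y.natAbs + (a.x.natAbs + 1) / 2
  else a.x.natAbs + (a.y.natAbs + 1) / 2

theorem sqrt_aux {p q m : ℝ} (hp : 0 ≤ p) (hpq : p ≤ q) (hm : p ≤ 2 * m) :
    p ^ 2 + q ^ 2 ≤ (q + m) ^ 2 := by
  have h1 : q * p ≤ q * (2 * m) := mul_le_mul_of_nonneg_left hm (hp.trans hpq)
  have h2 : p * p ≤ q * p := mul_le_mul_of_nonneg_right hpq hp
  nlinarith [sq_nonneg m]

theorem nb_ge (a : Bl) : ‖a.c‖ ≤ (nb a : ℝ) := by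
  have hx : ((a.x.natAbs : ℤ) : ℝ) ^ 2 = (a.x : ℝ) ^ 2 := by
    have : ((a.x.natAbs : ℤ)) ^ 2 = a.x ^ 2 := by
      rw [Int.natCast_natAbs, sq_abs]
    exact_mod_cast this
  have hy : ((a.y.natAbs : ℤ) : ℝ) ^ 2 = (a.y : ℝ) ^ 2 := by
    have : ((a.y.natAbs : ℤ)) ^ 2 = a.y ^ 2 := by
      rw [Int.natCast_natAbs, sq_abs]
    exact_mod_cast this
  have hn : ‖a.c‖ ^ 2 = (a.x : ℝ) ^ 2 + (a.y : ℝ) ^ 2 := by
    rw [Complex.sq_norm, Complex.normSq_apply]
    simp [Bl.c]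
    ring
  have hx0 : (0 : ℝ) ≤ ((a.x.natAbs : ℤ) : ℝ) := by exact_mod_cast Int.natCast_nonneg _
  have hy0 : (0 : ℝ) ≤ ((a.y.natAbs : ℤ) : ℝ) := by exact_mod_cast Int.natCast_nonneg _
  unfold nb
  split_ifs with h
  · have h1 : ((a.x.natAbs : ℤ) : ℝ) ≤ ((a.y.natAbs : ℤ) : ℝ) := by exact_mod_cast h
    have h2 : ((a.x.natAbs : ℤ) : ℝ) ≤ 2 * ((((a.x.natAbs : ℤ) + 1) / 2 : ℤ) : ℝ) := by
      have : (a.x.natAbs : ℤ) ≤ 2 * (((a.x.natAbs : ℤ) + 1) / 2) := by omega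
      exact_mod_cast this
    have h3 := sqrt_aux hx0 h1 h2
    have h4 : ‖a.c‖ ^ 2 ≤ ((((a.y.natAbs : ℤ) + ((a.x.natAbs : ℤ) + 1) / 2 : ℤ)) : ℝ) ^ 2 := by
      rw [hn, ← hx, ← hy]
      push_cast
      push_cast at h3
      exact h3
    have h5 : (0 : ℝ) ≤ ((((a.y.natAbs : ℤ) + ((a.x.natAbs : ℤ) + 1) / 2 : ℤ)) : ℝ) := by
      have : (0 : ℤ) ≤ (a.y.natAbs : ℤ) + ((a.x.natAbs : ℤ) + 1) / 2 := by omega
      exact_mod_cast this
    exact (pow_le_pow_iff_left₀ (norm_nonneg _) h5 two_ne_zero).1 h4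
  · have h1 : ((a.y.natAbs : ℤ) : ℝ) ≤ ((a.x.natAbs : ℤ) : ℝ) := by
      have : a.y.natAbs ≤ a.x.natAbs := by omega
      exact_mod_cast this
    have h2 : ((a.y.natAbs : ℤ) : ℝ) ≤ 2 * ((((a.y.natAbs : ℤ) + 1) / 2 : ℤ) : ℝ) := by
      have : (a.y.natAbs : ℤ) ≤ 2 * (((a.y.natAbs : ℤ) + 1) / 2) := by omega
      exact_mod_cast this
    have h3 := sqrt_aux hy0 h1 h2
    have h4 : ‖a.c‖ ^ 2 ≤ ((((a.x.natAbs : ℤ) + ((a.y.natAbs : ℤ) + 1) / 2 : ℤ)) : ℝ) ^ 2 := by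
      rw [hn, ← hx, ← hy, add_comm]
      push_cast
      push_cast at h3
      exact h3
    have h5 : (0 : ℝ) ≤ ((((a.x.natAbs : ℤ) + ((a.y.natAbs : ℤ) + 1) / 2 : ℤ)) : ℝ) := by
      have : (0 : ℤ) ≤ (a.x.natAbs : ℤ) + ((a.y.natAbs : ℤ) + 1) / 2 := by omega
      exact_mod_cast this
    exact (pow_le_pow_iff_left₀ (norm_nonneg _) h5 two_ne_zero).1 h4

theorem DD_pos : (0 : ℝ) < (DD : ℝ) := by norm_num [DD]

theorem norm_DD : ‖(DD : ℂ)‖ = (DD : ℝ) := by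
  have : (DD : ℂ) = (((DD : ℤ) : ℝ) : ℂ) := by norm_cast
  rw [this, Complex.norm_real, Real.norm_of_nonneg DD_pos.le]

/-- rounding -/
theorem fdiv (A B : ℤ) (hB : 0 < B) : 0 ≤ (A : ℝ) / B - ((A / B : ℤ) : ℝ) ∧
    (A : ℝ) / B - ((A / B : ℤ) : ℝ) ≤ 1 := by
  have hB' : (0 : ℝ) < B := by exact_mod_cast hB
  have h1 := Int.emod_nonneg A hB.ne'
  have h2 := Int.emod_lt_of_pos A hB
  have h3 := Int.mul_ediv_add_emod A B
  have h4 : (A : ℝ) = B * ((A / B : ℤ) : ℝ) + ((A % B : ℤ) : ℝ) := by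
    exact_mod_cast h3.symm
  have h5 : (0 : ℝ) ≤ ((A % B : ℤ) : ℝ) := by exact_mod_cast h1
  have h6 : ((A % B : ℤ) : ℝ) ≤ B := by exact_mod_cast h2.le
  have h7 : (A : ℝ) / B - ((A / B : ℤ) : ℝ) = ((A % B : ℤ) : ℝ) / B := by
    rw [eq_div_iff hB'.ne', sub_mul, div_mul_cancel₀ _ hB'.ne']
    linarith
  rw [h7]
  exact ⟨by positivity, by rw [div_le_one hB']; exact h6⟩

/-- a complex number, rounded -/
theorem round_norm (A B N : ℤ) (hN : 0 < N) :
    ‖((A : ℂ) + (B : ℂ) * Complex.I) / (N : ℂ) - (((A / N : ℤ) : ℂ) +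
      ((B / N : ℤ) : ℂ) * Complex.I)‖ ≤ 2 := by
  obtain ⟨h1, h2⟩ := fdiv A N hN
  obtain ⟨h3, h4⟩ := fdiv B N hN
  have e : ((A : ℂ) + (B : ℂ) * Complex.I) / (N : ℂ) - (((A / N : ℤ) : ℂ) +
      ((B / N : ℤ) : ℂ) * Complex.I) = (((A : ℝ) / N - ((A / N : ℤ) : ℝ) : ℝ) : ℂ) +
      (((B : ℝ) / N - ((B / N : ℤ) : ℝ) : ℝ) : ℂ) * Complex.I := by
    push_cast
    ring
  rw [e]
  refine (norm_add_le _ _).trans ?_
  rw [norm_mul, Complex.norm_I, mul_one, Complex.norm_real, Complex.norm_real,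
    Real.norm_of_nonneg h1, Real.norm_of_nonneg h3]
  linarith

theorem In.r_nonneg {z : ℂ} {b : Bl} (h : In z b) : (0 : ℝ) ≤ b.r := (norm_nonneg _).trans h

def one : Bl := ⟨DD, 0, 0⟩

theorem in_one : In 1 one := by
  unfold In Bl.c one
  simp

def add (a b : Bl) : Bl := ⟨a.x + b.x, a.y + b.y, a.r + b.r⟩

theorem in_add {z u : ℂ} {a b : Bl} (hz : In z a) (hu : In u b) : In (z + u) (add a b) := by
  unfold In Bl.c add at *
  push_cast
  have e : (DD : ℂ) * (z + u) - ((a.x : ℂ) + b.x + ((a.y : ℂ) + b.y) * Complex.I) =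
      ((DD : ℂ) * z - ((a.x : ℂ) + a.y * Complex.I)) +
        ((DD : ℂ) * u - ((b.x : ℂ) + b.y * Complex.I)) := by ring
  rw [e]
  exact (norm_add_le _ _).trans (add_le_add hz hu)

def neg (a : Bl) : Bl := ⟨-a.x, -a.y, a.r⟩

theorem in_neg {z : ℂ} {a : Bl} (hz : In z a) : In (-z) (neg a) := by
  unfold In Bl.c neg at *
  push_cast
  have e : (DD : ℂ) * (-z) - (-(a.x : ℂ) + -(a.y : ℂ) * Complex.I) =
      -((DD : ℂ) * z - ((a.x : ℂ) + a.y * Complex.I)) := by ring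
  rw [e, norm_neg]
  exact hz

/-- multiplication by `-i` -/
def negI (a : Bl) : Bl := ⟨a.y, -a.x, a.r⟩

theorem in_negI {z : ℂ} {a : Bl} (hz : In z a) : In (-Complex.I * z) (negI a) := by
  unfold In Bl.c negI at *
  push_cast
  have e : (DD : ℂ) * (-Complex.I * z) - ((a.y : ℂ) + -(a.x : ℂ) * Complex.I) =
      -Complex.I * ((DD : ℂ) * z - ((a.x : ℂ) + a.y * Complex.I)) := by
    have := Complex.I_sq
    linear_combination (-(a.y : ℂ)) * this
  rw [e, norm_mul, norm_neg, Complex.norm_I, one_mul]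
  exact hz

/-- complex conjugation -/
def cj (a : Bl) : Bl := ⟨a.x, -a.y, a.r⟩

theorem c_cj (a : Bl) : (cj a).c = (starRingEnd ℂ) a.c := by
  unfold Bl.c cj
  simp

theorem in_cj {z : ℂ} {a : Bl} (hz : In z a) : In ((starRingEnd ℂ) z) (cj a) := by
  unfold In at *
  rw [c_cj]
  have e : (DD : ℂ) * (starRingEnd ℂ) z - (starRingEnd ℂ) a.c =
      (starRingEnd ℂ) ((DD : ℂ) * z - a.c) := by
    rw [map_sub, map_mul]
    simp
  rw [e, Complex.norm_conj]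
  exact hz

/-- division by a natural number -/
def divn (a : Bl) (n : ℕ) : Bl := ⟨a.x / n, a.y / n, a.r / n + 3⟩

theorem in_divn {z : ℂ} {a : Bl} (hz : In z a) {n : ℕ} (hn : 0 < n) :
    In (z / n) (divn a n) := by
  have hn' : (0 : ℝ) < n := by exact_mod_cast hn
  have hN : (0 : ℤ) < (n : ℤ) := by exact_mod_cast hn
  have h1 := round_norm a.x a.y n hN
  have h2 := (fdiv a.r n hN).2
  unfold In Bl.c divn at *
  simp only
  have e : (DD : ℂ) * (z / n) - (((a.x / (n : ℤ) : ℤ) : ℂ) + ((a.y / (n : ℤ) : ℤ) : ℂ) * Complex.I) =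
      ((DD : ℂ) * z - ((a.x : ℂ) + a.y * Complex.I)) / n +
      (((a.x : ℂ) + (a.y : ℂ) * Complex.I) / ((n : ℤ) : ℂ) - (((a.x / (n : ℤ) : ℤ) : ℂ) +
      ((a.y / (n : ℤ) : ℤ) : ℂ) * Complex.I)) := by
    push_cast
    ring
  rw [e]
  refine (norm_add_le _ _).trans ?_
  rw [norm_div, Complex.norm_natCast]
  have h3 : ‖(DD : ℂ) * z - ((a.x : ℂ) + a.y * Complex.I)‖ / n ≤ a.r / n := by gcongr
  push_cast at h1 h2 ⊢
  linarith

/-- multiplication -/
def mul (a b : Bl) : Bl :=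
  ⟨(a.x * b.x - a.y * b.y) / DD, (a.x * b.y + a.y * b.x) / DD,
   (nb a * b.r + nb b * a.r + a.r * b.r) / DD + 3⟩

theorem mul_round (a b : Bl) : ‖a.c * b.c / (DD : ℂ) -
    ((((a.x * b.x - a.y * b.y) / DD : ℤ) : ℂ) +
      (((a.x * b.y + a.y * b.x) / DD : ℤ) : ℂ) * Complex.I)‖ ≤ 2 := by
  have h := round_norm (a.x * b.x - a.y * b.y) (a.x * b.y + a.y * b.x) DD (by norm_num [DD])
  have e : (((a.x * b.x - a.y * b.y : ℤ) : ℂ) + ((a.x * b.y + a.y * b.x : ℤ) : ℂ) * Complex.I) =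
      a.c * b.c := by
    unfold Bl.c
    push_cast
    have := Complex.I_sq
    linear_combination (-(a.y : ℂ) * b.y) * this
  rw [e] at h
  exact h

theorem in_mul {z u : ℂ} {a b : Bl} (hz : In z a) (hu : In u b) : In (z * u) (mul a b) := by
  have hr := mul_round a b
  have h2 := (fdiv (nb a * b.r + nb b * a.r + a.r * b.r) DD (by norm_num [DD])).2
  have ha := nb_ge a
  have hb := nb_ge b
  have ha0 := hz.r_nonneg
  have hb0 := hu.r_nonneg
  have hD : (DD : ℂ) ≠ 0 := by norm_num [DD]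
  unfold In at hz hu ⊢
  set α := (DD : ℂ) * z - a.c with hα
  set β := (DD : ℂ) * u - b.c with hβ
  have e : (DD : ℂ) * (z * u) - (mul a b).c = (a.c * β + b.c * α + α * β) / (DD : ℂ) +
      (a.c * b.c / (DD : ℂ) - (mul a b).c) := by
    rw [hα, hβ]
    field_simp
    ring
  rw [e]
  refine (norm_add_le _ _).trans ?_
  have h3 : ‖(a.c * β + b.c * α + α * β) / (DD : ℂ)‖ ≤
      ((nb a * b.r + nb b * a.r + a.r * b.r : ℤ) : ℝ) / DD := by
    rw [norm_div, norm_DD]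
    refine div_le_div_of_nonneg_right ?_ DD_pos.le
    push_cast
    refine (norm_add_le _ _).trans (add_le_add ((norm_add_le _ _).trans (add_le_add ?_ ?_)) ?_)
    · rw [norm_mul]
      exact mul_le_mul ha hu (norm_nonneg _) ((norm_nonneg _).trans ha)
    · rw [norm_mul]
      exact mul_le_mul hb hz (norm_nonneg _) ((norm_nonneg _).trans hb)
    · rw [norm_mul]
      exact mul_le_mul hz hu (norm_nonneg _) ha0
  have h4 : ‖a.c * b.c / (DD : ℂ) - (mul a b).c‖ ≤ 2 := hr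
  have h5 : (((mul a b).r : ℤ) : ℝ) =
      (((nb a * b.r + nb b * a.r + a.r * b.r) / DD : ℤ) : ℝ) + 3 := by
    unfold mul
    push_cast
    rfl
  rw [h5]
  linarith

/-- multiplication by a number of norm 1 -/
def umul (a b : Bl) : Bl :=
  ⟨(a.x * b.x - a.y * b.y) / DD, (a.x * b.y + a.y * b.x) / DD, b.r + (nb b * a.r) / DD + 3⟩

theorem in_umul {z u : ℂ} {a b : Bl} (h1 : ‖z‖ = 1) (hz : In z a) (hu : In u b) :
    In (z * u) (umul a b) := by
  have hr := mul_round a b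
  have h2 := (fdiv (nb b * a.r) DD (by norm_num [DD])).2
  have hb := nb_ge b
  have ha0 := hz.r_nonneg
  have hD : (DD : ℂ) ≠ 0 := by norm_num [DD]
  unfold In at hz hu ⊢
  set α := (DD : ℂ) * z - a.c with hα
  set β := (DD : ℂ) * u - b.c with hβ
  have e : (DD : ℂ) * (z * u) - (umul a b).c = z * β + b.c * α / (DD : ℂ) +
      (a.c * b.c / (DD : ℂ) - (umul a b).c) := by
    rw [hα, hβ]
    field_simp
    ring
  rw [e]
  refine (norm_add_le _ _).trans ?_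
  have h3 : ‖z * β + b.c * α / (DD : ℂ)‖ ≤ (b.r : ℝ) + ((nb b * a.r : ℤ) : ℝ) / DD := by
    refine (norm_add_le _ _).trans (add_le_add ?_ ?_)
    · rw [norm_mul, h1, one_mul]
      exact hu
    · rw [norm_div, norm_DD, norm_mul]
      refine div_le_div_of_nonneg_right ?_ DD_pos.le
      push_cast
      exact mul_le_mul hb hz (norm_nonneg _) ((norm_nonneg _).trans hb)
  have h4 : ‖a.c * b.c / (DD : ℂ) - (umul a b).c‖ ≤ 2 := hr
  have h5 : (((umul a b).r : ℤ) : ℝ) = (b.r : ℝ) + ((nb b * a.r / DD : ℤ) : ℝ) + 3 := by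
    unfold umul
    push_cast
    rfl
  rw [h5]
  linarith

theorem In.mono {z : ℂ} {a : Bl} (h : In z a) {r : ℤ} (hr : a.r ≤ r) : In z ⟨a.x, a.y, r⟩ := by
  unfold In Bl.c at *
  exact h.trans (by exact_mod_cast hr)

/-- enlarging the radius by an error -/
theorem In.near {z u : ℂ} {a : Bl} (h : In z a) {e : ℤ} (he : (DD : ℝ) * ‖u - z‖ ≤ e) :
    In u ⟨a.x, a.y, a.r + e⟩ := by
  unfold In Bl.c at *
  push_cast
  have e1 : (DD : ℂ) * u - ((a.x : ℂ) + a.y * Complex.I) =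
      ((DD : ℂ) * z - ((a.x : ℂ) + a.y * Complex.I)) + (DD : ℂ) * (u - z) := by ring
  rw [e1]
  refine (norm_add_le _ _).trans (add_le_add h ?_)
  rw [norm_mul, norm_DD]
  exact he

/-! ### The exponential function -/

def hx (y : Bl) : ℕ → ℕ → Bl
  | _, 0 => one
  | k, (f + 1) => add one (divn (mul y (hx y (k + 1) f)) k)

noncomputable def hc (y : ℂ) : ℕ → ℕ → ℂ
  | _, 0 => 1
  | k, (f + 1) => 1 + y * hc y (k + 1) f / k

theorem in_hx {z : ℂ} {y : Bl} (h : In z y) (k f : ℕ) (hk : 0 < k) : In (hc z k f) (hx y k f) := by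
  induction f generalizing k with
  | zero => exact in_one
  | succ f ih => exact in_add in_one (in_divn (in_mul h (ih (k + 1) (by omega))) hk)

theorem hc_eq (y : ℂ) (k f : ℕ) (hk : 0 < k) :
    hc y k f = ∑ i ∈ range (f + 1), y ^ i * ((k - 1).factorial : ℂ) / ((k - 1 + i).factorial : ℂ) := by
  induction f generalizing k with
  | zero =>
    have : ((k - 1).factorial : ℂ) ≠ 0 := by exact_mod_cast (Nat.factorial_pos _).ne'
    simp [hc, this]
  | succ f ih =>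
    rw [Finset.sum_range_succ', hc, ih (k + 1) (by omega)]
    have h0 : ((k - 1).factorial : ℂ) ≠ 0 := by exact_mod_cast (Nat.factorial_pos _).ne'
    have hk0 : (k : ℂ) ≠ 0 := by exact_mod_cast hk.ne'
    simp only [Nat.add_sub_cancel, pow_zero, add_zero, one_mul, div_self h0]
    rw [add_comm, Finset.mul_sum, Finset.sum_div]
    congr 1
    refine Finset.sum_congr rfl fun i _ => ?_
    have h1 : (k.factorial : ℂ) = k * ((k - 1).factorial : ℂ) := by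
      exact_mod_cast (Nat.mul_factorial_pred (by omega)).symm
    rw [h1, show k - 1 + (i + 1) = k + i by omega]
    field_simp
    ring

theorem hc_exp {y : ℂ} (hy : ‖y‖ ≤ 8 / 5) : (DD : ℝ) * ‖Complex.exp y - hc y 1 19‖ ≤ 1 := by
  rw [hc_eq y 1 19 one_pos]
  have h1 : ∑ i ∈ range (19 + 1), y ^ i * ((1 - 1).factorial : ℂ) / ((1 - 1 + i).factorial : ℂ) =
      ∑ i ∈ range 20, y ^ i / (i.factorial : ℂ) := by
    refine Finset.sum_congr rfl fun i _ => ?_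
    simp
  rw [h1]
  have h2 := Complex.exp_bound' (x := y) (n := 20) (by
    rw [div_le_iff₀ (by positivity)]
    norm_num
    linarith)
  have h3 : ‖y‖ ^ 20 ≤ (8 / 5) ^ 20 := pow_le_pow_left₀ (norm_nonneg _) hy 20
  have h4 : ‖y‖ ^ 20 / ((20).factorial : ℝ) * 2 ≤ (8 / 5) ^ 20 / ((20).factorial : ℝ) * 2 := by
    gcongr
  have h5 : (DD : ℝ) * ((8 / 5) ^ 20 / ((20).factorial : ℝ) * 2) ≤ 1 := by
    norm_num [DD, Nat.factorial]
  have h6 := mul_le_mul_of_nonneg_left (h2.trans h4) DD_pos.le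
  linarith

/-- the exponential function -/
def bexp (y : Bl) : Bl := ⟨(hx y 1 19).x, (hx y 1 19).y, (hx y 1 19).r + 1⟩

theorem in_bexp {z : ℂ} {y : Bl} (h : In z y) (hn : nb y + y.r ≤ 1600000000000) :
    In (Complex.exp z) (bexp y) := by
  have h1 : ‖z‖ ≤ 8 / 5 := by
    have h2 := nb_ge y
    unfold In at h
    have h3 : ‖(DD : ℂ) * z‖ ≤ (nb y : ℝ) + y.r := by
      have : (DD : ℂ) * z = y.c + ((DD : ℂ) * z - y.c) := by ring
      rw [this]
      exact (norm_add_le _ _).trans (add_le_add h2 h)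
    rw [norm_mul, norm_DD] at h3
    have h4 : (nb y : ℝ) + y.r ≤ 1600000000000 := by exact_mod_cast hn
    have h5 : (DD : ℝ) = 1000000000000 := by norm_num [DD]
    rw [h5] at h3
    linarith
  have h2 := in_hx h 1 19 one_pos
  exact In.near (e := 1) h2 (by exact_mod_cast hc_exp h1)

end Pool.Agent.H701M
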