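import Pool.Agent.H701M.B4
import Pool.Agent.H701M.B5

/-!
Balls for the numbers `n ^ (-iτ)`.
-/

set_option autoImplicit false

open Finset

namespace Pool.Agent.H701M

/-- the numbers `n ^ (-iτ)` -/
noncomputable def z (n : ℕ) : ℂ := (n : ℂ) ^ (-((τ : ℂ) * Complex.I))

theorem z_norm {n : ℕ} (hn : 0 < n) : ‖z n‖ = 1 := by
  unfold z
  rw [Complex.norm_natCast_cpow_of_pos hn]
  simp

theorem cpow_z {n : ℕ} (hn : 0 < n) (m : ℕ) :
    (n : ℂ) ^ (-(1 + (((2 * m + 1) * τ : ℝ) : ℂ) * Complex.I)) = z n ^ (2 * m + 1) / n := by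
  have hn' : (n : ℂ) ≠ 0 := by exact_mod_cast hn.ne'
  have e1 : -((1 : ℂ) + (((2 * m + 1) * τ : ℝ) : ℂ) * Complex.I) =
      ((2 * m + 1 : ℕ) : ℂ) * (-((τ : ℂ) * Complex.I)) + (-1) := by
    push_cast
    ring
  rw [e1, Complex.cpow_add _ _ hn', Complex.cpow_nat_mul, Complex.cpow_neg_one]
  rfl

theorem log2_pos : 0 < Real.log 2 := Real.log_pos (by norm_num)

theorem z_eq {n : ℕ} (hn : 0 < n) (j : ℕ) : z n = (-1) ^ j *
    Complex.exp (-Complex.I * ((Real.pi : ℂ) * ((Real.log n / Real.log 2 - j : ℝ) : ℂ))) := by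
  have hn' : (n : ℂ) ≠ 0 := by exact_mod_cast hn.ne'
  unfold z
  rw [Complex.cpow_def_of_ne_zero hn']
  have h1 : Complex.log (n : ℂ) = ((Real.log n : ℝ) : ℂ) := (Complex.natCast_log).symm
  have h2 : ((-1 : ℂ)) ^ j = Complex.exp (-Complex.I * ((Real.pi : ℂ) * (j : ℂ))) := by
    have : -Complex.I * ((Real.pi : ℂ) * (j : ℂ)) = (j : ℂ) * (-(Real.pi * Complex.I)) := by ring
    rw [this, Complex.exp_nat_mul, Complex.exp_neg, Complex.exp_pi_mul_I]
    norm_num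
  rw [h1, h2, ← Complex.exp_add]
  congr 1
  have hl : ((Real.log 2 : ℝ) : ℂ) ≠ 0 := by exact_mod_cast log2_pos.ne'
  unfold τ
  push_cast
  field_simp
  ring

/-- `π` -/
def piB : Bl := ⟨3141592653590, 0, 1⟩

theorem in_real {x : ℝ} {c r : ℤ} (h : |(DD : ℝ) * x - c| ≤ r) : In (x : ℂ) ⟨c, 0, r⟩ := by
  unfold In Bl.c
  have e : (DD : ℂ) * (x : ℂ) - ((c : ℂ) + ((0 : ℤ) : ℂ) * Complex.I) =
      (((DD : ℝ) * x - c : ℝ) : ℂ) := by
    push_cast
    ring
  rw [e, Complex.norm_real, Real.norm_eq_abs]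
  exact h

theorem in_piB : In (Real.pi : ℂ) piB := by
  refine in_real ?_
  have h1 := Real.pi_gt_d20
  have h2 := Real.pi_lt_d20
  rw [abs_le]
  have h3 : (DD : ℝ) = 1000000000000 := by norm_num [DD]
  rw [h3]
  push_cast
  constructor <;> linarith

/-- the ball for `log n / log 2 - j` -/
def lB (j a b a' b' : ℕ) : Bl :=
  ⟨((((a : ℤ) - j * b) * DD / b) + (((a' : ℤ) - j * b') * DD / b' + 1)) / 2, 0,
    ((((a' : ℤ) - j * b') * DD / b' + 1) - (((a : ℤ) - j * b) * DD / b)) / 2 + 1⟩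

theorem in_lB {n j a b a' b' : ℕ} (hn : 0 < n) (hb : 0 < b) (hb' : 0 < b') (h1 : 2 ^ a ≤ n ^ b)
    (h2 : n ^ b' ≤ 2 ^ a') :
    In ((Real.log n / Real.log 2 - j : ℝ) : ℂ) (lB j a b a' b') := by
  have hl := log2_pos
  have hbr : (0 : ℝ) < b := by exact_mod_cast hb
  have hbr' : (0 : ℝ) < b' := by exact_mod_cast hb'
  have hnr : (0 : ℝ) < n := by exact_mod_cast hn
  have k1 : (a : ℝ) * Real.log 2 ≤ b * Real.log n := by
    rw [← Real.log_pow, ← Real.log_pow]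
    refine Real.log_le_log (by positivity) ?_
    exact_mod_cast h1
  have k2 : (b' : ℝ) * Real.log n ≤ a' * Real.log 2 := by
    rw [← Real.log_pow, ← Real.log_pow]
    refine Real.log_le_log (by positivity) ?_
    exact_mod_cast h2
  have k3 : (a : ℝ) / b ≤ Real.log n / Real.log 2 := by
    rw [div_le_div_iff₀ hbr hl]
    linarith
  have k4 : Real.log n / Real.log 2 ≤ (a' : ℝ) / b' := by
    rw [div_le_div_iff₀ hl hbr']
    linarith
  have f1 := (fdiv (((a : ℤ) - j * b) * DD) b (by exact_mod_cast hb)).1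
  have f2 := (fdiv (((a' : ℤ) - j * b') * DD) b' (by exact_mod_cast hb')).2
  unfold lB
  set lo : ℤ := ((a : ℤ) - j * b) * DD / b with hlo
  set hi' : ℤ := ((a' : ℤ) - j * b') * DD / b' with hhi
  have g1 : (lo : ℝ) ≤ (DD : ℝ) * (Real.log n / Real.log 2 - j) := by
    have e1 : ((((a : ℤ) - j * b) * DD : ℤ) : ℝ) / ((b : ℤ) : ℝ) = (DD : ℝ) * ((a : ℝ) / b - j) := by
      push_cast
      field_simp
    rw [e1] at f1
    have : (DD : ℝ) * ((a : ℝ) / b - j) ≤ (DD : ℝ) * (Real.log n / Real.log 2 - j) :=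
      mul_le_mul_of_nonneg_left (by linarith) DD_pos.le
    linarith
  have g2 : (DD : ℝ) * (Real.log n / Real.log 2 - j) ≤ ((hi' + 1 : ℤ) : ℝ) := by
    have e1 : ((((a' : ℤ) - j * b') * DD : ℤ) : ℝ) / ((b' : ℤ) : ℝ) =
        (DD : ℝ) * ((a' : ℝ) / b' - j) := by
      push_cast
      field_simp
    rw [e1] at f2
    have : (DD : ℝ) * (Real.log n / Real.log 2 - j) ≤ (DD : ℝ) * ((a' : ℝ) / b' - j) :=
      mul_le_mul_of_nonneg_left (by linarith) DD_pos.le
    push_cast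
    linarith
  refine in_real ?_
  set c : ℤ := (lo + (hi' + 1)) / 2 with hc
  set R : ℤ := (hi' + 1 - lo) / 2 + 1 with hR
  have c1 : 2 * c ≤ lo + (hi' + 1) := by omega
  have c2 : lo + (hi' + 1) ≤ 2 * c + 1 := by omega
  have c3 : hi' + 1 - lo + 1 ≤ 2 * R := by omega
  have c1' : 2 * (c : ℝ) ≤ lo + ((hi' + 1 : ℤ) : ℝ) := by exact_mod_cast c1
  have c2' : (lo : ℝ) + ((hi' + 1 : ℤ) : ℝ) ≤ 2 * c + 1 := by exact_mod_cast c2
  have c3' : ((hi' + 1 : ℤ) : ℝ) - lo + 1 ≤ 2 * R := by exact_mod_cast c3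
  rw [abs_le]
  constructor <;> linarith

/-- the ball for `-i π (log n / log 2 - j)` -/
def yB (j a b a' b' : ℕ) : Bl := negI (mul piB (lB j a b a' b'))

/-- the ball for `n ^ (-iτ)` -/
def zB (j a b a' b' : ℕ) : Bl :=
  if j % 2 = 0 then bexp (yB j a b a' b') else neg (bexp (yB j a b a' b'))

theorem in_zB {n j a b a' b' : ℕ} (hn : 0 < n) (hb : 0 < b) (hb' : 0 < b') (h1 : 2 ^ a ≤ n ^ b)
    (h2 : n ^ b' ≤ 2 ^ a')
    (h3 : nb (yB j a b a' b') + (yB j a b a' b').r ≤ 1600000000000) :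
    In (z n) (zB j a b a' b') := by
  have h4 := in_lB (j := j) hn hb hb' h1 h2
  have h5 := in_bexp (in_negI (in_mul in_piB h4)) h3
  rw [z_eq hn j]
  unfold zB
  split_ifs with h
  · have : ((-1 : ℂ)) ^ j = 1 := by
      rw [neg_one_pow_eq_one_iff_even (by norm_num)]
      exact Nat.even_iff.2 h
    rw [this, one_mul]
    exact h5
  · have : ((-1 : ℂ)) ^ j = -1 := by
      rw [neg_one_pow_eq_neg_one_iff_odd (by norm_num)]
      exact Nat.odd_iff.2 (by omega)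
    rw [this, neg_one_mul]
    exact in_neg h5

/-- a row of the table: the ball of `n ^ (-iτ)` with the data which prove it -/
structure Rw where
  n : ℕ
  j : ℕ
  a : ℕ
  b : ℕ
  a' : ℕ
  b' : ℕ
  x : ℤ
  y : ℤ
  r : ℤ

/-- the check of a row -/
def Rw.ok (w : Rw) : Bool :=
  decide (0 < w.n) && decide (0 < w.b) && decide (0 < w.b') && Nat.ble (2 ^ w.a) (w.n ^ w.b) &&
    Nat.ble (w.n ^ w.b') (2 ^ w.a') &&
    decide (nb (yB w.j w.a w.b w.a' w.b') + (yB w.j w.a w.b w.a' w.b').r ≤ 1600000000000) &&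
    decide ((zB w.j w.a w.b w.a' w.b').x = w.x) && decide ((zB w.j w.a w.b w.a' w.b').y = w.y) &&
    decide ((zB w.j w.a w.b w.a' w.b').r ≤ w.r)

theorem Rw.sound {w : Rw} (h : w.ok = true) : 0 < w.n ∧ In (z w.n) ⟨w.x, w.y, w.r⟩ := by
  unfold Rw.ok at h
  simp only [Bool.and_eq_true, decide_eq_true_eq, Nat.ble_eq] at h
  obtain ⟨⟨⟨⟨⟨⟨⟨⟨h1, h2⟩, h3⟩, h4⟩, h5⟩, h6⟩, h7⟩, h8⟩, h9⟩ := h
  refine ⟨h1, ?_⟩
  have h10 := (in_zB h1 h2 h3 h4 h5 h6).mono h9
  rw [h7, h8] at h10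
  exact h10

/-! ### Powers, sums and products -/

/-- a list of pairs: a number and a ball -/
def Good (T : List (ℕ × Bl)) : Prop := ∀ p ∈ T, 0 < p.1 ∧ In (z p.1) p.2

/-- the odd powers -/
def pwk (u q : Bl) : ℕ → Bl
  | 0 => u
  | (m + 1) => umul q (pwk u q m)

theorem in_pwk {n : ℕ} (hn : 0 < n) {u q : Bl} (hu : In (z n) u) (hq : In (z n * z n) q) (m : ℕ) :
    In (z n ^ (2 * m + 1)) (pwk u q m) := by
  induction m with
  | zero => simpa [pwk] using hu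
  | succ m ih =>
    have e1 : z n ^ (2 * (m + 1) + 1) = (z n * z n) * z n ^ (2 * m + 1) := by ring
    rw [e1]
    refine in_umul ?_ hq ih
    rw [norm_mul, z_norm hn, one_mul]

/-- the ball for `n ^ (-s)` -/
def tB (p : ℕ × Bl) (m : ℕ) : Bl := divn (pwk p.2 (umul p.2 p.2) m) p.1

theorem in_tB {p : ℕ × Bl} (hn : 0 < p.1) (hu : In (z p.1) p.2) (m : ℕ) :
    In ((p.1 : ℂ) ^ (-(1 + (((2 * m + 1) * τ : ℝ) : ℂ) * Complex.I))) (tB p m) := by
  rw [cpow_z hn]
  exact in_divn (in_pwk hn hu (in_umul (z_norm hn) hu hu) m) hn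

def sumB : List (ℕ × Bl) → ℕ → Bl
  | [], _ => ⟨0, 0, 0⟩
  | (p :: T), m => add (tB p m) (sumB T m)

theorem in_sumB (T : List (ℕ × Bl)) (hT : Good T) (m : ℕ) :
    In ((T.map fun p => (p.1 : ℂ) ^ (-(1 + (((2 * m + 1) * τ : ℝ) : ℂ) * Complex.I))).sum)
      (sumB T m) := by
  induction T with
  | nil =>
    simp only [List.map_nil, List.sum_nil, sumB]
    unfold In Bl.c
    simp
  | cons p T ih =>
    simp only [List.map_cons, List.sum_cons, sumB]
    exact in_add (in_tB (hT p List.mem_cons_self).1 (hT p List.mem_cons_self).2 m)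
      (ih fun q hq => hT q (List.mem_cons_of_mem _ hq))

/-- the ball for `D` -/
def dB (x : Bl) : Bl :=
  mul (add one (add x x)) (mul (add one (neg x)) (add one (neg x)))

theorem in_dB {x : ℂ} {b : Bl} (h : In x b) : In (D x) (dB b) := by
  have e : D x = (1 + (x + x)) * ((1 + -x) * (1 + -x)) := by unfold D; ring
  rw [e]
  have h1 := in_add in_one (in_neg h)
  exact in_mul (in_add in_one (in_add h h)) (in_mul h1 h1)

def prodB : List (ℕ × Bl) → ℕ → Bl
  | [], _ => one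
  | (p :: T), m => mul (dB (tB p m)) (prodB T m)

theorem in_prodB (T : List (ℕ × Bl)) (hT : Good T) (m : ℕ) :
    In ((T.map fun p => D ((p.1 : ℂ) ^ (-(1 + (((2 * m + 1) * τ : ℝ) : ℂ) * Complex.I)))).prod)
      (prodB T m) := by
  induction T with
  | nil =>
    simp only [List.map_nil, List.prod_nil, prodB]
    exact in_one
  | cons p T ih =>
    simp only [List.map_cons, List.prod_cons, prodB]
    exact in_mul (in_dB (in_tB (hT p List.mem_cons_self).1 (hT p List.mem_cons_self).2 m))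
      (ih fun q hq => hT q (List.mem_cons_of_mem _ hq))

end Pool.Agent.H701M
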