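import Pool.Agent.H701M.B6

/-!
Balls for the zeta function and for the Fourier coefficients.
-/

set_option autoImplicit false

open Finset

namespace Pool.Agent.H701M

theorem log_bounds : (0.6931471803 : ℝ) < Real.log 2 ∧ Real.log 2 < 0.6931471808 :=
  ⟨Real.log_two_gt_d9, Real.log_two_lt_d9⟩

theorem DD_val : (DD : ℝ) = 1000000000000 := by norm_num [DD]

/-- `log 2 / π` -/
def rhoB : Bl := ⟨220635600150, 0, 100⟩

theorem in_rhoB : In ((Real.log 2 / Real.pi : ℝ) : ℂ) rhoB := by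
  refine in_real ?_
  obtain ⟨h1, h2⟩ := log_bounds
  have h3 := Real.pi_gt_d20
  have h4 := Real.pi_lt_d20
  have hp := Real.pi_pos
  have e : (DD : ℝ) * (Real.log 2 / Real.pi) = (1000000000000 * Real.log 2) / Real.pi := by
    rw [DD_val]; ring
  rw [e, abs_le]
  push_cast
  constructor
  · rw [neg_le_sub_iff_le_add, ← sub_le_iff_le_add, le_div_iff₀ hp]
    linarith
  · rw [sub_le_iff_le_add, div_le_iff₀ hp]
    linarith

/-- `τ` -/
def tauB : Bl := ⟨4532360141900, 0, 2000⟩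

theorem in_tauB : |(DD : ℝ) * τ - (4532360141900 : ℤ)| ≤ (2000 : ℤ) := by
  obtain ⟨h1, h2⟩ := log_bounds
  have h3 := Real.pi_gt_d20
  have h4 := Real.pi_lt_d20
  have hl := log2_pos
  have e : (DD : ℝ) * τ = (1000000000000 * Real.pi) / Real.log 2 := by
    rw [DD_val]; unfold τ; ring
  rw [e, abs_le]
  push_cast
  constructor
  · rw [neg_le_sub_iff_le_add, ← sub_le_iff_le_add, le_div_iff₀ hl]
    linarith
  · rw [sub_le_iff_le_add, div_le_iff₀ hl]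
    linarith

/-- the point `s_m` -/
noncomputable def sm (m : ℕ) : ℂ := 1 + (((2 * m + 1) * τ : ℝ) : ℂ) * Complex.I

def sB (m : ℕ) : Bl := ⟨DD, (2 * m + 1) * 4532360141900, (2 * m + 1) * 2000⟩

theorem in_sB (m : ℕ) : In (sm m) (sB m) := by
  have h := in_tauB
  unfold In sB Bl.c sm
  have e : (DD : ℂ) * (1 + (((2 * m + 1) * τ : ℝ) : ℂ) * Complex.I) -
      ((DD : ℂ) + (((2 * (m : ℤ) + 1) * 4532360141900 : ℤ) : ℂ) * Complex.I) =
      (((2 * m + 1) * ((DD : ℝ) * τ - (4532360141900 : ℤ)) : ℝ) : ℂ) * Complex.I := by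
    push_cast
    ring
  simp only
  rw [e, norm_mul, Complex.norm_I, mul_one, Complex.norm_real, Real.norm_eq_abs, abs_mul,
    abs_of_nonneg (by positivity : (0 : ℝ) ≤ 2 * m + 1)]
  push_cast
  push_cast at h
  exact mul_le_mul_of_nonneg_left h (by positivity)

theorem z256 : z 256 = 1 := by
  rw [z_eq (by norm_num) 8]
  have : Real.log (256 : ℕ) / Real.log 2 - (8 : ℕ) = 0 := by
    have h1 : ((256 : ℕ) : ℝ) = 2 ^ 8 := by norm_num
    rw [h1, Real.log_pow]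
    field_simp [log2_pos.ne']
    norm_num
  rw [this]
  norm_num

theorem cp256 (m : ℕ) : ((256 : ℕ) : ℂ) ^ (-sm m) = 1 / 256 := by
  unfold sm
  rw [cpow_z (by norm_num), z256]
  norm_num

theorem EM256 (m : ℕ) : EM 256 (sm m) = ∑ n ∈ (Ico 1 256 : Finset ℕ), (n : ℂ) ^ (-sm m) +
    (-Complex.I * ((Real.log 2 / Real.pi : ℝ) / ((2 * m + 1 : ℕ) : ℂ)) +
      (1 / ((512 : ℕ) : ℂ) + sm m / ((786432 : ℕ) : ℂ))) := by
  have h256 : ((256 : ℕ) : ℂ) ≠ 0 := by norm_num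
  have h1 : ((256 : ℕ) : ℂ) ^ (1 - sm m) = 1 := by
    rw [sub_eq_add_neg, Complex.cpow_add _ _ h256, cp256, Complex.cpow_one]
    norm_num
  have h2 : ((256 : ℕ) : ℂ) ^ (-sm m - 1) = 1 / 65536 := by
    rw [sub_eq_add_neg, Complex.cpow_add _ _ h256, cp256, Complex.cpow_neg_one]
    norm_num
  have h3 : 1 / (sm m - 1) = -Complex.I * ((Real.log 2 / Real.pi : ℝ) / ((2 * m + 1 : ℕ) : ℂ)) := by
    have e1 : sm m - 1 = (((2 * m + 1) * τ : ℝ) : ℂ) * Complex.I := by unfold sm; ring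
    have hp : (Real.pi : ℂ) ≠ 0 := by exact_mod_cast Real.pi_ne_zero
    have hl : ((Real.log 2 : ℝ) : ℂ) ≠ 0 := by exact_mod_cast log2_pos.ne'
    have hk : ((2 * m + 1 : ℕ) : ℂ) ≠ 0 := by exact_mod_cast Nat.succ_ne_zero (2 * m)
    have e2 : (((2 * m + 1) * τ : ℝ) : ℂ) = ((2 * m + 1 : ℕ) : ℂ) * (Real.pi / (Real.log 2 : ℝ)) := by
      unfold τ
      push_cast
      ring
    rw [e1, e2, one_div, mul_inv, Complex.inv_I]
    push_cast
    field_simp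
  unfold EM
  rw [h1, cp256, h2, h3]
  push_cast
  ring

/-- the error in the Euler-Maclaurin formula -/
def eB (m : ℕ) : ℤ :=
  DD * (4533 * (2 * m + 1) + 1000) * (4533 * (2 * m + 1) + 2000) * (4533 * (2 * m + 1) + 3000) /
    (1000000000 * 5969295000) + 1

theorem zeta_err (m : ℕ) : (DD : ℝ) * ‖riemannZeta (sm m) - EM 256 (sm m)‖ ≤ (eB m : ℝ) := by
  have hκ : 0 < (2 * (m : ℝ) + 1) * τ := mul_pos (by positivity) τ_pos
  have h1 := EM_line ((2 * m + 1) * τ) hκ.ne' 256 (by norm_num)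
  have hτ : τ ≤ 4533 / 1000 := by
    have h2 := (abs_le.1 in_tauB).2
    rw [DD_val] at h2
    push_cast at h2
    linarith
  set κ : ℝ := (2 * m + 1) * τ with hκd
  set B : ℝ := 4533 / 1000 * (2 * m + 1) with hB
  have hκB : κ ≤ B := by
    rw [hκd, hB, mul_comm]
    exact mul_le_mul_of_nonneg_right hτ (by positivity)
  have hs : sm m = 1 + (κ : ℂ) * Complex.I := rfl
  have n1 : ∀ c : ℝ, 0 ≤ c → ‖(c : ℂ) + (κ : ℂ) * Complex.I‖ ≤ c + B := by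
    intro c hc
    refine (norm_add_le _ _).trans ?_
    rw [norm_mul, Complex.norm_I, mul_one, Complex.norm_real, Complex.norm_real,
      Real.norm_of_nonneg hc, Real.norm_of_nonneg hκ.le]
    linarith
  have m1 : ‖(1 : ℂ) + (κ : ℂ) * Complex.I‖ ≤ 1 + B := by simpa using n1 1 (by norm_num)
  have m2 : ‖(1 : ℂ) + (κ : ℂ) * Complex.I + 1‖ ≤ 2 + B := by
    have := n1 2 (by norm_num)
    rw [show (1 : ℂ) + (κ : ℂ) * Complex.I + 1 = ((2 : ℝ) : ℂ) + (κ : ℂ) * Complex.I by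
      push_cast; ring]
    exact this
  have m3 : ‖(1 : ℂ) + (κ : ℂ) * Complex.I + 2‖ ≤ 3 + B := by
    have := n1 3 (by norm_num)
    rw [show (1 : ℂ) + (κ : ℂ) * Complex.I + 2 = ((3 : ℝ) : ℂ) + (κ : ℂ) * Complex.I by
      push_cast; ring]
    exact this
  have hB0 : 0 ≤ B := by rw [hB]; positivity
  rw [norm_mul, norm_mul] at h1
  have h2 : ‖(1 : ℂ) + (κ : ℂ) * Complex.I‖ * ‖(1 : ℂ) + (κ : ℂ) * Complex.I + 1‖ *
      ‖(1 : ℂ) + (κ : ℂ) * Complex.I + 2‖ ≤ (1 + B) * (2 + B) * (3 + B) := by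
    gcongr
  have h3 : ‖riemannZeta (sm m) - EM 256 (sm m)‖ ≤ (1 + B) * (2 + B) * (3 + B) / 5969295000 := by
    rw [hs]
    refine h1.trans ?_
    have e : ((256 : ℕ) : ℝ) - 1 = 255 := by norm_num
    rw [e]
    calc ‖(1 : ℂ) + (κ : ℂ) * Complex.I‖ * ‖(1 : ℂ) + (κ : ℂ) * Complex.I + 1‖ *
          ‖(1 : ℂ) + (κ : ℂ) * Complex.I + 2‖ / 360 * (1 / 255 ^ 3)
        ≤ (1 + B) * (2 + B) * (3 + B) / 360 * (1 / 255 ^ 3) := by gcongr
      _ = _ := by norm_num; ring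
  have h4 := (fdiv (DD * (4533 * (2 * m + 1) + 1000) * (4533 * (2 * m + 1) + 2000) *
    (4533 * (2 * m + 1) + 3000)) (1000000000 * 5969295000) (by norm_num)).2
  have h5 : ((DD * (4533 * (2 * m + 1) + 1000) * (4533 * (2 * m + 1) + 2000) *
      (4533 * (2 * m + 1) + 3000) : ℤ) : ℝ) / ((1000000000 * 5969295000 : ℤ) : ℝ) =
      (DD : ℝ) * ((1 + B) * (2 + B) * (3 + B) / 5969295000) := by
    rw [hB]
    push_cast
    ring
  rw [h5] at h4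
  have h6 := mul_le_mul_of_nonneg_left h3 DD_pos.le
  have h7 : ((eB m : ℤ) : ℝ) = ((DD * (4533 * (2 * m + 1) + 1000) * (4533 * (2 * m + 1) + 2000) *
      (4533 * (2 * m + 1) + 3000) / (1000000000 * 5969295000) : ℤ) : ℝ) + 1 := by
    unfold eB
    push_cast
    rfl
  rw [h7]
  linarith

/-- the ball for the zeta function -/
def emB (T : List (ℕ × Bl)) (m : ℕ) : Bl :=
  add (sumB T m) (add (negI (divn rhoB (2 * m + 1))) (add (divn one 512) (divn (sB m) 786432)))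

def zetaB (T : List (ℕ × Bl)) (m : ℕ) : Bl := ⟨(emB T m).x, (emB T m).y, (emB T m).r + eB m⟩

theorem in_zetaB (T : List (ℕ × Bl)) (hT : Good T) (hT' : T.map Prod.fst = List.range' 1 255)
    (m : ℕ) : In (riemannZeta (sm m)) (zetaB T m) := by
  have h1 := in_sumB T hT m
  have h2 : (T.map fun p => (p.1 : ℂ) ^ (-(1 + (((2 * m + 1) * τ : ℝ) : ℂ) * Complex.I))).sum =
      ∑ n ∈ (Ico 1 256 : Finset ℕ), (n : ℂ) ^ (-sm m) := by
    have e1 : (T.map fun p => (p.1 : ℂ) ^ (-(1 + (((2 * m + 1) * τ : ℝ) : ℂ) * Complex.I))) =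
        (T.map Prod.fst).map fun n : ℕ => (n : ℂ) ^ (-sm m) := by
      rw [List.map_map]
      rfl
    rw [e1, hT']
    rfl
  rw [h2] at h1
  have h3 : In (EM 256 (sm m)) (emB T m) := by
    rw [EM256]
    refine in_add h1 (in_add (in_negI (in_divn in_rhoB (by omega)))
      (in_add (in_divn in_one (by norm_num)) (in_divn (in_sB m) (by norm_num))))
  exact In.near h3 (zeta_err m)

/-- the ball for `log 2 * s_m` -/
def lsB (m : ℕ) : Bl := ⟨693147180550, (2 * m + 1) * 3141592653590, 250 + (2 * m + 1)⟩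

theorem in_lsB (m : ℕ) : In ((Real.log 2 : ℂ) * sm m) (lsB m) := by
  have hp := in_piB
  unfold In piB Bl.c at hp
  obtain ⟨h1, h2⟩ := log_bounds
  unfold In lsB Bl.c
  have hl : ((Real.log 2 : ℝ) : ℂ) ≠ 0 := by exact_mod_cast log2_pos.ne'
  have e0 : (Real.log 2 : ℂ) * sm m = (Real.log 2 : ℂ) + (2 * m + 1) * (Real.pi : ℂ) * Complex.I := by
    unfold sm τ
    push_cast
    field_simp
  have e : (DD : ℂ) * ((Real.log 2 : ℂ) * sm m) -
      (((693147180550 : ℤ) : ℂ) + (((2 * (m : ℤ) + 1) * 3141592653590 : ℤ) : ℂ) * Complex.I) =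
      (((DD : ℝ) * Real.log 2 - 693147180550 : ℝ) : ℂ) + ((2 * m + 1 : ℝ) : ℂ) *
        ((DD : ℂ) * (Real.pi : ℂ) - (((3141592653590 : ℤ) : ℂ) + ((0 : ℤ) : ℂ) * Complex.I)) *
          Complex.I := by
    rw [e0]
    push_cast
    ring
  simp only
  rw [e]
  refine (norm_add_le _ _).trans ?_
  rw [norm_mul, norm_mul, Complex.norm_I, mul_one, Complex.norm_real, Complex.norm_real,
    Real.norm_of_nonneg (by positivity : (0 : ℝ) ≤ 2 * m + 1)]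
  have h3 : ‖(DD : ℝ) * Real.log 2 - 693147180550‖ ≤ 250 := by
    rw [Real.norm_eq_abs, abs_le, DD_val]
    constructor <;> linarith
  have h4 := mul_le_mul_of_nonneg_left hp (by positivity : (0 : ℝ) ≤ 2 * (m : ℝ) + 1)
  push_cast at h4 ⊢
  linarith

/-- the ball for `Lam` -/
def lamB (T P : List (ℕ × Bl)) (m : ℕ) : Bl :=
  mul (mul (lsB m) ⟨2250000000000, 0, 0⟩) (mul (mul (zetaB T m) (zetaB T m)) (prodB P m))

theorem in_lamB (T P : List (ℕ × Bl)) (hT : Good T) (hT' : T.map Prod.fst = List.range' 1 255)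
    (hP : Good P) (K : ℕ) (hP1 : (P.map Prod.fst).Nodup)
    (hP' : oddPrimes K = (P.map Prod.fst).toFinset) (m : ℕ) :
    In (Lam K m) (lamB T P m) := by
  have h1 := in_prodB P hP m
  have h2 : (P.map fun p => D ((p.1 : ℂ) ^ (-(1 + (((2 * m + 1) * τ : ℝ) : ℂ) * Complex.I)))).prod =
      ∏ p ∈ oddPrimes K, D ((p : ℂ) ^ (-sm m)) := by
    rw [hP', List.prod_toFinset _ hP1, List.map_map]
    rfl
  rw [h2] at h1
  have h3 := in_zetaB T hT hT' m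
  have h4 : In (9 / 4 : ℂ) ⟨2250000000000, 0, 0⟩ := by
    unfold In Bl.c
    norm_num [DD]
  have e : Lam K m = ((Real.log 2 : ℂ) * sm m) * (9 / 4) *
      ((riemannZeta (sm m) * riemannZeta (sm m)) * ∏ p ∈ oddPrimes K, D ((p : ℂ) ^ (-sm m))) := by
    unfold Lam sm
    ring
  rw [e]
  exact in_mul (in_mul (in_lsB m) h4) (in_mul (in_mul h3 h3) h1)

/-- the check of an approximate coefficient -/
def modeOK (T P : List (ℕ × Bl)) (θ : ℤ) (m : ℕ) (cx cy δ : ℤ) : Bool :=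
  decide (nb ⟨(mul ⟨cx, cy, 0⟩ (lamB T P m)).x - DD, (mul ⟨cx, cy, 0⟩ (lamB T P m)).y, 0⟩ +
    (mul ⟨cx, cy, 0⟩ (lamB T P m)).r < DD) &&
  decide (nb ⟨cx, cy, 0⟩ * ((nb ⟨(mul ⟨cx, cy, 0⟩ (lamB T P m)).x - DD,
    (mul ⟨cx, cy, 0⟩ (lamB T P m)).y, 0⟩ + (mul ⟨cx, cy, 0⟩ (lamB T P m)).r) + θ) ≤
    δ * (DD - (nb ⟨(mul ⟨cx, cy, 0⟩ (lamB T P m)).x - DD,
    (mul ⟨cx, cy, 0⟩ (lamB T P m)).y, 0⟩ + (mul ⟨cx, cy, 0⟩ (lamB T P m)).r)))

theorem inv_near {c Λ : ℂ} {h N θ : ℝ} (hΛ : Λ ≠ 0) (hh : h < 1) (h1 : ‖c * Λ - 1‖ ≤ h)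
    (hN : ‖c‖ ≤ N) (hθ : 0 ≤ θ) : ‖Λ⁻¹ - c‖ + θ * ‖Λ⁻¹‖ ≤ N * (h + θ) / (1 - h) := by
  have hh0 : 0 ≤ h := (norm_nonneg _).trans h1
  have hN0 : 0 ≤ N := (norm_nonneg _).trans hN
  have h2 : 1 - h ≤ ‖c * Λ‖ := by
    have := norm_sub_norm_le (1 : ℂ) (1 - c * Λ)
    rw [norm_one, sub_sub_cancel, norm_sub_rev] at this
    linarith
  have h3 : ‖Λ⁻¹‖ ≤ N / (1 - h) := by
    rw [norm_inv, le_div_iff₀ (by linarith), inv_mul_le_iff₀ (norm_pos_iff.2 hΛ)]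
    rw [norm_mul] at h2
    calc 1 - h ≤ ‖c‖ * ‖Λ‖ := h2
      _ ≤ N * ‖Λ‖ := mul_le_mul_of_nonneg_right hN (norm_nonneg _)
      _ = ‖Λ‖ * N := mul_comm _ _
  have h4 : Λ⁻¹ - c = -(Λ⁻¹ * (c * Λ - 1)) := by
    field_simp
    ring
  rw [h4, norm_neg, norm_mul]
  have h5 : ‖Λ⁻¹‖ * ‖c * Λ - 1‖ ≤ N / (1 - h) * h :=
    mul_le_mul h3 h1 (norm_nonneg _) (div_nonneg hN0 (by linarith))
  have h6 : θ * ‖Λ⁻¹‖ ≤ θ * (N / (1 - h)) := mul_le_mul_of_nonneg_left h3 hθ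
  calc ‖Λ⁻¹‖ * ‖c * Λ - 1‖ + θ * ‖Λ⁻¹‖ ≤ N / (1 - h) * h + θ * (N / (1 - h)) := add_le_add h5 h6
    _ = _ := by ring

theorem mode_sound (T P : List (ℕ × Bl)) (hT : Good T) (hT' : T.map Prod.fst = List.range' 1 255)
    (hP : Good P) (K : ℕ) (hP1 : (P.map Prod.fst).Nodup)
    (hP' : oddPrimes K = (P.map Prod.fst).toFinset) (θ : ℤ) (θr : ℝ) (hθr : 0 ≤ θr)
    (hθ : (DD : ℝ) * θr ≤ θ) (m : ℕ) (cx cy δ : ℤ) (h : modeOK T P θ m cx cy δ = true) :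
    ‖(Lam K m)⁻¹ - (Bl.mk cx cy 0).c / (DD : ℂ)‖ + θr * ‖(Lam K m)⁻¹‖ ≤ (δ : ℝ) / (DD : ℝ) := by
  have hΛ := in_lamB T P hT hT' hP K hP1 hP' m
  unfold modeOK at h
  simp only [Bool.and_eq_true, decide_eq_true_eq] at h
  set q := mul ⟨cx, cy, 0⟩ (lamB T P m) with hq
  set η : ℤ := nb ⟨q.x - DD, q.y, 0⟩ + q.r with hη
  obtain ⟨h1, h2⟩ := h
  have hD := DD_pos
  have hDc : (DD : ℂ) ≠ 0 := by norm_num [DD]
  have hc : In ((Bl.mk cx cy 0).c / (DD : ℂ)) ⟨cx, cy, 0⟩ := by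
    unfold In
    rw [mul_div_cancel₀ _ hDc, sub_self, norm_zero]
    simp
  have hm := in_mul hc hΛ
  rw [← hq] at hm
  set c := (Bl.mk cx cy 0).c / (DD : ℂ) with hcd
  have h3 : ‖c * Lam K m - 1‖ ≤ (η : ℝ) / DD := by
    rw [le_div_iff₀ hD]
    have e1 : (DD : ℂ) * (c * Lam K m - 1) = ((DD : ℂ) * (c * Lam K m) - q.c) +
        (Bl.mk (q.x - DD) q.y 0).c := by
      unfold Bl.c
      push_cast
      ring
    have e2 : ‖c * Lam K m - 1‖ * (DD : ℝ) = ‖(DD : ℂ) * (c * Lam K m - 1)‖ := by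
      rw [norm_mul, norm_DD, mul_comm]
    rw [e2, e1]
    refine (norm_add_le _ _).trans ?_
    have := nb_ge ⟨q.x - DD, q.y, 0⟩
    rw [hη]
    push_cast
    unfold In at hm
    linarith
  have h4 : ‖c‖ ≤ (nb ⟨cx, cy, 0⟩ : ℝ) / DD := by
    rw [hcd, norm_div, norm_DD]
    exact div_le_div_of_nonneg_right (nb_ge _) hD.le
  have h5 : (η : ℝ) / DD < 1 := by
    rw [div_lt_one hD]
    exact_mod_cast h1
  have h6 := inv_near (Lam_ne K m) h5 h3 h4 hθr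
  refine h6.trans ?_
  have h1' : (η : ℝ) < DD := by exact_mod_cast h1
  have h2' : (nb ⟨cx, cy, 0⟩ : ℝ) * ((η : ℝ) + θ) ≤ δ * ((DD : ℝ) - η) := by exact_mod_cast h2
  have hnb : (0 : ℝ) ≤ nb ⟨cx, cy, 0⟩ := (norm_nonneg _).trans (nb_ge _)
  have e3 : (nb ⟨cx, cy, 0⟩ : ℝ) / DD * ((η : ℝ) / DD + θr) / (1 - (η : ℝ) / DD) =
      (nb ⟨cx, cy, 0⟩ : ℝ) * ((η : ℝ) + DD * θr) / (DD * ((DD : ℝ) - η)) := by
    have : (DD : ℝ) - η ≠ 0 := by linarith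
    field_simp
  rw [e3, div_le_div_iff₀ (mul_pos hD (by linarith)) hD]
  have h7 : (nb ⟨cx, cy, 0⟩ : ℝ) * ((η : ℝ) + DD * θr) ≤ (nb ⟨cx, cy, 0⟩ : ℝ) * ((η : ℝ) + θ) :=
    mul_le_mul_of_nonneg_left (by linarith) hnb
  nlinarith [h7, h2', hD]

end Pool.Agent.H701M
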