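import Pool.Agent.H701M.B7

/-!
The final inequality.
-/

set_option autoImplicit false

open Finset Filter Topology ComplexConjugate

namespace Pool.Agent.H701M

/-- a finite sum -/
def sumTo (f : ℕ → ℤ) : ℕ → ℤ
  | 0 => 0
  | (n + 1) => sumTo f n + f n

theorem sumTo_eq (f : ℕ → ℤ) (n : ℕ) : sumTo f n = ∑ i ∈ range n, f i := by
  induction n with
  | zero => rfl
  | succ n ih => rw [Finset.sum_range_succ, ← ih]; rfl

/-- the coefficient with the index `k - j` -/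
def cd (C : List (ℤ × ℤ × ℤ)) (j k : ℕ) : ℤ × ℤ × ℤ :=
  if j ≤ k then C.getD (k - j) (0, 0, 0) else
    ((C.getD (j - k - 1) (0, 0, 0)).1, -(C.getD (j - k - 1) (0, 0, 0)).2.1,
      (C.getD (j - k - 1) (0, 0, 0)).2.2)

/-- the real part of a term -/
def tr (a b c : ℤ × ℤ × ℤ) : ℤ :=
  (a.1 * b.1 + a.2.1 * b.2.1) * c.1 - (a.2.1 * b.1 - a.1 * b.2.1) * c.2.1

def ga (A : List (ℤ × ℤ × ℤ)) (j : ℕ) : ℤ × ℤ × ℤ := A.getD j (0, 0, 0)

/-- the number of a triple -/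
noncomputable def tc (a : ℤ × ℤ × ℤ) : ℂ := (a.1 : ℂ) + (a.2.1 : ℂ) * Complex.I

theorem tc_norm_sq (a : ℤ × ℤ × ℤ) : ‖tc a‖ ^ 2 = ((a.1 ^ 2 + a.2.1 ^ 2 : ℤ) : ℝ) := by
  rw [Complex.sq_norm, Complex.normSq_apply]
  simp [tc]
  ring

theorem tc_norm (a : ℤ × ℤ × ℤ) (h0 : 0 ≤ a.2.2) (h : a.1 ^ 2 + a.2.1 ^ 2 ≤ a.2.2 ^ 2) :
    ‖tc a‖ ≤ (a.2.2 : ℝ) := by
  have h1 : ‖tc a‖ ^ 2 ≤ (a.2.2 : ℝ) ^ 2 := by
    rw [tc_norm_sq]
    exact_mod_cast h
  exact (pow_le_pow_iff_left₀ (norm_nonneg _) (by exact_mod_cast h0) two_ne_zero).1 h1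

theorem tr_eq (a b c : ℤ × ℤ × ℤ) : (tc a * conj (tc b) * tc c).re = ((tr a b c : ℤ) : ℝ) := by
  unfold tc tr
  simp only [Complex.mul_re, Complex.mul_im, Complex.add_re, Complex.add_im, Complex.conj_re,
    Complex.conj_im, Complex.intCast_re, Complex.intCast_im, Complex.I_re, Complex.I_im]
  push_cast
  ring

/-- the last check -/
def lastOK (C A B : List (ℤ × ℤ × ℤ)) (M : ℕ) (u v : ℤ) : Bool :=
  decide (0 < sumTo (fun j => (ga A j).1 ^ 2 + (ga A j).2.1 ^ 2) M +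
    sumTo (fun j => (ga B j).1 ^ 2 + (ga B j).2.1 ^ 2) M) &&
  decide (u * ((sumTo (fun j => (ga A j).1 ^ 2 + (ga A j).2.1 ^ 2) M +
    sumTo (fun j => (ga B j).1 ^ 2 + (ga B j).2.1 ^ 2) M) * DD) ≤
    v * (2 * (sumTo (fun j => sumTo (fun k => tr (ga A j) (ga B k) (cd C j k)) M) M -
      sumTo (fun j => sumTo (fun k => (ga A j).2.2 * (ga B k).2.2 * (cd C j k).2.2) M) M)))

/-- all entries are bounded by their third components -/
def bdOK (A : List (ℤ × ℤ × ℤ)) : Bool :=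
  A.all fun a => decide (0 ≤ a.2.2) && decide (a.1 ^ 2 + a.2.1 ^ 2 ≤ a.2.2 ^ 2)

theorem bd_sound {A : List (ℤ × ℤ × ℤ)} (h : bdOK A = true) (j : ℕ) :
    0 ≤ (ga A j).2.2 ∧ ‖tc (ga A j)‖ ≤ ((ga A j).2.2 : ℝ) := by
  unfold bdOK at h
  rw [List.all_eq_true] at h
  by_cases hj : j < A.length
  · have h1 := h A[j] (List.getElem_mem hj)
    simp only [Bool.and_eq_true, decide_eq_true_eq] at h1
    have h2 : ga A j = A[j] := by
      unfold ga
      rw [List.getD_eq_getElem _ _ hj]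
    rw [h2]
    exact ⟨h1.1, tc_norm _ h1.1 h1.2⟩
  · have h2 : ga A j = (0, 0, 0) := by
      unfold ga
      rw [List.getD_eq_default _ _ (by omega)]
    rw [h2]
    simp [tc]

/-- the crude bound for the sum -/
theorem S_bound {a X : ℝ} (ha : 0 ≤ a) (hX : ∀ t : ℝ, X ≤ t → |S t| ≤ a * t) :
    ∃ C : ℝ, 0 ≤ C ∧ ∀ t : ℝ, 1 ≤ t → |S t| ≤ C * t := by
  set C₀ : ℝ := ∑ n ∈ Ioc 0 ⌊X⌋₊, |w n| with hC₀
  have h0 : 0 ≤ C₀ := Finset.sum_nonneg fun _ _ => abs_nonneg _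
  refine ⟨C₀ + a, by positivity, fun t ht => ?_⟩
  rcases le_total X t with h | h
  · have h1 := hX t h
    nlinarith
  · have h1 : |S t| ≤ C₀ := by
      unfold S
      refine (Finset.abs_sum_le_sum_abs _ _).trans ?_
      refine Finset.sum_le_sum_of_subset_of_nonneg ?_ fun _ _ _ => abs_nonneg _
      exact Finset.Ioc_subset_Ioc_right (Nat.floor_le_floor h)
    nlinarith

theorem final_of (C A B : List (ℤ × ℤ × ℤ)) (M : ℕ) (u v : ℤ) (hv : 0 < v)
    (hAB : bdOK A = true) (hBB : bdOK B = true) (hl : lastOK C A B M u v = true)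
    (T P : List (ℕ × Bl)) (hT : Good T) (hT' : T.map Prod.fst = List.range' 1 255)
    (hP : Good P) (K : ℕ) (hK : 32 ≤ K) (hP1 : (P.map Prod.fst).Nodup)
    (hP' : oddPrimes K = (P.map Prod.fst).toFinset) (θ : ℤ)
    (hθ : (DD : ℝ) * (Real.exp (31 / (40 * K)) - 1) ≤ θ)
    (hm : ∀ m < M, modeOK T P θ m (ga C m).1 (ga C m).2.1 (ga C m).2.2 = true)
    {a X : ℝ} (ha : 0 ≤ a) (hX1 : 1 ≤ X) (hX : ∀ t : ℝ, X ≤ t → |S t| ≤ a * t) :
    (u : ℝ) / v ≤ a := by
  obtain ⟨Cb, hC0, hC⟩ := S_bound ha hX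
  have hD := DD_pos
  have hDc : (DD : ℂ) ≠ 0 := by norm_num [DD]
  set θr : ℝ := Real.exp (31 / (40 * K)) - 1 with hθr
  have hθ0 : 0 ≤ θr := by
    have h1 := Real.add_one_le_exp (31 / (40 * (K : ℝ)))
    have h2 : 0 ≤ 31 / (40 * (K : ℝ)) := by positivity
    linarith
  -- the modes
  have hmode : ∀ m < M, ∀ ε : ℝ, 0 < ε → ∀ᶠ σ : ℝ in 𝓝[>] 1,
      ‖((σ : ℂ) - 1) * I0 σ ((2 * m + 1) * τ) - tc (ga C m) / (DD : ℂ)‖ ≤
        ((ga C m).2.2 : ℝ) / DD + ε := by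
    intro m hmM ε hε
    have h1 := mode_sound T P hT hT' hP K hP1 hP' θ θr hθ0 hθ m _ _ _ (hm m hmM)
    filter_upwards [key hC K hK m ε hε] with σ h2
    have e1 : ((σ : ℂ) - 1) * I0 σ ((2 * m + 1) * τ) - tc (ga C m) / (DD : ℂ) =
        (((σ : ℂ) - 1) * I0 σ ((2 * m + 1) * τ) - (Lam K m)⁻¹) +
        ((Lam K m)⁻¹ - tc (ga C m) / (DD : ℂ)) := by ring
    rw [e1]
    refine (norm_add_le _ _).trans ?_
    have h3 : (Bl.mk (ga C m).1 (ga C m).2.1 0).c = tc (ga C m) := rfl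
    rw [h3] at h1
    linarith
  -- the inequality
  have hinj : Function.Injective (fun j : ℕ => 2 * (j : ℝ) * τ) := by
    intro j k h
    have h1 := mul_right_cancel₀ τ_pos.ne' h
    have h2 : (j : ℝ) = k := by linarith
    exact_mod_cast h2
  have hinj' : Function.Injective (fun j : ℕ => (2 * (j : ℝ) + 1) * τ) := by
    intro j k h
    have h1 := mul_right_cancel₀ τ_pos.ne' h
    have h2 : (j : ℝ) = k := by linarith
    exact_mod_cast h2
  have hmain := limit_ineq ha hC0 hC hX1 hX M (fun j => tc (ga A j)) (fun j => tc (ga B j))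
    (fun j : ℕ => 2 * (j : ℝ) * τ) (fun j : ℕ => (2 * (j : ℝ) + 1) * τ) hinj hinj'
    (fun j k => tc (cd C j k) / (DD : ℂ)) (fun j k => ((cd C j k).2.2 : ℝ) / DD) (by
      intro j hj k hk ε hε
      by_cases hjk : j ≤ k
      · have h1 := hmode (k - j) (by omega) ε hε
        filter_upwards [h1] with σ h2
        have e1 : (2 * (k : ℝ) + 1) * τ - 2 * (j : ℝ) * τ = (2 * ((k - j : ℕ) : ℝ) + 1) * τ := by
          rw [Nat.cast_sub hjk]
          ring
        have e2 : cd C j k = ga C (k - j) := by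
          unfold cd ga
          rw [if_pos hjk]
        rw [e1, e2]
        exact h2
      · have h1 := hmode (j - k - 1) (by omega) ε hε
        filter_upwards [h1] with σ h2
        have e1 : (2 * (k : ℝ) + 1) * τ - 2 * (j : ℝ) * τ =
            -((2 * ((j - k - 1 : ℕ) : ℝ) + 1) * τ) := by
          rw [Nat.cast_sub (by omega), Nat.cast_sub (by omega)]
          push_cast
          ring
        have e2 : tc (cd C j k) = conj (tc (ga C (j - k - 1))) := by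
          unfold cd ga tc
          rw [if_neg hjk]
          simp
        have e3 : (cd C j k).2.2 = (ga C (j - k - 1)).2.2 := by
          unfold cd ga
          rw [if_neg hjk]
        rw [e1, e2, e3, I0_conj]
        have e4 : ((σ : ℂ) - 1) * conj (I0 σ ((2 * ((j - k - 1 : ℕ) : ℝ) + 1) * τ)) -
            conj (tc (ga C (j - k - 1))) / (DD : ℂ) =
            conj (((σ : ℂ) - 1) * I0 σ ((2 * ((j - k - 1 : ℕ) : ℝ) + 1) * τ) -
              tc (ga C (j - k - 1)) / (DD : ℂ)) := by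
          simp
        rw [e4, Complex.norm_conj]
        exact h2)
  -- the left hand side
  set V : ℤ := sumTo (fun j => sumTo (fun k => tr (ga A j) (ga B k) (cd C j k)) M) M with hV
  set E : ℤ := sumTo (fun j => sumTo (fun k => (ga A j).2.2 * (ga B k).2.2 * (cd C j k).2.2) M) M
    with hE
  set W₁ : ℤ := sumTo (fun j => (ga A j).1 ^ 2 + (ga A j).2.1 ^ 2) M with hW₁
  set W₂ : ℤ := sumTo (fun j => (ga B j).1 ^ 2 + (ga B j).2.1 ^ 2) M with hW₂
  have g1 : (V : ℝ) / DD ≤ ‖∑ j ∈ range M, ∑ k ∈ range M,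
      tc (ga A j) * conj (tc (ga B k)) * (tc (cd C j k) / (DD : ℂ))‖ := by
    refine le_trans (le_of_eq ?_) (Complex.re_le_norm _)
    rw [Complex.re_sum, hV, sumTo_eq]
    push_cast
    rw [Finset.sum_div]
    refine Finset.sum_congr rfl fun j _ => ?_
    rw [Complex.re_sum, sumTo_eq]
    push_cast
    rw [Finset.sum_div]
    refine Finset.sum_congr rfl fun k _ => ?_
    rw [← tr_eq, ← mul_div_assoc]
    have : (DD : ℂ) = (((DD : ℤ) : ℝ) : ℂ) := by norm_cast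
    rw [this, Complex.div_ofReal_re]
  have g2 : ∑ j ∈ range M, ‖tc (ga A j)‖ ^ 2 = (W₁ : ℝ) := by
    rw [hW₁, sumTo_eq]
    push_cast
    refine Finset.sum_congr rfl fun j _ => ?_
    rw [tc_norm_sq]
    push_cast
    rfl
  have g3 : ∑ j ∈ range M, ‖tc (ga B j)‖ ^ 2 = (W₂ : ℝ) := by
    rw [hW₂, sumTo_eq]
    push_cast
    refine Finset.sum_congr rfl fun j _ => ?_
    rw [tc_norm_sq]
    push_cast
    rfl
  have hδ : ∀ j < M, ∀ k < M, (0 : ℝ) ≤ ((cd C j k).2.2 : ℝ) / DD := by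
    have key0 : ∀ m < M, (0 : ℝ) ≤ ((ga C m).2.2 : ℝ) / DD := by
      intro m hmM
      have h1 := mode_sound T P hT hT' hP K hP1 hP' θ θr hθ0 hθ m _ _ _ (hm m hmM)
      exact le_trans (by positivity) h1
    intro j hj k hk
    by_cases hjk : j ≤ k
    · have e2 : cd C j k = ga C (k - j) := by
        unfold cd ga
        rw [if_pos hjk]
      rw [e2]
      exact key0 _ (by omega)
    · have e3 : (cd C j k).2.2 = (ga C (j - k - 1)).2.2 := by
        unfold cd ga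
        rw [if_neg hjk]
      rw [e3]
      exact key0 _ (by omega)
  have g4 : ∑ j ∈ range M, ∑ k ∈ range M, ‖tc (ga A j)‖ * ‖tc (ga B k)‖ *
      (((cd C j k).2.2 : ℝ) / DD) ≤ (E : ℝ) / DD := by
    rw [hE, sumTo_eq]
    push_cast
    rw [Finset.sum_div]
    refine Finset.sum_le_sum fun j hj => ?_
    rw [sumTo_eq]
    push_cast
    rw [Finset.sum_div]
    refine Finset.sum_le_sum fun k hk => ?_
    rw [mul_div_assoc]
    refine mul_le_mul_of_nonneg_right ?_ (hδ j (Finset.mem_range.1 hj) k (Finset.mem_range.1 hk))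
    exact mul_le_mul (bd_sound hAB j).2 (bd_sound hBB k).2 (norm_nonneg _)
      (by exact_mod_cast (bd_sound hAB j).1)
  rw [g2, g3] at hmain
  have h1 := (g1.trans hmain).trans (add_le_add_right g4 _)
  unfold lastOK at hl
  simp only [Bool.and_eq_true, decide_eq_true_eq] at hl
  rw [← hW₁, ← hW₂, ← hV, ← hE] at hl
  obtain ⟨h2, h3⟩ := hl
  have h2' : (0 : ℝ) < (W₁ : ℝ) + W₂ := by exact_mod_cast h2
  have h3' : (u : ℝ) * (((W₁ : ℝ) + W₂) * DD) ≤ v * (2 * ((V : ℝ) - E)) := by exact_mod_cast h3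
  have hv' : (0 : ℝ) < v := by exact_mod_cast hv
  have h4 : (V : ℝ) - E ≤ a / 2 * ((W₁ : ℝ) + W₂) * DD := by
    have h5 : (V : ℝ) / DD - (E : ℝ) / DD ≤ a / 2 * ((W₁ : ℝ) + W₂) := by linarith
    rw [← sub_div, div_le_iff₀ hD] at h5
    exact h5
  rw [div_le_iff₀ hv']
  have h6 : (u : ℝ) * (((W₁ : ℝ) + W₂) * DD) ≤ a * v * (((W₁ : ℝ) + W₂) * DD) := by
    have := mul_le_mul_of_nonneg_left h4 (by positivity : (0 : ℝ) ≤ 2 * v)
    nlinarith
  exact le_of_mul_le_mul_right h6 (mul_pos h2' hD)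

end Pool.Agent.H701M
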